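import Pool.Agent.Helper76.Prog5

/-!
Reading the input, and the whole program.
-/

namespace Pool.Agent.Helper76.Prog

open Function Pool.Agent.Helper72 Computability

theorem un_append (a b : ℕ) : un a ++ un b = un (a + b) := by
  simp

theorem un_length (n : ℕ) : (un n).length = n := by simp

/-- states with nine registers in use -/
def S9 (a0 a1 a2 a3 a4 a5 a6 a7 a8 : List Bool) : St
  | 0 => a0
  | 1 => a1
  | 2 => a2
  | 3 => a3
  | 4 => a4
  | 5 => a5
  | 6 => a6
  | 7 => a7
  | 8 => a8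
  | _ => []

section

variable (a0 a1 a2 a3 a4 a5 a6 a7 a8 x : List Bool)

theorem S9.u0 : update (S9 a0 a1 a2 a3 a4 a5 a6 a7 a8) 0 x = S9 x a1 a2 a3 a4 a5 a6 a7 a8 := by
  funext r
  match r with
  | 0 | 1 | 2 | 3 | 4 | 5 | 6 | 7 | 8 => rfl
  | n + 9 => rw [update_of_ne (by omega)]; rfl
theorem S9.u1 : update (S9 a0 a1 a2 a3 a4 a5 a6 a7 a8) 1 x = S9 a0 x a2 a3 a4 a5 a6 a7 a8 := by
  funext r
  match r with
  | 0 | 1 | 2 | 3 | 4 | 5 | 6 | 7 | 8 => rfl
  | n + 9 => rw [update_of_ne (by omega)]; rfl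
theorem S9.u2 : update (S9 a0 a1 a2 a3 a4 a5 a6 a7 a8) 2 x = S9 a0 a1 x a3 a4 a5 a6 a7 a8 := by
  funext r
  match r with
  | 0 | 1 | 2 | 3 | 4 | 5 | 6 | 7 | 8 => rfl
  | n + 9 => rw [update_of_ne (by omega)]; rfl
theorem S9.u3 : update (S9 a0 a1 a2 a3 a4 a5 a6 a7 a8) 3 x = S9 a0 a1 a2 x a4 a5 a6 a7 a8 := by
  funext r
  match r with
  | 0 | 1 | 2 | 3 | 4 | 5 | 6 | 7 | 8 => rfl
  | n + 9 => rw [update_of_ne (by omega)]; rfl
theorem S9.u4 : update (S9 a0 a1 a2 a3 a4 a5 a6 a7 a8) 4 x = S9 a0 a1 a2 a3 x a5 a6 a7 a8 := by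
  funext r
  match r with
  | 0 | 1 | 2 | 3 | 4 | 5 | 6 | 7 | 8 => rfl
  | n + 9 => rw [update_of_ne (by omega)]; rfl
theorem S9.u5 : update (S9 a0 a1 a2 a3 a4 a5 a6 a7 a8) 5 x = S9 a0 a1 a2 a3 a4 x a6 a7 a8 := by
  funext r
  match r with
  | 0 | 1 | 2 | 3 | 4 | 5 | 6 | 7 | 8 => rfl
  | n + 9 => rw [update_of_ne (by omega)]; rfl
theorem S9.u6 : update (S9 a0 a1 a2 a3 a4 a5 a6 a7 a8) 6 x = S9 a0 a1 a2 a3 a4 a5 x a7 a8 := by
  funext r
  match r with
  | 0 | 1 | 2 | 3 | 4 | 5 | 6 | 7 | 8 => rfl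
  | n + 9 => rw [update_of_ne (by omega)]; rfl
theorem S9.u7 : update (S9 a0 a1 a2 a3 a4 a5 a6 a7 a8) 7 x = S9 a0 a1 a2 a3 a4 a5 a6 x a8 := by
  funext r
  match r with
  | 0 | 1 | 2 | 3 | 4 | 5 | 6 | 7 | 8 => rfl
  | n + 9 => rw [update_of_ne (by omega)]; rfl
theorem S9.u8 : update (S9 a0 a1 a2 a3 a4 a5 a6 a7 a8) 8 x = S9 a0 a1 a2 a3 a4 a5 a6 a7 x := by
  funext r
  match r with
  | 0 | 1 | 2 | 3 | 4 | 5 | 6 | 7 | 8 => rfl
  | n + 9 => rw [update_of_ne (by omega)]; rfl

end

theorem S9.init (y : List Bool) : initSt 0 y = S9 y [] [] [] [] [] [] [] [] := by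
  funext r
  match r with
  | 0 | 1 | 2 | 3 | 4 | 5 | 6 | 7 | 8 => rfl
  | n + 9 => rfl

/-- `c` leads from `s` to `s'` -/
def Rn (L : ℕ) (s : St) (c : Cmd) (s' : St) : Prop := c.LB L s ∧ c.eval s = s'

theorem Rn.seq {L : ℕ} {s s' s'' : St} {c c' : Cmd} (h : Rn L s c s') (h' : Rn L s' c' s'') :
    Rn L s (.seq c c') s'' := by
  refine ⟨⟨h.1, ?_⟩, ?_⟩
  · rw [h.2]; exact h'.1
  · rw [Cmd.eval_seq, h.2]; exact h'.2

/-- runs of loop bodies -/
def RnL (L : ℕ) (r : ℕ) (c0 c1 : Cmd) (l : List Bool) (s s' : St) : Prop :=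
  loopEval (fun x => if x then c1.eval else c0.eval) r l s = s' ∧
    loopLB (fun x => if x then c1.eval else c0.eval)
      (fun x => if x then c1.LB L else c0.LB L) r l s

theorem RnL.nil {L r : ℕ} {c0 c1 : Cmd} (s : St) : RnL L r c0 c1 [] s s := ⟨rfl, trivial⟩

theorem RnL.cons {L r : ℕ} {c0 c1 : Cmd} {b : Bool} {l : List Bool} {s s' s'' : St}
    (h : Rn L (update s r l) (if b then c1 else c0) s') (h' : RnL L r c0 c1 l s' s'') :
    RnL L r c0 c1 (b :: l) s s'' := by
  cases b
  · refine ⟨?_, h.1, ?_⟩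
    · rw [loopEval]
      simp only [Bool.false_eq_true, if_false] at h ⊢
      rw [h.2]
      exact h'.1
    · simp only [Bool.false_eq_true, if_false] at h ⊢
      rw [h.2]
      exact h'.2
  · refine ⟨?_, h.1, ?_⟩
    · rw [loopEval]
      simp only [if_true] at h ⊢
      rw [h.2]
      exact h'.1
    · simp only [if_true] at h ⊢
      rw [h.2]
      exact h'.2

theorem Rn.loop {L r : ℕ} {c0 c1 : Cmd} {s s' : St} (hl : (s r).length ≤ L)
    (h : RnL L r c0 c1 (s r) s s') : Rn L s (.loop r c0 c1) s' := ⟨⟨hl, h.2⟩, h.1⟩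

theorem Rn.push {L r : ℕ} {b : Bool} {s : St} : Rn L s (.push r b) (update s r (b :: s r)) :=
  ⟨trivial, rfl⟩

theorem Rn.nop {L : ℕ} {s : St} : Rn L s .nop s := ⟨trivial, rfl⟩

theorem Rn.pop {L r : ℕ} {s : St} : Rn L s (.pop r) (update s r (s r).tail) := ⟨trivial, rfl⟩

theorem Rn.ite_nil {L r : ℕ} {c0 c1 c2 : Cmd} {s s' : St} (h : s r = []) (h' : Rn L s c0 s') :
    Rn L s (.ite r c0 c1 c2) s' := by
  constructor
  · simp only [Cmd.LB, h]; exact h'.1
  · simp only [Cmd.eval, h]; exact h'.2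

theorem Rn.ite_true {L r : ℕ} {c0 c1 c2 : Cmd} {s s' : St} {l : List Bool} (h : s r = true :: l)
    (h' : Rn L s c2 s') : Rn L s (.ite r c0 c1 c2) s' := by
  constructor
  · simp only [Cmd.LB, h]; exact h'.1
  · simp only [Cmd.eval, h]; exact h'.2

/-! ### splitting the input -/

/-- the reading loop: `1^n` to register 1, the part after the separator to register 6 (reversed),
flag in register 4 -/
def rd : Cmd := .loop 0 (.ite 4 (.push 4 true) (.push 6 false) (.push 6 false))
  (.ite 4 (.push 1 true) (.push 6 true) (.push 6 true))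

theorem rd_B {L : ℕ} (a1 : List Bool) : ∀ (rest a6 : List Bool),
    RnL L 0 (.ite 4 (.push 4 true) (.push 6 false) (.push 6 false))
      (.ite 4 (.push 1 true) (.push 6 true) (.push 6 true)) rest
      (S9 rest a1 [] [] [true] [] a6 [] []) (S9 [] a1 [] [] [true] [] (rest.reverse ++ a6) [] [])
  | [], a6 => RnL.nil _
  | b :: l, a6 => by
    refine RnL.cons (s' := S9 l a1 [] [] [true] [] (b :: a6) [] []) ?_ ?_
    · rw [S9.u0]
      cases b
      · refine Rn.ite_true (l := []) rfl ?_
        have := Rn.push (L := L) (r := 6) (b := false) (s := S9 l a1 [] [] [true] [] a6 [] [])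
        rwa [S9.u6] at this
      · refine Rn.ite_true (l := []) rfl ?_
        have := Rn.push (L := L) (r := 6) (b := true) (s := S9 l a1 [] [] [true] [] a6 [] [])
        rwa [S9.u6] at this
    · have := rd_B (L := L) a1 l (b :: a6)
      simpa using this

theorem rd_A {L : ℕ} (rest : List Bool) : ∀ (n p : ℕ),
    RnL L 0 (.ite 4 (.push 4 true) (.push 6 false) (.push 6 false))
      (.ite 4 (.push 1 true) (.push 6 true) (.push 6 true)) (un n ++ false :: rest)
      (S9 (un n ++ false :: rest) (un p) [] [] [] [] [] [] [])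
      (S9 [] (un (p + n)) [] [] [true] [] rest.reverse [] [])
  | 0, p => by
    refine RnL.cons (s' := S9 rest (un p) [] [] [true] [] [] [] []) ?_ ?_
    · rw [S9.u0]
      refine Rn.ite_nil rfl ?_
      have := Rn.push (L := L) (r := 4) (b := true) (s := S9 rest (un p) [] [] [] [] [] [] [])
      rwa [S9.u4] at this
    · have := rd_B (L := L) (un p) rest []
      simpa using this
  | n + 1, p => by
    refine RnL.cons (l := un n ++ false :: rest)
      (s' := S9 (un n ++ false :: rest) (un (p + 1)) [] [] [] [] [] [] []) ?_ ?_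
    · rw [S9.u0]
      refine Rn.ite_nil rfl ?_
      have := Rn.push (L := L) (r := 1) (b := true)
        (s := S9 (un n ++ false :: rest) (un p) [] [] [] [] [] [] [])
      rwa [S9.u1] at this
    · have := rd_A (L := L) rest n (p + 1)
      have e : p + 1 + n = p + (n + 1) := by omega
      rwa [e] at this

/-! ### reading the number of colours -/

/-- twice the symbols of register 3 to register 6 -/
def dblB : Cmd := .seq (.push 6 true) (.push 6 true)

theorem dbl_loop {L : ℕ} (a0 a1 a2 a4 a5 a7 a8 : List Bool) : ∀ (l a6 : List Bool),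
    RnL L 3 dblB dblB l (S9 a0 a1 a2 l a4 a5 a6 a7 a8)
      (S9 a0 a1 a2 [] a4 a5 (un (2 * l.length) ++ a6) a7 a8)
  | [], a6 => RnL.nil _
  | b :: l, a6 => by
    refine RnL.cons (s' := S9 a0 a1 a2 l a4 a5 (true :: true :: a6) a7 a8) ?_ ?_
    · rw [S9.u3, ite_self]
      have h1 := Rn.push (L := L) (r := 6) (b := true) (s := S9 a0 a1 a2 l a4 a5 a6 a7 a8)
      rw [S9.u6] at h1
      have h2 := Rn.push (L := L) (r := 6) (b := true) (s := S9 a0 a1 a2 l a4 a5 (true :: a6) a7 a8)
      rw [S9.u6] at h2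
      exact h1.seq h2
    · have := dbl_loop (L := L) a0 a1 a2 a4 a5 a7 a8 l (true :: true :: a6)
      have e : un (2 * l.length) ++ true :: true :: a6 = un (2 * (b :: l).length) ++ a6 := by
        have e2 : (true :: true :: a6) = un 2 ++ a6 := rfl
        rw [e2, ← List.append_assoc, un_append]
        simp only [List.length_cons]
        congr 1
      rwa [e] at this

/-- move one symbol from register 6 to register 3 -/
def capB : Cmd := .ite 6 .nop .nop (.seq (.pop 6) (.push 3 true))

theorem cap_loop {L : ℕ} (a0 a1 a2 a4 a5 a7 : List Bool) : ∀ (l a3 : List Bool) (q : ℕ),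
    RnL L 8 capB capB l (S9 a0 a1 a2 a3 a4 a5 (un q) a7 l)
      (S9 a0 a1 a2 (un (min q l.length) ++ a3) a4 a5 (un (q - l.length)) a7 [])
  | [], a3, q => by
    have h := RnL.nil (L := L) (r := 8) (c0 := capB) (c1 := capB)
      (S9 a0 a1 a2 a3 a4 a5 (un q) a7 [])
    simpa using h
  | b :: l, a3, 0 => by
    refine RnL.cons (s' := S9 a0 a1 a2 a3 a4 a5 (un 0) a7 l) ?_ ?_
    · rw [S9.u8, ite_self]
      exact Rn.ite_nil rfl Rn.nop
    · have := cap_loop (L := L) a0 a1 a2 a4 a5 a7 l a3 0
      simpa using this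
  | b :: l, a3, q + 1 => by
    refine RnL.cons (s' := S9 a0 a1 a2 (true :: a3) a4 a5 (un q) a7 l) ?_ ?_
    · rw [S9.u8, ite_self]
      refine Rn.ite_true (l := un q) rfl ?_
      have h1 := Rn.pop (L := L) (r := 6) (s := S9 a0 a1 a2 a3 a4 a5 (un (q + 1)) a7 l)
      rw [S9.u6] at h1
      have h2 := Rn.push (L := L) (r := 3) (b := true) (s := S9 a0 a1 a2 a3 a4 a5 (un q) a7 l)
      rw [S9.u3] at h2
      exact h1.seq h2
    · have := cap_loop (L := L) a0 a1 a2 a4 a5 a7 l (true :: a3) q
      have e : un (min q l.length) ++ true :: a3 = un (min (q + 1) (b :: l).length) ++ a3 := by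
        have e2 : (true :: a3) = un 1 ++ a3 := rfl
        rw [e2, ← List.append_assoc, un_append]
        simp only [List.length_cons]
        congr 2
        omega
      have e3 : q - l.length = q + 1 - (b :: l).length := by
        simp only [List.length_cons]; omega
      rwa [e, e3] at this

/-- read one binary digit: the number in register 3 is doubled, increased by `b`, and capped by
`n + 2` -/
def digB (b : Bool) : Cmd :=
  .seq (.loop 3 dblB dblB) (.seq (if b then .push 6 true else .nop) (.seq (Cmd.copy 1 8 5)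
    (.seq (.push 8 true) (.seq (.push 8 true) (.seq (.loop 8 capB capB) (Cmd.clear 6))))))

/-- one step of reading a number -/
def stp (n v : ℕ) (b : Bool) : ℕ := min (2 * v + b.toNat) (n + 2)

theorem digB_run {L n v : ℕ} (hv : v ≤ n + 2) (hL : 2 * n + 5 ≤ L) (b : Bool)
    (a2 a7 : List Bool) :
    Rn L (S9 [] (un n) a2 (un v) [true] [] [] a7 []) (digB b)
      (S9 [] (un n) a2 (un (stp n v b)) [true] [] [] a7 []) := by
  have h1 : Rn L (S9 [] (un n) a2 (un v) [true] [] [] a7 []) (.loop 3 dblB dblB)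
      (S9 [] (un n) a2 [] [true] [] (un (2 * v)) a7 []) := by
    refine Rn.loop (by show (un v).length ≤ L; simp; omega) ?_
    have := dbl_loop (L := L) [] (un n) a2 [true] [] a7 [] (un v) []
    rw [un_length, List.append_nil] at this
    exact this
  have h2 : Rn L (S9 [] (un n) a2 [] [true] [] (un (2 * v)) a7 []) (if b then .push 6 true else .nop)
      (S9 [] (un n) a2 [] [true] [] (un (2 * v + b.toNat)) a7 []) := by
    cases b
    · exact Rn.nop
    · have := Rn.push (L := L) (r := 6) (b := true)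
        (s := S9 [] (un n) a2 [] [true] [] (un (2 * v)) a7 [])
      rw [S9.u6] at this
      exact this
  set q := 2 * v + b.toNat with hq
  have hq2 : q ≤ 2 * n + 5 := by
    have : b.toNat ≤ 1 := Bool.toNat_le b
    omega
  have h3 : Rn L (S9 [] (un n) a2 [] [true] [] (un q) a7 []) (Cmd.copy 1 8 5)
      (S9 [] (un n) a2 [] [true] [] (un q) a7 (un n)) := by
    refine ⟨Cmd.LB_copy (by norm_num) (by norm_num) (by norm_num) rfl ?_, ?_⟩
    · show (un n).length ≤ L
      simp; omega
    · rw [Cmd.eval_copy (by norm_num) (by norm_num) (by norm_num) rfl, S9.u8]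
      show S9 [] (un n) a2 [] [true] [] (un q) a7 (un n ++ []) = _
      rw [List.append_nil]
  have h4 : Rn L (S9 [] (un n) a2 [] [true] [] (un q) a7 (un n)) (.push 8 true)
      (S9 [] (un n) a2 [] [true] [] (un q) a7 (un (n + 1))) := by
    have := Rn.push (L := L) (r := 8) (b := true)
      (s := S9 [] (un n) a2 [] [true] [] (un q) a7 (un n))
    rw [S9.u8] at this
    exact this
  have h5 : Rn L (S9 [] (un n) a2 [] [true] [] (un q) a7 (un (n + 1))) (.push 8 true)
      (S9 [] (un n) a2 [] [true] [] (un q) a7 (un (n + 2))) := by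
    have := Rn.push (L := L) (r := 8) (b := true)
      (s := S9 [] (un n) a2 [] [true] [] (un q) a7 (un (n + 1)))
    rw [S9.u8] at this
    exact this
  have h6 : Rn L (S9 [] (un n) a2 [] [true] [] (un q) a7 (un (n + 2))) (.loop 8 capB capB)
      (S9 [] (un n) a2 (un (min q (n + 2))) [true] [] (un (q - (n + 2))) a7 []) := by
    refine Rn.loop (by show (un (n + 2)).length ≤ L; rw [un_length]; omega) ?_
    have := cap_loop (L := L) [] (un n) a2 [true] [] a7 (un (n + 2)) [] q
    rw [un_length, List.append_nil] at this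
    exact this
  have h7 : Rn L (S9 [] (un n) a2 (un (min q (n + 2))) [true] [] (un (q - (n + 2))) a7 [])
      (Cmd.clear 6) (S9 [] (un n) a2 (un (min q (n + 2))) [true] [] [] a7 []) := by
    refine ⟨Cmd.LB_clear ?_, ?_⟩
    · show (un (q - (n + 2))).length ≤ L
      rw [un_length]; omega
    · rw [Cmd.eval_clear, S9.u6]
  exact h1.seq (h2.seq (h3.seq (h4.seq (h5.seq (h6.seq h7)))))

theorem dig_loop {L n : ℕ} (hL : 2 * n + 5 ≤ L) (a2 : List Bool) : ∀ (l : List Bool) (v : ℕ),
    v ≤ n + 2 → RnL L 7 (digB false) (digB true) l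
      (S9 [] (un n) a2 (un v) [true] [] [] l [])
      (S9 [] (un n) a2 (un (l.foldl (stp n) v)) [true] [] [] [] [])
  | [], v, _ => RnL.nil _
  | b :: l, v, hv => by
    refine RnL.cons (s' := S9 [] (un n) a2 (un (stp n v b)) [true] [] [] l []) ?_ ?_
    · rw [S9.u7]
      have := digB_run hv hL b a2 l
      cases b
      · exact this
      · exact this
    · exact dig_loop hL a2 l (stp n v b) (by unfold stp; omega)

/-- value of a binary number, least significant digit first -/
def lv : List Bool → ℕ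
  | [] => 0
  | b :: l => 2 * lv l + b.toNat

theorem lv_pos : ∀ p : PosNum, lv (encodePosNum p) = (p : ℕ)
  | .one => rfl
  | .bit0 p => by
    rw [encodePosNum, lv, lv_pos p, PosNum.cast_bit0]
    simp; ring
  | .bit1 p => by
    rw [encodePosNum, lv, lv_pos p, PosNum.cast_bit1]
    simp; ring

theorem lv_encodeNat (k : ℕ) : lv (encodeNat k) = k := by
  have key : ∀ m : Num, lv (encodeNum m) = (m : ℕ) := by
    intro m
    cases m with
    | zero => rfl
    | pos p => exact lv_pos p
  rw [encodeNat, key]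
  simp

theorem foldl_stp (n : ℕ) : ∀ l : List Bool, l.reverse.foldl (stp n) 0 = min (lv l) (n + 2)
  | [] => by simp [lv]
  | b :: l => by
    rw [List.reverse_cons, List.foldl_append, foldl_stp n l]
    show stp n _ b = _
    rw [stp, lv]
    omega

/-! ### the program -/

variable (N : ℕ) (Q : ℕ → (Fin N → Fin N → Bool) → (Fin N → Fin N → Bool) → Prop)

/-- the program -/
noncomputable def main (k0 : ℕ) : Cmd :=
  .seq rd (.seq (Cmd.mv 6 2) (.seq (Cmd.copy 2 6 5) (.seq (Cmd.copy 1 7 5)
    (.seq (.loop 7 rowBody rowBody) (.seq (Cmd.mv 6 7) (.seq (.loop 7 (digB false) (digB true))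
      (go N Q k0 0)))))))

variable {N Q}

theorem main_spec {k0 : ℕ} (hk0 : 2 ≤ k0) (n k L : ℕ) (mat : List Bool)
    (hmat : mat.length = n * n)
    (hL : 3 * (un n ++ false :: (mat ++ encodeNat k)).length + 10 ≤ L) :
    (main N Q k0).LB L (initSt 0 (un n ++ false :: (mat ++ encodeNat k))) ∧
    (Cond N Q k0 n (mat ++ encodeNat k) (min k (n + 2)) →
      (main N Q k0).eval (initSt 0 (un n ++ false :: (mat ++ encodeNat k))) 4 = [true]) ∧
    (¬ Cond N Q k0 n (mat ++ encodeNat k) (min k (n + 2)) →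
      (main N Q k0).eval (initSt 0 (un n ++ false :: (mat ++ encodeNat k))) 4 = []) := by
  set y := un n ++ false :: (mat ++ encodeNat k) with hy
  set M := mat ++ encodeNat k with hM
  have hlen : y.length = n + 1 + M.length := by
    rw [hy]; simp; omega
  rw [S9.init]
  have h1 : Rn L (S9 y [] [] [] [] [] [] [] []) rd
      (S9 [] (un n) [] [] [true] [] M.reverse [] []) := by
    refine Rn.loop (by show y.length ≤ L; omega) ?_
    have := rd_A (L := L) M n 0
    rw [Nat.zero_add] at this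
    exact this
  have h2 : Rn L (S9 [] (un n) [] [] [true] [] M.reverse [] []) (Cmd.mv 6 2)
      (S9 [] (un n) M [] [true] [] [] [] []) := by
    refine ⟨Cmd.LB_mv (by norm_num) ?_, ?_⟩
    · show M.reverse.length ≤ L
      rw [List.length_reverse]; omega
    · rw [Cmd.eval_mv (by norm_num), S9.u6, S9.u2]
      show S9 [] (un n) (M.reverse.reverse ++ []) [] [true] [] [] [] [] = _
      rw [List.reverse_reverse, List.append_nil]
  have h3 : Rn L (S9 [] (un n) M [] [true] [] [] [] []) (Cmd.copy 2 6 5)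
      (S9 [] (un n) M [] [true] [] M [] []) := by
    refine ⟨Cmd.LB_copy (by norm_num) (by norm_num) (by norm_num) rfl ?_, ?_⟩
    · show M.length ≤ L
      omega
    · rw [Cmd.eval_copy (by norm_num) (by norm_num) (by norm_num) rfl, S9.u6]
      show S9 [] (un n) M [] [true] [] (M ++ []) [] [] = _
      rw [List.append_nil]
  have h4 : Rn L (S9 [] (un n) M [] [true] [] M [] []) (Cmd.copy 1 7 5)
      (S9 [] (un n) M [] [true] [] M (un n) []) := by
    refine ⟨Cmd.LB_copy (by norm_num) (by norm_num) (by norm_num) rfl ?_, ?_⟩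
    · show (un n).length ≤ L
      rw [un_length]; omega
    · rw [Cmd.eval_copy (by norm_num) (by norm_num) (by norm_num) rfl, S9.u7]
      show S9 [] (un n) M [] [true] [] M (un n ++ []) [] = _
      rw [List.append_nil]
  have h5 : Rn L (S9 [] (un n) M [] [true] [] M (un n) []) (.loop 7 rowBody rowBody)
      (S9 [] (un n) M [] [true] [] (encodeNat k) [] []) := by
    obtain ⟨r1, r2⟩ := row_loop (n := n) (L := L) (by omega) (un n)
      (S9 [] (un n) M [] [true] [] M (un n) []) rfl rfl rfl rfl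
    refine Rn.loop (by show (un n).length ≤ L; rw [un_length]; omega) ⟨?_, r2⟩
    refine Eq.trans r1 ?_
    rw [S9.u7, S9.u6, un_length]
    show S9 [] (un n) M [] [true] [] (M.drop (n * n)) [] [] = _
    rw [hM, ← hmat, List.drop_left]
  have h6 : Rn L (S9 [] (un n) M [] [true] [] (encodeNat k) [] []) (Cmd.mv 6 7)
      (S9 [] (un n) M [] [true] [] [] (encodeNat k).reverse []) := by
    refine ⟨Cmd.LB_mv (by norm_num) ?_, ?_⟩
    · show (encodeNat k).length ≤ L
      have : M.length = mat.length + (encodeNat k).length := by rw [hM, List.length_append]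
      omega
    · rw [Cmd.eval_mv (by norm_num), S9.u6, S9.u7]
      show S9 [] (un n) M [] [true] [] [] ((encodeNat k).reverse ++ []) [] = _
      rw [List.append_nil]
  have h7 : Rn L (S9 [] (un n) M [] [true] [] [] (encodeNat k).reverse [])
      (.loop 7 (digB false) (digB true))
      (S9 [] (un n) M (un (min k (n + 2))) [true] [] [] [] []) := by
    refine Rn.loop (by
      show (encodeNat k).reverse.length ≤ L
      have : M.length = mat.length + (encodeNat k).length := by rw [hM, List.length_append]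
      rw [List.length_reverse]
      omega) ?_
    have := dig_loop (L := L) (n := n) (by omega) M (encodeNat k).reverse 0 (by omega)
    rw [foldl_stp, lv_encodeNat] at this
    exact this
  obtain ⟨g1, g2, g3⟩ := go_spec (N := N) (Q := Q) (n := n) (L := L) (M := M) hk0 (by omega)
    (by omega) (by omega) k0 0 (min k (n + 2)) (S9 [] (un n) M (un (min k (n + 2))) [true] [] [] [] [])
    (by omega) (by omega) ⟨rfl, rfl, rfl, le_rfl, rfl, rfl, rfl, rfl⟩
    (fun r hr => by
      match r with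
      | 0 | 1 | 2 | 3 | 4 | 5 | 6 | 7 | 8 => omega
      | n + 9 => rfl) rfl
  rw [Nat.add_zero] at g2 g3
  have h8 : Rn L (S9 [] (un n) M (un (min k (n + 2))) [true] [] [] [] []) (go N Q k0 0)
      ((go N Q k0 0).eval (S9 [] (un n) M (un (min k (n + 2))) [true] [] [] [] [])) := ⟨g1, rfl⟩
  obtain ⟨k1, k2⟩ := h1.seq (h2.seq (h3.seq (h4.seq (h5.seq (h6.seq (h7.seq h8))))))
  refine ⟨k1, fun h => ?_, fun h => ?_⟩
  · rw [main, k2]; exact g2 h
  · rw [main, k2]; exact g3 h

theorem ok_main (k0 : ℕ) : (main N Q k0).ok = true := by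
  have h1 : rd.ok = true := by simp [rd, Cmd.ok, Cmd.wr]
  have h2 : (Cmd.copy 2 6 5).ok = true := Cmd.ok_copy (by norm_num) (by norm_num)
  have h3 : (Cmd.copy 1 7 5).ok = true := Cmd.ok_copy (by norm_num) (by norm_num)
  have h4 : rowBody.wr 7 = false := by
    simp [rowBody, Cmd.wr, wr_copy, wr_popL]
  have h5 : (Cmd.copy 1 8 5).ok = true := Cmd.ok_copy (by norm_num) (by norm_num)
  have h6 : (Cmd.copy 1 8 5).wr 7 = false := wr_copy (by norm_num) (by norm_num) (by norm_num)
  have h7 : ∀ b, (digB b).ok = true := by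
    intro b
    cases b <;> simp [digB, dblB, capB, Cmd.ok, Cmd.wr, h5]
  have h8 : ∀ b, (digB b).wr 7 = false := by
    intro b
    cases b <;> simp [digB, dblB, capB, Cmd.wr, h6, Cmd.clear]
  simp [main, Cmd.ok, h1, h2, h3, h4, h7, h8, ok_rowBody, ok_go, Cmd.ok_mv]

end Pool.Agent.Helper76.Prog
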