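import Pool.Agent.Helper76.Check

/-!
A graph that is not 2-colourable has an induced odd cycle.
-/

namespace Pool.Agent.Helper76

open SimpleGraph

variable {V : Type*} {G : SimpleGraph V}

theorem exists_subwalk {u v : V} (w : G.Walk u v) {i j : ℕ} (hij : i ≤ j) (hj : j ≤ w.length) :
    ∃ p : G.Walk (w.getVert i) (w.getVert j), p.length = j - i := by
  have h1 : (w.drop i).getVert (j - i) = w.getVert j := by
    rw [Walk.drop_getVert]; congr 1; omega
  refine ⟨((w.drop i).take (j - i)).copy rfl h1, ?_⟩
  rw [Walk.length_copy, Walk.take_length, Walk.drop_length]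
  omega

/-- a shortest odd closed walk is an induced cycle -/
theorem exists_induced_odd_cycle (h : ¬ G.Colorable 2) :
    ∃ (l : ℕ) (f : ℕ → V), Odd l ∧ 3 ≤ l ∧ ∀ i < l, ∀ j < i,
      f i ≠ f j ∧ (G.Adj (f i) (f j) ↔ (i = j + 1 ∨ (j = 0 ∧ i = l - 1))) := by
  classical
  rw [two_colorable_iff_forall_loop_even] at h
  push Not at h
  obtain ⟨u0, w0, hw0⟩ := h
  have hne : {n : ℕ | ∃ (u : V) (w : G.Walk u u), Odd w.length ∧ w.length = n}.Nonempty :=
    ⟨_, u0, w0, Nat.not_even_iff_odd.1 hw0, rfl⟩
  obtain ⟨u, w, hodd, hlen⟩ := Nat.sInf_mem hne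
  have hmin : ∀ (v : V) (p : G.Walk v v), Odd p.length → w.length ≤ p.length := by
    intro v p hp
    rw [hlen]
    exact Nat.sInf_le ⟨v, p, hp, rfl⟩
  have h0 : w.getVert 0 = u := Walk.getVert_zero w
  have hl : w.getVert w.length = u := Walk.getVert_length w
  -- complementary walk
  have hcomp : ∀ i j, i ≤ j → j ≤ w.length →
      ∃ p : G.Walk (w.getVert j) (w.getVert i), p.length = w.length - (j - i) := by
    intro i j hij hj
    obtain ⟨p, hp⟩ := exists_subwalk w (i := j) (j := w.length) hj le_rfl
    obtain ⟨q, hq⟩ := exists_subwalk w (i := 0) (j := i) (Nat.zero_le _) (by omega)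
    refine ⟨p.append (q.copy (by rw [h0, hl]) rfl), ?_⟩
    rw [Walk.length_append, Walk.length_copy, hp, hq]
    omega
  have hl3 : 3 ≤ w.length := by
    by_contra hlt
    have h1 : w.length = 1 := by
      rcases hodd with ⟨m, hm⟩
      omega
    have := w.adj_getVert_succ (i := 0) (by omega)
    rw [h0, zero_add, ← h1, hl] at this
    exact G.loopless.irrefl _ this
  have hodd' : w.length % 2 = 1 := Nat.odd_iff.1 hodd
  refine ⟨w.length, w.getVert, hodd, hl3, ?_⟩
  intro i hi j hj
  constructor
  · intro heq
    obtain ⟨p, hp⟩ := exists_subwalk w (i := j) (j := i) hj.le hi.le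
    obtain ⟨q, hq⟩ := hcomp j i hj.le hi.le
    by_cases hpar : (i - j) % 2 = 1
    · have := hmin _ (p.copy rfl heq) (by rw [Walk.length_copy, hp]; exact Nat.odd_iff.2 hpar)
      rw [Walk.length_copy, hp] at this
      omega
    · have := hmin _ (q.copy heq rfl) (by
        rw [Walk.length_copy, hq]; exact Nat.odd_iff.2 (by omega))
      rw [Walk.length_copy, hq] at this
      omega
  · constructor
    · intro hadj
      obtain ⟨p, hp⟩ := exists_subwalk w (i := j) (j := i) hj.le hi.le
      obtain ⟨q, hq⟩ := hcomp j i hj.le hi.le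
      by_cases hpar : (i - j) % 2 = 0
      · have := hmin _ (p.cons hadj) (by
          rw [Walk.length_cons, hp]; exact Nat.odd_iff.2 (by omega))
        rw [Walk.length_cons, hp] at this
        right
        omega
      · have := hmin _ (q.cons hadj.symm) (by
          rw [Walk.length_cons, hq]; exact Nat.odd_iff.2 (by omega))
        rw [Walk.length_cons, hq] at this
        left
        omega
    · rintro (rfl | ⟨rfl, rfl⟩)
      · exact (w.adj_getVert_succ (by omega)).symm
      · have := w.adj_getVert_succ (i := w.length - 1) (by omega)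
        have e : w.length - 1 + 1 = w.length := by omega
        rw [e, hl] at this
        rw [h0]
        exact this

end Pool.Agent.Helper76
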