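import Pool.Agent.Helper76.CertB4
import Pool.Agent.Helper76.CertB5
import Pool.Agent.Helper76.OddCycle

/-!
Critical graphs for three and four colours in the class of (diamond, P1+P5)-free graphs.
-/

namespace Pool.Agent.Helper76

open SimpleGraph

/-- the diamond as a coded graph -/
def mDia : ℕ := 0x3000000030000000d0000000e
/-- `P1+P5` as a coded graph: the path `0 1 2 3 4` and the vertex `5` -/
def mP15 : ℕ := 0x8000000140000000a0000000500000002
/-- `K4`, `K5` -/
def mK4 : ℕ := 0x70000000b0000000d0000000e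
def mK5 : ℕ := 0xf000000170000001b0000001d0000001e
/-- `V8`: the circulant graph on eight vertices with connection set `{1, 4}` -/
def mV8 : ℕ := 0x49000000a40000005200000029000000940000004a0000002500000092
/-- cycles -/
def mC3 : ℕ := 0x30000000500000006
def mC5 : ℕ := 0x9000000140000000a0000000500000012
def mC7 : ℕ := 0x210000005000000028000000140000000a0000000500000042

def hasG (n M : ℕ) : List Step → Bool
  | [] => false
  | st :: l => (Nat.beq st.n n && Nat.beq st.M M) || hasG n M l

theorem hasG_iff {n M : ℕ} : ∀ {l : List Step}, hasG n M l = true →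
    ∃ st ∈ l, st.n = n ∧ st.M = M
  | [], h => by simp [hasG] at h
  | st :: l, h => by
    rw [hasG, Bool.or_eq_true, Bool.and_eq_true] at h
    rcases h with ⟨h1, h2⟩ | h
    · exact ⟨st, by simp, Nat.eq_of_beq_eq_true h1, Nat.eq_of_beq_eq_true h2⟩
    · obtain ⟨s, hs, h3⟩ := hasG_iff h
      exact ⟨s, List.mem_cons_of_mem _ hs, h3⟩

theorem b5_has : (hasG 3 mC3 b5Steps && hasG 5 mC5 b5Steps && hasG 7 mC7 b5Steps) = true := by
  decide +kernel

theorem b4_has : (hasG 3 mC3 b4Steps && hasG 5 mC5 b4Steps && hasG 7 mC7 b4Steps) = true := by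
  decide +kernel

def allG (P : ℕ × ℕ → Bool) : List (ℕ × ℕ) → Bool
  | [] => true
  | p :: l => P p && allG P l

theorem allG_iff {P : ℕ × ℕ → Bool} : ∀ {l : List (ℕ × ℕ)}, allG P l = true →
    ∀ p ∈ l, P p = true
  | [], _, p, hp => by simp at hp
  | q :: l, h, p, hp => by
    rw [allG, Bool.and_eq_true] at h
    rcases List.mem_cons.1 hp with rfl | hp
    · exact h.1
    · exact allG_iff h.2 p hp

variable {V : Type*} {G : SimpleGraph V}

/-- no induced odd cycles -/
theorem colorable_two_of_avoid (h3 : Avoid G 3 mC3) (h5 : Avoid G 5 mC5) (h7 : Avoid G 7 mC7)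
    (hp : Avoid G 6 mP15) : G.Colorable 2 := by
  by_contra hcon
  obtain ⟨l, f, hodd, hl, hf⟩ := exists_induced_odd_cycle hcon
  have hodd : l % 2 = 1 := Nat.odd_iff.1 hodd
  have hcases : l = 3 ∨ l = 5 ∨ l = 7 ∨ 9 ≤ l := by omega
  rcases hcases with rfl | rfl | rfl | hl9
  · refine h3 f fun a ha b hb => ?_
    obtain ⟨h1, h2⟩ := hf a ha b hb
    refine ⟨h1, h2.trans ?_⟩
    clear h1 h2
    revert b
    revert a
    decide +kernel
  · refine h5 f fun a ha b hb => ?_
    obtain ⟨h1, h2⟩ := hf a ha b hb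
    refine ⟨h1, h2.trans ?_⟩
    clear h1 h2
    revert b
    revert a
    decide +kernel
  · refine h7 f fun a ha b hb => ?_
    obtain ⟨h1, h2⟩ := hf a ha b hb
    refine ⟨h1, h2.trans ?_⟩
    clear h1 h2
    revert b
    revert a
    decide +kernel
  · refine hp (fun i => if i = 5 then f 6 else f i) fun a ha b hb => ?_
    have hb5 : b ≠ 5 := by omega
    simp only [hb5, if_false]
    by_cases ha5 : a = 5
    · subst ha5
      simp only [if_true]
      obtain ⟨h1, h2⟩ := hf 6 (by omega) b (by omega)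
      refine ⟨h1, ?_⟩
      rw [h2]
      have h4 : ¬ (6 = b + 1 ∨ (b = 0 ∧ 6 = l - 1)) := by omega
      have h5 : tb mP15 (32 * 5 + b) = false :=
        (by decide +kernel : ∀ b < 5, tb mP15 (32 * 5 + b) = false) b hb
      rw [h5]
      simp only [h4, Bool.false_eq_true]
    · simp only [ha5, if_false]
      obtain ⟨h1, h2⟩ := hf a (by omega) b hb
      refine ⟨h1, ?_⟩
      rw [h2]
      have h4 : (a = b + 1 ∨ (b = 0 ∧ a = l - 1)) ↔ a = b + 1 := by omega
      rw [h4]
      exact (by decide +kernel : ∀ a < 5, ∀ b < a, (a = b + 1 ↔ tb mP15 (32 * a + b) = true)) a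
        (by omega) b hb

/-- the only (diamond, P1+P5)-free graph that is critical for four colours is `K5` -/
theorem base_B5 (hcr : Crit G 4) (hd : Avoid G 4 mDia) (hp : Avoid G 6 mP15)
    (hk : Avoid G 5 mK5) : False := by
  have hV8 : Avoid G 8 mV8 := by
    intro σ he
    refine hcr.nc (TC.sound (F := b5T8F) ?_ b5T8 b5T8_check (σ := σ) he)
    intro p hp'
    simp only [b5T8F, List.mem_cons, List.not_mem_nil, or_false] at hp'
    rcases hp' with rfl | rfl
    · exact hd
    · exact hp
  have hforb : ∀ p ∈ b5Forb, Avoid G p.1 p.2 := by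
    intro p hp'
    simp only [b5Forb, List.mem_cons, List.not_mem_nil, or_false] at hp'
    rcases hp' with rfl | rfl | rfl | rfl
    · exact hd
    · exact hp
    · exact hV8
    · exact hk
  have key := checkAll_sound hcr b5Steps b5Forb hforb b5_check
  have hh := b5_has
  rw [Bool.and_eq_true, Bool.and_eq_true] at hh
  obtain ⟨⟨h3, h5⟩, h7⟩ := hh
  have a3 : Avoid G 3 mC3 := by
    obtain ⟨st, hst, h1, h2⟩ := hasG_iff h3
    rw [← h1, ← h2]; exact key st hst
  have a5 : Avoid G 5 mC5 := by
    obtain ⟨st, hst, h1, h2⟩ := hasG_iff h5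
    rw [← h1, ← h2]; exact key st hst
  have a7 : Avoid G 7 mC7 := by
    obtain ⟨st, hst, h1, h2⟩ := hasG_iff h7
    rw [← h1, ← h2]; exact key st hst
  have hcol := colorable_two_of_avoid a3 a5 a7 hp
  exact hcr.nc (colOn_univ_iff.2 (hcol.mono (by norm_num)))

/-- a (diamond, P1+P5)-free graph that is critical for three colours has at most ten vertices -/
theorem base_B4 (hcr : Crit G 3) (hd : Avoid G 4 mDia) (hp : Avoid G 6 mP15)
    (hbig : ∀ σ : ℕ → V, ∃ v, ∀ t < 10, v ≠ σ t) : False := by
  have hbig' : ∀ n ≤ 10, ∀ σ : ℕ → V, ∃ v, ∀ t < n, v ≠ σ t := by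
    intro n hn σ
    obtain ⟨v, hv⟩ := hbig σ
    exact ⟨v, fun t ht => hv t (by omega)⟩
  have hnc : ∀ n A, n ≤ 10 → ncol 3 A n 0 [] = true → Avoid G n A := by
    intro n A hn h
    exact avoid_of_ncol hcr (hbig' n hn) h
  have hK4 : Avoid G 4 mK4 := hnc 4 _ (by norm_num) (by decide +kernel)
  -- S2
  have hS2 : Avoid G b4T2.n b4T2.M := by
    intro σ he
    refine hcr.nc (TC.sound (F := b4T2F) ?_ b4T2 b4T2_check (σ := σ) he)
    intro p hp'
    simp only [b4T2F, List.mem_cons, List.not_mem_nil, or_false] at hp'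
    rcases hp' with rfl | rfl | rfl
    · exact hd
    · exact hp
    · exact hK4
  have hV8 : Avoid G 8 mV8 := by
    intro σ he
    refine hcr.nc (TC2.sound (F := b4T8F) ?_ b4T8 b4T8_check (σ := σ) he)
    intro p hp'
    simp only [b4T8F, List.mem_cons, List.not_mem_nil, or_false] at hp'
    rcases hp' with rfl | rfl | rfl | rfl | rfl
    · exact hd
    · exact hp
    · exact hK4
    · exact hnc 9 _ (by norm_num) (by decide +kernel)
    · exact hS2
  have hforb : ∀ p ∈ b4Forb, Avoid G p.1 p.2 := by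
    intro p hp'
    simp only [b4Forb, List.mem_cons, List.not_mem_nil, or_false] at hp'
    rcases hp' with rfl | rfl | rfl | rfl | rfl | rfl | rfl | rfl | rfl
    · exact hd
    · exact hp
    · exact hV8
    · exact hK4
    · exact hnc 9 _ (by norm_num) (by decide +kernel)
    · exact hnc 9 _ (by norm_num) (by decide +kernel)
    · exact hnc 10 _ (by norm_num) (by decide +kernel)
    · exact hnc 10 _ (by norm_num) (by decide +kernel)
    · exact hnc 10 _ (by norm_num) (by decide +kernel)
  have key := checkAll_sound hcr b4Steps b4Forb hforb b4_check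
  have hh := b4_has
  rw [Bool.and_eq_true, Bool.and_eq_true] at hh
  obtain ⟨⟨h3, h5⟩, h7⟩ := hh
  have a3 : Avoid G 3 mC3 := by
    obtain ⟨st, hst, h1, h2⟩ := hasG_iff h3
    rw [← h1, ← h2]; exact key st hst
  have a5 : Avoid G 5 mC5 := by
    obtain ⟨st, hst, h1, h2⟩ := hasG_iff h5
    rw [← h1, ← h2]; exact key st hst
  have a7 : Avoid G 7 mC7 := by
    obtain ⟨st, hst, h1, h2⟩ := hasG_iff h7
    rw [← h1, ← h2]; exact key st hst
  have hcol := colorable_two_of_avoid a3 a5 a7 hp
  exact hcr.nc (colOn_univ_iff.2 (hcol.mono (by norm_num)))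

end Pool.Agent.Helper76
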