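import Pool.Agent.Helper76.Crit

/-!
A checker for certificates that certain small graphs are not induced subgraphs of
critical graphs.  A graph on the vertices `0, ..., n-1` (`n ≤ 31`) is given by a number `M`;
the vertices `a ≠ b` are adjacent iff bit `32 * a + b` of `M` is set.
-/

namespace Pool.Agent.Helper76

open SimpleGraph

/-- bit `i` of `m` -/
def tb (m i : ℕ) : Bool := Nat.beq (Nat.land 1 (Nat.shiftRight m i)) 1

theorem tb_eq (m i : ℕ) : tb m i = m.testBit i := by
  have h : Nat.land 1 (Nat.shiftRight m i) = 1 &&& (m >>> i) := rfl
  unfold tb Nat.testBit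
  rw [h]
  have h1 : (1 &&& (m >>> i)) = 0 ∨ (1 &&& (m >>> i)) = 1 := by
    rw [Nat.land_comm, Nat.and_one_is_mod]; omega
  rcases h1 with h1 | h1 <;> rw [h1] <;> rfl

theorem tb_or (m n i : ℕ) : tb (m ||| n) i = (tb m i || tb n i) := by
  simp [tb_eq]

theorem tb_shift (m j i : ℕ) : tb (Nat.shiftRight m j) i = tb m (j + i) := by
  rw [tb_eq, tb_eq]
  exact Nat.testBit_shiftRight m

theorem tb_pow (n i : ℕ) : tb (2 ^ n) i = decide (n = i) := by
  rw [tb_eq, Nat.testBit_two_pow]

theorem tb_zero (i : ℕ) : tb 0 i = false := by simp [tb_eq]

section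

variable {V : Type*}

/-- `σ` is an induced embedding of the graph `(n, M)` -/
def Emb (G : SimpleGraph V) (n M : ℕ) (σ : ℕ → V) : Prop :=
  ∀ a < n, ∀ b < a, σ a ≠ σ b ∧ (G.Adj (σ a) (σ b) ↔ tb M (32 * a + b) = true)

/-- the graph `(n, M)` is not an induced subgraph -/
def Avoid (G : SimpleGraph V) (n M : ℕ) : Prop := ∀ σ, ¬ Emb G n M σ

/-- the known pairs (`K`) have the right adjacency (`M`) -/
def Cons (G : SimpleGraph V) (M K : ℕ) (σ : ℕ → V) : Prop :=
  ∀ a < 32, ∀ b < 32, tb K (32 * a + b) = true →
    σ a ≠ σ b ∧ (G.Adj (σ a) (σ b) ↔ tb M (32 * a + b) = true)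

/-- unknown pairs have bit zero -/
def Inv (M K : ℕ) : Prop := ∀ i, tb K i = false → tb M i = false

end

/-! ### leaves: embedded forbidden graphs -/

/-- check row against the previous images -/
def okRow (Mx Kx Aa : ℕ) : List ℕ → ℕ → Bool
  | [], _ => true
  | y :: l, j => tb Kx y && (cond (tb Mx y) (tb Aa (j - 1)) (!tb Aa (j - 1))) &&
      okRow Mx Kx Aa l (j - 1)

/-- read `m` images from the stream `s` and check that they are an embedding of `A` -/
def emb (M K A : ℕ) : ℕ → ℕ → List ℕ → ℕ → Option ℕ
  | 0, _, _, s => some s
  | m + 1, a, prev, s =>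
    cond (okRow (Nat.shiftRight M (32 * (s % 32))) (Nat.shiftRight K (32 * (s % 32)))
        (Nat.shiftRight A (32 * a)) prev a)
      (emb M K A m (a + 1) ((s % 32) :: prev) (s / 32)) none

theorem okRow_spec {Mx Kx Aa : ℕ} : ∀ (l : List ℕ) (j : ℕ), l.length = j →
    okRow Mx Kx Aa l j = true → ∀ b < j, ∃ y, l.reverse[b]? = some y ∧
      tb Kx y = true ∧ tb Mx y = tb Aa b
  | [], j, hj, _, b, hb => by simp at hj; omega
  | y :: l, j, hj, h, b, hb => by
    simp only [List.length_cons] at hj
    simp only [okRow, Bool.and_eq_true] at h
    obtain ⟨⟨h1, h2⟩, h3⟩ := h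
    have hj' : l.length = j - 1 := by omega
    by_cases hbj : b = j - 1
    · refine ⟨y, ?_, h1, ?_⟩
      · rw [List.reverse_cons, List.getElem?_append_right (by simp; omega)]
        simp [hbj, hj']
      · rw [hbj]
        cases hx : tb Mx y <;> simp [hx] at h2 <;> simp [h2]
    · obtain ⟨z, hz, h4, h5⟩ := okRow_spec l (j - 1) hj' h3 b (by omega)
      refine ⟨z, ?_, h4, h5⟩
      rw [List.reverse_cons, List.getElem?_append_left (by simp; omega), hz]

/-- semantic content of a successful `emb`: the final list of images -/
theorem emb_spec {M K A : ℕ} : ∀ (m a : ℕ) (prev : List ℕ) (s s' : ℕ),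
    emb M K A m a prev s = some s' → prev.length = a → (∀ y ∈ prev, y < 32) →
    (∀ i < a, ∀ j < i, ∃ x y, prev.reverse[i]? = some x ∧ prev.reverse[j]? = some y ∧
      tb K (32 * x + y) = true ∧ tb M (32 * x + y) = tb A (32 * i + j)) →
    ∃ l : List ℕ, l.length = a + m ∧ (∀ y ∈ l, y < 32) ∧
      ∀ i < a + m, ∀ j < i, ∃ x y, l[i]? = some x ∧ l[j]? = some y ∧
        tb K (32 * x + y) = true ∧ tb M (32 * x + y) = tb A (32 * i + j)
  | 0, a, prev, s, s', _, hl, hlt, hp => by
    refine ⟨prev.reverse, by simp [hl], by simpa using hlt, fun i hi j hj => ?_⟩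
    exact hp i (by simpa using hi) j hj
  | m + 1, a, prev, s, s', h, hl, hlt, hp => by
    rw [emb] at h
    cases hrow : okRow (Nat.shiftRight M (32 * (s % 32))) (Nat.shiftRight K (32 * (s % 32)))
        (Nat.shiftRight A (32 * a)) prev a with
    | false => rw [hrow] at h; simp at h
    | true =>
      rw [hrow] at h
      simp only [cond_true] at h
      have key := emb_spec m (a + 1) ((s % 32) :: prev) (s / 32) s' h (by simp [hl])
        (by
          intro y hy
          rcases List.mem_cons.1 hy with rfl | hy
          · exact Nat.mod_lt _ (by norm_num)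
          · exact hlt y hy) ?_
      · obtain ⟨l, h1, h2, h3⟩ := key
        exact ⟨l, by omega, h2, fun i hi j hj => h3 i (by omega) j hj⟩
      · intro i hi j hj
        by_cases hia : i = a
        · subst hia
          obtain ⟨y, hy1, hy2, hy3⟩ := okRow_spec prev i hl hrow j hj
          refine ⟨s % 32, y, ?_, ?_, ?_, ?_⟩
          · rw [List.reverse_cons, List.getElem?_append_right (by simp [hl])]
            simp [hl]
          · rw [List.reverse_cons, List.getElem?_append_left (by simp; omega), hy1]
          · rwa [tb_shift] at hy2
          · rw [tb_shift, tb_shift] at hy3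
            exact hy3
        · obtain ⟨x, y, hx, hy, h4, h5⟩ := hp i (by omega) j hj
          refine ⟨x, y, ?_, ?_, h4, h5⟩
          · rw [List.reverse_cons, List.getElem?_append_left (by simp; omega), hx]
          · rw [List.reverse_cons, List.getElem?_append_left (by simp; omega), hy]

theorem emb_sound {V : Type*} {G : SimpleGraph V} {σ : ℕ → V} {M K A m s s' : ℕ}
    (hA : Avoid G m A) (hc : Cons G M K σ) (h : emb M K A m 0 [] s = some s') : False := by
  obtain ⟨l, h1, h2, h3⟩ := emb_spec m 0 [] s s' h rfl (by simp) (by simp)
  simp only [zero_add] at h1 h3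
  refine hA (fun i => σ (l.getD i 0)) fun a ha b hb => ?_
  obtain ⟨x, y, hx, hy, h4, h5⟩ := h3 a ha b hb
  have e1 : l.getD a 0 = x := by simp [List.getD, hx]
  have e2 : l.getD b 0 = y := by simp [List.getD, hy]
  have x1 : x < 32 := h2 x (List.mem_of_getElem? hx)
  have y1 : y < 32 := h2 y (List.mem_of_getElem? hy)
  simp only [e1, e2]
  rw [← h5]
  exact hc x x1 y y1 h4

/-! ### decision trees -/

/-- all alternatives in the list are excluded by what is known -/
def altsAux (n M K : ℕ) : List (ℕ × ℕ) → Bool
  | [] => true
  | p :: l =>
    (cond (tb K (32 * n + p.1)) (!tb M (32 * n + p.1)) false ||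
      cond (tb K (32 * n + p.2)) (tb M (32 * n + p.2)) false) && altsAux n M K l

/-- the (nonempty) list of alternatives of a rule is excluded by what is known -/
def altsFalse (n M K : ℕ) : List (ℕ × ℕ) → Bool
  | [] => false
  | p :: l => altsAux n M K (p :: l)

/-- run a decision tree coded in the stream `s`.  Tokens: `t < n`: branch on the adjacency of
`n` and `t`; `31`: an embedded forbidden graph; `30`: the rule fails; anything else: the row of
`n` is completely known and is one of the accepted masks. -/
def run (F : List (ℕ × ℕ)) (n : ℕ) (alts : List (ℕ × ℕ)) (acc : List ℕ) :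
    ℕ → ℕ → ℕ → ℕ → Option ℕ :=
  fun fuel => Nat.rec (fun _ _ _ => none)
    (fun _ ih M K s =>
      cond (Nat.ble (s % 32 + 1) n)
        (cond (tb K (32 * n + s % 32)) none
          (match ih M (Nat.lor K (Nat.lor (2 ^ (32 * n + s % 32)) (2 ^ (32 * (s % 32) + n))))
              (s / 32) with
          | none => none
          | some s' =>
            ih (Nat.lor M (Nat.lor (2 ^ (32 * n + s % 32)) (2 ^ (32 * (s % 32) + n))))
              (Nat.lor K (Nat.lor (2 ^ (32 * n + s % 32)) (2 ^ (32 * (s % 32) + n)))) s'))
        (cond (Nat.beq (s % 32) 31)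
          (match F[(s / 32) % 32]? with
          | none => none
          | some p => emb M K p.2 p.1 0 [] (s / 32 / 32))
          (cond (Nat.beq (s % 32) 30)
            (cond (altsFalse n M K alts) (some (s / 32)) none)
            (match acc[(s / 32) % 1024]? with
            | none => none
            | some m =>
              cond (Nat.beq (Nat.shiftRight K (32 * n)) (2 ^ n - 1) &&
                Nat.beq (Nat.shiftRight M (32 * n)) m) (some (s / 32 / 1024)) none))))
    fuel

section

variable {V : Type*}

/-- the guarantee of a rule for the new vertex `σ n` -/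
def Guar (G : SimpleGraph V) (n : ℕ) (alts : List (ℕ × ℕ)) (σ : ℕ → V) : Prop :=
  ∃ p ∈ alts, p.1 < 32 ∧ p.2 < 32 ∧ G.Adj (σ n) (σ p.1) ∧ ¬ G.Adj (σ n) (σ p.2)

theorem altsAux_sound {G : SimpleGraph V} {σ : ℕ → V} {n M K : ℕ} (hn : n < 32)
    (hc : Cons G M K σ) : ∀ alts : List (ℕ × ℕ), altsAux n M K alts = true →
    ¬ Guar G n alts σ
  | [], _, ⟨p, hp, _⟩ => by simp at hp
  | q :: l, h, ⟨p, hp, hp1, hp2, ha, hb⟩ => by
    simp only [altsAux, Bool.and_eq_true, Bool.or_eq_true] at h
    rcases List.mem_cons.1 hp with rfl | hp
    · rcases h.1 with h1 | h1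
      · cases hk : tb K (32 * n + p.1) with
        | false => simp [hk] at h1
        | true =>
          simp only [hk, cond_true, Bool.not_eq_true'] at h1
          have := (hc n hn _ hp1 hk).2.1 ha
          simp [h1] at this
      · cases hk : tb K (32 * n + p.2) with
        | false => simp [hk] at h1
        | true =>
          simp only [hk, cond_true] at h1
          exact hb ((hc n hn _ hp2 hk).2.2 h1)
    · exact altsAux_sound hn hc l h.2 ⟨p, hp, hp1, hp2, ha, hb⟩

theorem altsFalse_sound {G : SimpleGraph V} {σ : ℕ → V} {n M K : ℕ} (hn : n < 32)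
    (hc : Cons G M K σ) {alts : List (ℕ × ℕ)} (h : altsFalse n M K alts = true) 
    (hg : alts = [] ∨ Guar G n alts σ) : False := by
  cases alts with
  | nil => simp [altsFalse] at h
  | cons p l =>
    rcases hg with hg | hg
    · simp at hg
    · exact altsAux_sound hn hc _ h hg

theorem run_succ (F : List (ℕ × ℕ)) (n : ℕ) (alts : List (ℕ × ℕ)) (acc : List ℕ)
    (fuel M K s : ℕ) : run F n alts acc (fuel + 1) M K s =
      cond (Nat.ble (s % 32 + 1) n)
        (cond (tb K (32 * n + s % 32)) none
          (match run F n alts acc fuel M
              (Nat.lor K (Nat.lor (2 ^ (32 * n + s % 32)) (2 ^ (32 * (s % 32) + n))))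
              (s / 32) with
          | none => none
          | some s' =>
            run F n alts acc fuel
              (Nat.lor M (Nat.lor (2 ^ (32 * n + s % 32)) (2 ^ (32 * (s % 32) + n))))
              (Nat.lor K (Nat.lor (2 ^ (32 * n + s % 32)) (2 ^ (32 * (s % 32) + n)))) s'))
        (cond (Nat.beq (s % 32) 31)
          (match F[(s / 32) % 32]? with
          | none => none
          | some p => emb M K p.2 p.1 0 [] (s / 32 / 32))
          (cond (Nat.beq (s % 32) 30)
            (cond (altsFalse n M K alts) (some (s / 32)) none)
            (match acc[(s / 32) % 1024]? with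
            | none => none
            | some m =>
              cond (Nat.beq (Nat.shiftRight K (32 * n)) (2 ^ n - 1) &&
                Nat.beq (Nat.shiftRight M (32 * n)) m) (some (s / 32 / 1024)) none))) := rfl

theorem run_sound {G : SimpleGraph V} {σ : ℕ → V} {F : List (ℕ × ℕ)} {n : ℕ}
    {alts : List (ℕ × ℕ)} {acc : List ℕ} (hn : n < 32)
    (hF : ∀ p ∈ F, Avoid G p.1 p.2) (hw : ∀ t < n, σ n ≠ σ t)
    (hg : alts = [] ∨ Guar G n alts σ) :
    ∀ (fuel M K s s' : ℕ), run F n alts acc fuel M K s = some s' → Cons G M K σ → Inv M K →
      ∃ m ∈ acc, ∀ t < n, G.Adj (σ n) (σ t) ↔ tb m t = true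
  | 0, M, K, s, s', h, _, _ => by
    exact absurd h (by simp [run])
  | fuel + 1, M, K, s, s', h, hc, hi => by
    rw [run_succ] at h
    cases h1 : Nat.ble (s % 32 + 1) n with
    | true =>
      rw [h1, cond_true] at h
      have ht : s % 32 < n := by
        have := Nat.le_of_ble_eq_true h1
        omega
      set t := s % 32 with ht'
      cases h2 : tb K (32 * n + t) with
      | true => rw [h2] at h; simp at h
      | false =>
        rw [h2, cond_false] at h
        have hM : tb M (32 * n + t) = false := hi _ h2
        -- bits of the updates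
        have hb : ∀ i, tb (Nat.lor (2 ^ (32 * n + t)) (2 ^ (32 * t + n))) i =
            (decide (32 * n + t = i) || decide (32 * t + n = i)) := by
          intro i
          have : Nat.lor (2 ^ (32 * n + t)) (2 ^ (32 * t + n)) =
            2 ^ (32 * n + t) ||| 2 ^ (32 * t + n) := rfl
          rw [this, tb_or, tb_pow, tb_pow]
        have hK : ∀ i, tb (Nat.lor K (Nat.lor (2 ^ (32 * n + t)) (2 ^ (32 * t + n)))) i =
            (tb K i || (decide (32 * n + t = i) || decide (32 * t + n = i))) := by
          intro i
          have e : Nat.lor K (Nat.lor (2 ^ (32 * n + t)) (2 ^ (32 * t + n))) =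
            K ||| (Nat.lor (2 ^ (32 * n + t)) (2 ^ (32 * t + n))) := rfl
          rw [e, tb_or, hb]
        have hM' : ∀ i, tb (Nat.lor M (Nat.lor (2 ^ (32 * n + t)) (2 ^ (32 * t + n)))) i =
            (tb M i || (decide (32 * n + t = i) || decide (32 * t + n = i))) := by
          intro i
          have e : Nat.lor M (Nat.lor (2 ^ (32 * n + t)) (2 ^ (32 * t + n))) =
            M ||| (Nat.lor (2 ^ (32 * n + t)) (2 ^ (32 * t + n))) := rfl
          rw [e, tb_or, hb]
        have hM2 : tb M (32 * t + n) = true → tb K (32 * t + n) = true := by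
          intro hx
          by_contra hy
          rw [hi _ (by simpa using hy)] at hx
          simp at hx
        have ht32 : t < 32 := by omega
        by_cases hadj : G.Adj (σ n) (σ t)
        · -- adjacent: second call
          split at h
          · simp at h
          · rename_i s1 hs1
            refine run_sound hn hF hw hg fuel _ _ _ _ h ?_ ?_
            · intro a ha b hb' hk
              rw [hK] at hk
              rw [hM']
              simp only [Bool.or_eq_true, decide_eq_true_eq] at hk ⊢
              rcases hk with hk | hk | hk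
              · obtain ⟨c1, c2⟩ := hc a ha b hb' hk
                refine ⟨c1, c2.trans ⟨fun x => Or.inl x, ?_⟩⟩
                rintro (x | x | x)
                · exact x
                · obtain ⟨rfl, rfl⟩ : n = a ∧ t = b := by omega
                  exact c2.1 hadj
                · obtain ⟨rfl, rfl⟩ : t = a ∧ n = b := by omega
                  exact c2.1 hadj.symm
              · obtain ⟨rfl, rfl⟩ : n = a ∧ t = b := by omega
                exact ⟨hw _ ht, fun _ => Or.inr (Or.inl rfl), fun _ => hadj⟩
              · obtain ⟨rfl, rfl⟩ : t = a ∧ n = b := by omega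
                exact ⟨(hw _ ht).symm, fun _ => Or.inr (Or.inr rfl), fun _ => hadj.symm⟩
            · intro i hk
              rw [hK] at hk
              rw [hM']
              simp only [Bool.or_eq_false_iff] at hk ⊢
              exact ⟨hi i hk.1, hk.2⟩
        · -- not adjacent: first call
          split at h
          · simp at h
          · rename_i s1 hs1
            refine run_sound hn hF hw hg fuel _ _ _ _ hs1 ?_ ?_
            · intro a ha b hb' hk
              rw [hK] at hk
              simp only [Bool.or_eq_true, decide_eq_true_eq] at hk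
              rcases hk with hk | hk | hk
              · exact hc a ha b hb' hk
              · obtain ⟨rfl, rfl⟩ : n = a ∧ t = b := by omega
                refine ⟨hw _ ht, fun x => absurd x hadj, fun x => ?_⟩
                rw [hM] at x
                simp at x
              · obtain ⟨rfl, rfl⟩ : t = a ∧ n = b := by omega
                refine ⟨(hw _ ht).symm, fun x => absurd x.symm hadj, fun x => ?_⟩
                exact (hc _ ha _ hb' (hM2 x)).2.2 x
            · intro i hk
              rw [hK] at hk
              simp only [Bool.or_eq_false_iff] at hk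
              exact hi i hk.1
    | false =>
      rw [h1, cond_false] at h
      cases h2 : Nat.beq (s % 32) 31 with
      | true =>
        rw [h2, cond_true] at h
        split at h
        · simp at h
        · rename_i p hp
          exact (emb_sound (hF p (List.mem_of_getElem? hp)) hc h).elim
      | false =>
        rw [h2, cond_false] at h
        cases h3 : Nat.beq (s % 32) 30 with
        | true =>
          rw [h3, cond_true] at h
          cases h4 : altsFalse n M K alts with
          | true => exact (altsFalse_sound hn hc h4 hg).elim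
          | false => rw [h4] at h; simp at h
        | false =>
          rw [h3, cond_false] at h
          split at h
          · simp at h
          · rename_i m hm
            cases h4 : (Nat.beq (Nat.shiftRight K (32 * n)) (2 ^ n - 1) &&
                Nat.beq (Nat.shiftRight M (32 * n)) m) with
            | false => rw [h4] at h; simp at h
            | true =>
              rw [Bool.and_eq_true] at h4
              obtain ⟨h5, h6⟩ := h4
              have h5 := Nat.eq_of_beq_eq_true h5
              have h6 := Nat.eq_of_beq_eq_true h6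
              refine ⟨m, List.mem_of_getElem? hm, fun t ht => ?_⟩
              have hk : tb K (32 * n + t) = true := by
                rw [← tb_shift, h5, tb_eq, Nat.testBit_two_pow_sub_one]
                simpa using ht
              rw [← h6, tb_shift]
              exact (hc n hn t (by omega) hk).2

end

end Pool.Agent.Helper76
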