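import Mathlib

/-!
Inputs of COLOURING, their binary code, and the two forbidden induced subgraphs.
-/

namespace Pool.Agent.Helper76

open SimpleGraph Computability

/-- An input of COLOURING: a graph `G` with the vertices `0, ..., n - 1` and a number `k` of
colours. -/
structure ColInst where
  n : ℕ
  G : SimpleGraph (Fin n)
  k : ℕ

/-- The binary code of an input: `n` ones, a zero, the rows of the adjacency matrix one after the
other, and `k` in binary. -/
noncomputable def ColInst.code (x : ColInst) : List Bool := by
  classical exact List.replicate x.n true ++ false ::
    (((List.finRange x.n).map fun i => (List.finRange x.n).map fun j =>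
      decide (x.G.Adj i j)).flatten ++ encodeNat x.k)

/-- the diamond: the complete graph on four vertices without the edge between 2 and 3 -/
def diamond : SimpleGraph (Fin 4) := (⊤ : SimpleGraph (Fin 4)).deleteEdges {s(2, 3)}

/-- the disjoint union of a path with one vertex and a path with five vertices -/
def P1P5 : SimpleGraph (Fin 1 ⊕ Fin 5) := pathGraph 1 ⊕g pathGraph 5

end Pool.Agent.Helper76
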