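import Mathlib

/-!
Vertex-critical graphs: basic facts used by the certificate checker.
Colourings are functions to the naturals with values below `k` on a set of vertices.
-/

namespace Pool.Agent.Helper76

open SimpleGraph

variable {V : Type*}

/-- the vertices of `S` can be coloured with colours `< k` -/
def ColOn (G : SimpleGraph V) (k : ℕ) (S : Set V) : Prop :=
  ∃ c : V → ℕ, (∀ v ∈ S, c v < k) ∧ ∀ u ∈ S, ∀ v ∈ S, G.Adj u v → c u ≠ c v

theorem ColOn.mono {G : SimpleGraph V} {k : ℕ} {S T : Set V} (h : ColOn G k T) (hST : S ⊆ T) :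
    ColOn G k S := by
  obtain ⟨c, h1, h2⟩ := h
  exact ⟨c, fun v hv => h1 v (hST hv), fun u hu v hv => h2 u (hST hu) v (hST hv)⟩

theorem colOn_univ_iff {G : SimpleGraph V} {k : ℕ} : ColOn G k Set.univ ↔ G.Colorable k := by
  constructor
  · rintro ⟨c, h1, h2⟩
    refine ⟨Coloring.mk (fun v => (⟨c v, h1 v trivial⟩ : Fin k)) ?_⟩
    intro u v huv h
    exact h2 u trivial v trivial huv (by simpa using congrArg Fin.val h)
  · rintro ⟨c⟩
    refine ⟨fun v => (c v : ℕ), fun v _ => (c v).2, fun u _ v _ huv h => ?_⟩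
    exact c.valid huv (Fin.ext h)

theorem colOn_induce_iff {G : SimpleGraph V} {k : ℕ} {S : Set V} :
    (G.induce S).Colorable k ↔ ColOn G k S := by
  classical
  constructor
  · rintro ⟨c⟩
    refine ⟨fun v => if h : v ∈ S then (c ⟨v, h⟩ : ℕ) else 0, ?_, ?_⟩
    · intro v hv
      simp [hv]
    · intro u hu v hv huv h
      simp only [hu, hv, dif_pos] at h
      exact c.valid (v := ⟨u, hu⟩) (w := ⟨v, hv⟩) huv (Fin.ext h)
  · rintro ⟨c, h1, h2⟩
    refine ⟨Coloring.mk (fun v => (⟨c v, h1 v v.2⟩ : Fin k)) ?_⟩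
    intro u v huv h
    exact h2 u u.2 v v.2 huv (by simpa using congrArg Fin.val h)

/-- `G` is not `k`-colourable, but all its vertex-deleted subgraphs are -/
structure Crit (G : SimpleGraph V) (k : ℕ) : Prop where
  nc : ¬ ColOn G k Set.univ
  cr : ∀ v, ColOn G k {v}ᶜ

theorem Crit.sub {G : SimpleGraph V} {k : ℕ} (h : Crit G k) {S : Set V} (hS : S ≠ Set.univ) :
    ColOn G k S := by
  obtain ⟨v, hv⟩ := (Set.ne_univ_iff_exists_notMem S).1 hS
  exact (h.cr v).mono fun x hx => by
    simp only [Set.mem_compl_iff, Set.mem_singleton_iff]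
    rintro rfl
    exact hv hx

/-- a graph that is not `k`-colourable has a critical induced subgraph -/
theorem exists_crit [Finite V] {G : SimpleGraph V} {k : ℕ} (h : ¬ G.Colorable k) :
    ∃ S : Set V, Crit (G.induce S) k := by
  classical
  obtain ⟨S, hS, hmin⟩ : ∃ S : Set V, ¬ ColOn G k S ∧ ∀ T : Set V, ¬ ColOn G k T →
      S.ncard ≤ T.ncard := by
    have hne : {n : ℕ | ∃ S : Set V, ¬ ColOn G k S ∧ S.ncard = n}.Nonempty :=
      ⟨_, Set.univ, fun h' => h (colOn_univ_iff.1 h'), rfl⟩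
    obtain ⟨S, hS, hn⟩ := Nat.sInf_mem hne
    refine ⟨S, hS, fun T hT => ?_⟩
    rw [hn]
    exact Nat.sInf_le ⟨T, hT, rfl⟩
  refine ⟨S, ⟨?_, ?_⟩⟩
  · rw [colOn_univ_iff, colOn_induce_iff]
    exact hS
  · intro v
    have h1 : ColOn G k (S \ {(v : V)}) := by
      by_contra h2
      have h3 := hmin _ h2
      have h4 := Set.ncard_diff_singleton_lt_of_mem v.2 (Set.toFinite S)
      omega
    obtain ⟨c, c1, c2⟩ := h1
    refine ⟨fun x => c x, ?_, ?_⟩
    · intro x hx
      refine c1 x ⟨x.2, fun hxv => hx ?_⟩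
      exact Subtype.ext hxv
    · intro x hx y hy hxy
      refine c2 x ⟨x.2, fun hxv => hx (Subtype.ext hxv)⟩ y ⟨y.2, fun hyv => hy (Subtype.ext hyv)⟩ hxy

/-- folding rule -/
theorem Crit.fold {G : SimpleGraph V} {k : ℕ} (h : Crit G k) (A : Set V) (φ : V → V)
    (hne : A.Nonempty) (hA : ∀ a ∈ A, φ a ∉ A)
    (hom : ∀ a ∈ A, ∀ b ∈ A, G.Adj a b → G.Adj (φ a) (φ b)) :
    ∃ a ∈ A, ∃ w, w ∉ A ∧ G.Adj a w ∧ ¬ G.Adj (φ a) w := by
  classical
  by_contra hcon
  push Not at hcon
  have hAc : Aᶜ ≠ Set.univ := by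
    intro h1
    obtain ⟨a, ha⟩ := hne
    have : a ∈ Aᶜ := h1 ▸ trivial
    exact this ha
  obtain ⟨c, c1, c2⟩ := h.sub hAc
  refine h.nc ⟨fun x => if x ∈ A then c (φ x) else c x, ?_, ?_⟩
  · intro x _
    by_cases hx : x ∈ A
    · simpa [hx] using c1 _ (hA x hx)
    · simpa [hx] using c1 x hx
  · intro x _ y _ hxy
    by_cases hx : x ∈ A <;> by_cases hy : y ∈ A
    · simpa [hx, hy] using c2 _ (hA x hx) _ (hA y hy) (hom x hx y hy hxy)
    · simpa [hx, hy] using c2 _ (hA x hx) _ hy (hcon x hx y hy hxy)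
    · simpa [hx, hy] using c2 _ hx _ (hA y hy) (hcon y hy x hx hxy.symm).symm
    · simpa [hx, hy] using c2 _ hx _ hy hxy

/-- degree rule: a set with fewer than `k` vertices does not contain all neighbours -/
theorem Crit.degree {G : SimpleGraph V} {k : ℕ} (h : Crit G k) (v : V) (T : Finset V)
    (hT : T.card < k) : ∃ w, w ∉ T ∧ G.Adj v w := by
  classical
  by_contra hcon
  push Not at hcon
  obtain ⟨c, c1, c2⟩ := h.cr v
  obtain ⟨j, hj, hjT⟩ : ∃ j ∈ Finset.range k, j ∉ T.image c := by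
    by_contra h1
    push Not at h1
    have h2 := Finset.card_le_card (fun j hj => h1 j hj : Finset.range k ⊆ T.image c)
    have h3 := Finset.card_image_le (s := T) (f := c)
    rw [Finset.card_range] at h2
    omega
  refine h.nc ⟨fun x => if x = v then j else c x, ?_, ?_⟩
  · intro x _
    by_cases hx : x = v
    · simpa [hx] using hj
    · simpa [hx] using c1 x hx
  · intro x _ y _ hxy
    have key : ∀ z, G.Adj v z → j ≠ c z := by
      intro z hz hjz
      have : z ∈ T := by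
        by_contra hzT
        exact hcon z hzT hz
      exact hjT (Finset.mem_image.2 ⟨z, this, hjz.symm⟩)
    by_cases hx : x = v <;> by_cases hy : y = v
    · subst hx; subst hy; exact absurd hxy (G.loopless.irrefl _)
    · subst hx; simpa [hy] using key y hxy
    · subst hy; simpa [hx] using (key x hxy.symm).symm
    · simpa [hx, hy] using c2 x hx y hy hxy

/-- connectivity rule -/
theorem Crit.conn {G : SimpleGraph V} {k : ℕ} (h : Crit G k) (C : Set V)
    (hne : C.Nonempty) (hC : C ≠ Set.univ) : ∃ c ∈ C, ∃ w, w ∉ C ∧ G.Adj c w := by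
  classical
  by_contra hcon
  push Not at hcon
  obtain ⟨c, c1, c2⟩ := h.sub hC
  have hCc : Cᶜ ≠ Set.univ := by
    intro h1
    obtain ⟨a, ha⟩ := hne
    have : a ∈ Cᶜ := h1 ▸ trivial
    exact this ha
  obtain ⟨d, d1, d2⟩ := h.sub hCc
  refine h.nc ⟨fun x => if x ∈ C then c x else d x, ?_, ?_⟩
  · intro x _
    by_cases hx : x ∈ C
    · simpa [hx] using c1 x hx
    · simpa [hx] using d1 x hx
  · intro x _ y _ hxy
    by_cases hx : x ∈ C <;> by_cases hy : y ∈ C
    · simpa [hx, hy] using c2 _ hx _ hy hxy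
    · exact absurd hxy (hcon x hx y hy)
    · exact absurd hxy.symm (hcon y hy x hx)
    · simpa [hx, hy] using d2 _ hx _ hy hxy

end Pool.Agent.Helper76
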