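import Pool.Agent.Helper76.Crit

/-!
In a diamond-free graph without cliques of size `r + 1` and without three pairwise disjoint
cliques of size `r`, some independent set meets all cliques of size `r`.
-/

namespace Pool.Agent.Helper76

open SimpleGraph

variable {V : Type*} {G : SimpleGraph V}

/-- diamond-free, in elementary form -/
def DF (G : SimpleGraph V) : Prop := ∀ a b c d, G.Adj a b → G.Adj a c → G.Adj b c →
  G.Adj a d → G.Adj b d → c ≠ d → G.Adj c d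

/-- `Q` is a clique with `r` vertices -/
def QC (G : SimpleGraph V) (r : ℕ) (Q : Finset V) : Prop :=
  Q.card = r ∧ ∀ a ∈ Q, ∀ b ∈ Q, a ≠ b → G.Adj a b

/-- no clique with `r` vertices -/
def NoQC (G : SimpleGraph V) (r : ℕ) : Prop := ∀ Q : Finset V, ¬ QC G r Q

theorem F1 {r : ℕ} (hdf : DF G) (hno : NoQC G (r + 1)) {Q : Finset V} (hQ : QC G r Q)
    {v : V} (hv : v ∉ Q) {a b : V} (ha : a ∈ Q) (hb : b ∈ Q) (hva : G.Adj v a)
    (hvb : G.Adj v b) : a = b := by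
  classical
  by_contra hab
  have hex : ∃ c ∈ Q, ¬ G.Adj v c := by
    by_contra hcon
    push Not at hcon
    refine hno (insert v Q) ⟨by rw [Finset.card_insert_of_notMem hv, hQ.1], ?_⟩
    intro x hx y hy hxy
    rw [Finset.mem_insert] at hx hy
    rcases hx with h1 | h1 <;> rcases hy with h2 | h2
    · exact absurd (h1.trans h2.symm) hxy
    · rw [h1]; exact hcon y h2
    · rw [h2]; exact (hcon x h1).symm
    · exact hQ.2 x h1 y h2 hxy
  obtain ⟨c, hc, hvc⟩ := hex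
  have hac : a ≠ c := by rintro rfl; exact hvc hva
  have hbc : b ≠ c := by rintro rfl; exact hvc hvb
  have hvc' : v ≠ c := by rintro rfl; exact hv hc
  exact hvc (hdf a b v c (hQ.2 a ha b hb hab) hva.symm hvb.symm (hQ.2 a ha c hc hac)
    (hQ.2 b hb c hc hbc) hvc')

theorem F2 {r : ℕ} (hdf : DF G) (hno : NoQC G (r + 1)) {Q Q' : Finset V} (hQ : QC G r Q)
    (hQ' : QC G r Q') {x y : V} (hxy : x ≠ y) (hx : x ∈ Q) (hy : y ∈ Q) (hx' : x ∈ Q')
    (hy' : y ∈ Q') : Q = Q' := by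
  classical
  by_contra hne
  have hsub : ¬ Q' ⊆ Q := by
    intro h
    exact hne (Finset.eq_of_subset_of_card_le h (by rw [hQ.1, hQ'.1])).symm
  obtain ⟨z, hz', hz⟩ := Finset.not_subset.1 hsub
  have hzx : z ≠ x := by rintro rfl; exact hz hx
  have hzy : z ≠ y := by rintro rfl; exact hz hy
  exact hxy (F1 hdf hno hQ hz hx hy (hQ'.2 z hz' x hx' hzx) (hQ'.2 z hz' y hy' hzy))

/-- two cliques that meet `K` in different vertices are disjoint -/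
theorem meetLemma {r : ℕ} (hdf : DF G) (hno : NoQC G (r + 1)) {K Q Q' : Finset V}
    (hK : QC G r K) (hQ : QC G r Q) (hQ' : QC G r Q') (hQK : Q ≠ K) (hQK' : Q' ≠ K) {x x' : V}
    (hx : x ∈ Q) (hxK : x ∈ K) (hx' : x' ∈ Q') (hxK' : x' ∈ K) (hne : x ≠ x') :
    Disjoint Q Q' := by
  classical
  rw [Finset.disjoint_left]
  intro z hz hz'
  by_cases hzK : z ∈ K
  · have h1 : z = x := by
      by_contra h
      exact hQK (F2 hdf hno hQ hK h hz hx hzK hxK)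
    have h2 : z = x' := by
      by_contra h
      exact hQK' (F2 hdf hno hQ' hK h hz' hx' hzK hxK')
    exact hne (h1.symm.trans h2)
  · have hzx : z ≠ x := by rintro rfl; exact hzK hxK
    have hzx' : z ≠ x' := by rintro rfl; exact hzK hxK'
    exact hne (F1 hdf hno hK hzK hxK hxK' (hQ.2 z hz x hx hzx) (hQ'.2 z hz' x' hx' hzx'))

/-- an element of `L` avoiding a small set -/
theorem exists_avoid {L T : Finset V} (h : T.card < L.card) : ∃ x ∈ L, x ∉ T := by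
  by_contra hcon
  push Not at hcon
  exact absurd (Finset.card_le_card hcon) (by omega)

open Classical in
/-- neighbours in a clique -/
noncomputable def nb (G : SimpleGraph V) (L : Finset V) (v : V) : Finset V :=
  L.filter fun x => G.Adj v x

theorem mem_nb {L : Finset V} {v x : V} : x ∈ nb G L v ↔ x ∈ L ∧ G.Adj v x := by
  classical
  simp [nb]

theorem nb_card {r : ℕ} (hdf : DF G) (hno : NoQC G (r + 1)) {L : Finset V} (hL : QC G r L)
    {v : V} (hv : v ∉ L) : (nb G L v).card ≤ 1 := by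
  classical
  rw [Finset.card_le_one]
  intro a ha b hb
  rw [mem_nb] at ha hb
  exact F1 hdf hno hL hv ha.1 hb.1 ha.2 hb.2

/-- independent set meeting all `r`-cliques -/
def Hit (G : SimpleGraph V) (r : ℕ) : Prop :=
  ∃ I : Set V, (∀ u ∈ I, ∀ v ∈ I, ¬ G.Adj u v) ∧ ∀ Q : Finset V, QC G r Q → ∃ x ∈ Q, x ∈ I

theorem hit_of_inter {r : ℕ} (hr : 3 ≤ r) (hdf : DF G) (hno : NoQC G (r + 1)) (x : V)
    (h : ∀ Q Q' : Finset V, QC G r Q → QC G r Q' → x ∉ Q → x ∉ Q' → ¬ Disjoint Q Q') :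
    Hit G r := by
  classical
  -- a common vertex
  obtain ⟨y, hy⟩ : ∃ y : V, ∀ Q Q' : Finset V, QC G r Q → QC G r Q' → x ∉ Q → x ∉ Q' → Q ≠ Q' →
      y ∈ Q := by
    by_cases h2 : ∃ Q Q' : Finset V, QC G r Q ∧ QC G r Q' ∧ x ∉ Q ∧ x ∉ Q' ∧ Q ≠ Q'
    · obtain ⟨Q1, Q2, h1, h2, hx1, hx2, hne⟩ := h2
      obtain ⟨y, hy1, hy2⟩ := Finset.not_disjoint_iff.1 (h Q1 Q2 h1 h2 hx1 hx2)
      refine ⟨y, fun Q Q' hQ hQ' hxQ hxQ' hQQ' => ?_⟩
      by_contra hyQ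
      have hQ1 : Q ≠ Q1 := by rintro rfl; exact hyQ hy1
      have hQ2 : Q ≠ Q2 := by rintro rfl; exact hyQ hy2
      obtain ⟨a, ha, ha1⟩ := Finset.not_disjoint_iff.1 (h Q Q1 hQ h1 hxQ hx1)
      obtain ⟨b, hb, hb2⟩ := Finset.not_disjoint_iff.1 (h Q Q2 hQ h2 hxQ hx2)
      have hya : y ≠ a := by rintro rfl; exact hyQ ha
      have hyb : y ≠ b := by rintro rfl; exact hyQ hb
      have hab : a = b := F1 hdf hno hQ hyQ ha hb (h1.2 y hy1 a ha1 hya) (h2.2 y hy2 b hb2 hyb)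
      subst hab
      exact hne (F2 hdf hno h1 h2 hya hy1 ha1 hy2 hb2)
    · push Not at h2
      refine ⟨x, fun Q Q' hQ hQ' hxQ hxQ' hQQ' => ?_⟩
      exact absurd (h2 Q Q' hQ hQ' hxQ hxQ') hQQ'
  -- representatives
  have hs : ∀ Q : Finset V, QC G r Q → x ∉ Q → ∃ s ∈ Q, s ≠ y ∧ ¬ G.Adj x s := by
    intro Q hQ hxQ
    obtain ⟨s, hs, hs'⟩ := exists_avoid (L := Q) (T := insert y (nb G Q x)) (by
      have h1 := Finset.card_insert_le y (nb G Q x)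
      have h2 := nb_card hdf hno hQ hxQ
      rw [hQ.1]; omega)
    refine ⟨s, hs, ?_, ?_⟩
    · rintro rfl; exact hs' (Finset.mem_insert_self _ _)
    · intro hadj
      exact hs' (Finset.mem_insert_of_mem (mem_nb.2 ⟨hs, hadj⟩))
  choose s hs1 hs2 hs3 using hs
  refine ⟨{v | v = x ∨ ∃ (Q : Finset V) (hQ : QC G r Q) (hx : x ∉ Q), v = s Q hQ hx}, ?_, ?_⟩
  · rintro u (rfl | ⟨Q, hQ, hx, rfl⟩) v (rfl | ⟨Q', hQ', hx', rfl⟩)
    · exact G.loopless.irrefl _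
    · exact hs3 _ _ _
    · exact fun hadj => hs3 _ _ _ hadj.symm
    · by_cases hQQ : Q = Q'
      · subst hQQ; exact G.loopless.irrefl _
      · intro hadj
        have hy1 := hy Q Q' hQ hQ' hx hx' hQQ
        have hy2 := hy Q' Q hQ' hQ hx' hx (Ne.symm hQQ)
        -- `s Q'` is adjacent to `s Q` and to `y`
        have hnot : s Q' hQ' hx' ∉ Q := by
          intro hmem
          exact hQQ (F2 hdf hno hQ hQ' (hs2 Q' hQ' hx') hmem hy1 (hs1 Q' hQ' hx') hy2)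
        exact hs2 Q hQ hx (F1 hdf hno hQ hnot (hs1 Q hQ hx) hy1 hadj.symm
          (hQ'.2 _ (hs1 Q' hQ' hx') _ hy2 (hs2 Q' hQ' hx')))
  · intro Q hQ
    by_cases hx : x ∈ Q
    · exact ⟨x, hx, Or.inl rfl⟩
    · exact ⟨s Q hQ hx, hs1 Q hQ hx, Or.inr ⟨Q, hQ, hx, rfl⟩⟩

theorem hit_of_no_three {r : ℕ} (hr : 3 ≤ r) (hdf : DF G) (hno : NoQC G (r + 1))
    (h3 : ∀ A B C : Finset V, QC G r A → QC G r B → QC G r C → Disjoint A B → Disjoint A C →
      Disjoint B C → False) : Hit G r := by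
  classical
  by_cases hex : ∃ K, QC G r K
  swap
  · push Not at hex
    exact ⟨∅, by simp, fun Q hQ => absurd hQ (hex Q)⟩
  obtain ⟨K, hK⟩ := hex
  by_contra hcon
  have hfail : ∀ x : V, ∃ Q Q' : Finset V, QC G r Q ∧ QC G r Q' ∧ x ∉ Q ∧ x ∉ Q' ∧
      Disjoint Q Q' := by
    intro x
    by_contra h
    push Not at h
    exact hcon (hit_of_inter hr hdf hno x fun Q Q' hQ hQ' h1 h2 => h Q Q' hQ hQ' h1 h2)
  have hKne : K.Nonempty := by
    rw [← Finset.card_pos, hK.1]; omega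
  -- given a clique through `x` in `K`
  have hB : ∀ (x : V) (Qx : Finset V), x ∈ K → QC G r Qx → Qx ≠ K → x ∈ Qx →
      ∃ Q D y, QC G r Q ∧ QC G r D ∧ Q ≠ K ∧ y ∈ Q ∧ y ∈ K ∧ y ≠ x ∧ Disjoint K D ∧
        Disjoint Q D := by
    intro x Qx hx hQx hQxK hxQx
    obtain ⟨Q, Q', hQ, hQ', hxQ, hxQ', hd⟩ := hfail x
    have hQK : Q ≠ K := by rintro rfl; exact hxQ hx
    have hQK' : Q' ≠ K := by rintro rfl; exact hxQ' hx
    by_cases h1 : Disjoint K Q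
    · by_cases h2 : Disjoint K Q'
      · exact (h3 K Q Q' hK hQ hQ' h1 h2 hd).elim
      · obtain ⟨y, hyK, hyQ⟩ := Finset.not_disjoint_iff.1 h2
        exact ⟨Q', Q, y, hQ', hQ, hQK', hyQ, hyK, by rintro rfl; exact hxQ' hyQ, h1, hd.symm⟩
    · obtain ⟨y, hyK, hyQ⟩ := Finset.not_disjoint_iff.1 h1
      have hyx : y ≠ x := by rintro rfl; exact hxQ hyQ
      by_cases h2 : Disjoint K Q'
      · exact ⟨Q, Q', y, hQ, hQ', hQK, hyQ, hyK, hyx, h2, hd⟩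
      · obtain ⟨y', hyK', hyQ'⟩ := Finset.not_disjoint_iff.1 h2
        have hyx' : y' ≠ x := by rintro rfl; exact hxQ' hyQ'
        exact (h3 Qx Q Q' hQx hQ hQ'
          (meetLemma hdf hno hK hQx hQ hQxK hQK hxQx hx hyQ hyK hyx.symm)
          (meetLemma hdf hno hK hQx hQ' hQxK hQK' hxQx hx hyQ' hyK' hyx'.symm) hd).elim
  -- some clique meets `K`
  obtain ⟨x1, Q0, hx1K, hQ0, hQ0K, hx1Q0⟩ : ∃ (x1 : V) (Q0 : Finset V), x1 ∈ K ∧ QC G r Q0 ∧
      Q0 ≠ K ∧ x1 ∈ Q0 := by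
    obtain ⟨x, hx⟩ := hKne
    obtain ⟨Q, Q', hQ, hQ', hxQ, hxQ', hd⟩ := hfail x
    have hQK : Q ≠ K := by rintro rfl; exact hxQ hx
    have hQK' : Q' ≠ K := by rintro rfl; exact hxQ' hx
    by_cases h1 : Disjoint K Q
    · by_cases h2 : Disjoint K Q'
      · exact (h3 K Q Q' hK hQ hQ' h1 h2 hd).elim
      · obtain ⟨y, hyK, hyQ⟩ := Finset.not_disjoint_iff.1 h2
        exact ⟨y, Q', hyK, hQ', hQK', hyQ⟩
    · obtain ⟨y, hyK, hyQ⟩ := Finset.not_disjoint_iff.1 h1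
      exact ⟨y, Q, hyK, hQ, hQK, hyQ⟩
  obtain ⟨Q2, D, x2, hQ2, hD, hQ2K, hx2Q2, hx2K, hx21, hKD, hQ2D⟩ := hB x1 Q0 hx1K hQ0 hQ0K hx1Q0
  obtain ⟨Q1, D', x1', hQ1, hD', hQ1K, hx1Q1, hx1K', hx12, hKD', hQ1D'⟩ :=
    hB x2 Q2 hx2K hQ2 hQ2K hx2Q2
  have hx11 : x1' = x1 := by
    by_contra hne
    exact h3 Q0 Q2 Q1 hQ0 hQ2 hQ1
      (meetLemma hdf hno hK hQ0 hQ2 hQ0K hQ2K hx1Q0 hx1K hx2Q2 hx2K hx21.symm)
      (meetLemma hdf hno hK hQ0 hQ1 hQ0K hQ1K hx1Q0 hx1K hx1Q1 hx1K' (Ne.symm hne))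
      (meetLemma hdf hno hK hQ2 hQ1 hQ2K hQ1K hx2Q2 hx2K hx1Q1 hx1K' hx12.symm)
  subst hx11
  have hQ12 : Disjoint Q1 Q2 :=
    meetLemma hdf hno hK hQ1 hQ2 hQ1K hQ2K hx1Q1 hx1K hx2Q2 hx2K hx12
  obtain ⟨p, hpQ1, hpD⟩ : ∃ p, p ∈ Q1 ∧ p ∈ D := by
    apply Finset.not_disjoint_iff.1
    intro h
    exact h3 Q1 Q2 D hQ1 hQ2 hD hQ12 h hQ2D
  obtain ⟨q, hqQ2, hqD'⟩ : ∃ q, q ∈ Q2 ∧ q ∈ D' := by
    apply Finset.not_disjoint_iff.1
    intro h
    exact h3 Q1 Q2 D' hQ1 hQ2 hD' hQ12 hQ1D' h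
  obtain ⟨z, hzD, hzD'⟩ : ∃ z, z ∈ D ∧ z ∈ D' := by
    apply Finset.not_disjoint_iff.1
    intro h
    exact h3 K D D' hK hD hD' hKD hKD' h
  have hzQ1 : z ∉ Q1 := fun h => Finset.disjoint_left.1 hQ1D' h hzD'
  have hzQ2 : z ∉ Q2 := fun h => Finset.disjoint_left.1 hQ2D h hzD
  have hx1D : x1' ∉ D := fun h => Finset.disjoint_left.1 hKD hx1K h
  have hpK : p ∉ K := fun h => Finset.disjoint_left.1 hKD h hpD
  have hqK : q ∉ K := fun h => Finset.disjoint_left.1 hKD' h hqD'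
  have hpD' : p ∉ D' := fun h => Finset.disjoint_left.1 hQ1D' hpQ1 h
  have hqQ1 : q ∉ Q1 := fun h => Finset.disjoint_left.1 hQ12 h hqQ2
  have hqD : q ∉ D := fun h => Finset.disjoint_left.1 hQ2D hqQ2 h
  have hx1Q2 : x1' ∉ Q2 := fun h => Finset.disjoint_left.1 hQ12 hx1Q1 h
  have hx2Q1 : x2 ∉ Q1 := fun h => Finset.disjoint_left.1 hQ12 h hx2Q2
  have hpz : p ≠ z := by rintro rfl; exact hzQ1 hpQ1
  have hqz : q ≠ z := by rintro rfl; exact hzQ2 hqQ2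
  have hpx1 : p ≠ x1' := by rintro rfl; exact hpK hx1K
  have hqx2 : q ≠ x2 := by rintro rfl; exact hqK hx2K
  have hpq : p ≠ q := by rintro rfl; exact hqQ1 hpQ1
  have hx1z : ¬ G.Adj x1' z := by
    intro hadj
    exact hpx1 (F1 hdf hno hQ1 hzQ1 hpQ1 hx1Q1 (hD.2 z hzD p hpD hpz.symm) hadj.symm)
  obtain ⟨s, hs, hs'⟩ := exists_avoid (L := Q2) (T := nb G Q2 x1' ∪ nb G Q2 z) (by
    have h1 := Finset.card_union_le (nb G Q2 x1') (nb G Q2 z)
    have h2 := nb_card hdf hno hQ2 hx1Q2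
    have h4 := nb_card hdf hno hQ2 hzQ2
    rw [hQ2.1]; omega)
  have hsx : ¬ G.Adj x1' s := fun h => hs' (Finset.mem_union_left _ (mem_nb.2 ⟨hs, h⟩))
  have hsz : ¬ G.Adj z s := fun h => hs' (Finset.mem_union_right _ (mem_nb.2 ⟨hs, h⟩))
  apply hcon
  refine ⟨{x1', z, s}, ?_, ?_⟩
  · rintro u (rfl | rfl | rfl) v (rfl | rfl | rfl)
    · exact G.loopless.irrefl _
    · exact hx1z
    · exact hsx
    · exact fun h => hx1z h.symm
    · exact G.loopless.irrefl _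
    · exact hsz
    · exact fun h => hsx h.symm
    · exact fun h => hsz h.symm
    · exact G.loopless.irrefl _
  · intro Q hQ
    by_contra hno'
    push Not at hno'
    have hx1 : x1' ∉ Q := fun h => hno' _ h (Or.inl rfl)
    have hz : z ∉ Q := fun h => hno' _ h (Or.inr (Or.inl rfl))
    have hsQ : s ∉ Q := fun h => hno' _ h (Or.inr (Or.inr rfl))
    have hQneK : Q ≠ K := by rintro rfl; exact hx1 hx1K
    have hQneQ1 : Q ≠ Q1 := by rintro rfl; exact hx1 hx1Q1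
    have hQneQ2 : Q ≠ Q2 := by rintro rfl; exact hsQ hs
    have hQneD : Q ≠ D := by rintro rfl; exact hz hzD
    have hQneD' : Q ≠ D' := by rintro rfl; exact hz hzD'
    have hKQ1 : K ≠ Q1 := Ne.symm hQ1K
    have hKQ2 : K ≠ Q2 := Ne.symm hQ2K
    have hQ1D : Q1 ≠ D := by rintro rfl; exact hx1D hx1Q1
    have hDD' : D ≠ D' := by rintro rfl; exact hpD' hpD
    have hQ2D' : Q2 ≠ D' := by rintro rfl; exact Finset.disjoint_left.1 hKD' hx2K hx2Q2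
    -- used points
    have uK : ∀ y, y ∈ Q → y ∈ K → y = x2 := by
      intro y hyQ hyK
      by_contra hne
      have hne1 : y ≠ x1' := by rintro rfl; exact hx1 hyQ
      exact h3 Q Q1 Q2 hQ hQ1 hQ2
        (meetLemma hdf hno hK hQ hQ1 hQneK hQ1K hyQ hyK hx1Q1 hx1K hne1)
        (meetLemma hdf hno hK hQ hQ2 hQneK hQ2K hyQ hyK hx2Q2 hx2K hne) hQ12
    have uD : ∀ y, y ∈ Q → y ∈ D → y = p := by
      intro y hyQ hyD
      by_contra hne
      have hne1 : y ≠ z := by rintro rfl; exact hz hyQ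
      exact h3 Q Q1 D' hQ hQ1 hD'
        (meetLemma hdf hno hD hQ hQ1 hQneD hQ1D hyQ hyD hpQ1 hpD hne)
        (meetLemma hdf hno hD hQ hD' hQneD hDD'.symm hyQ hyD hzD' hzD hne1) hQ1D'
    have uD' : ∀ y, y ∈ Q → y ∈ D' → y = q := by
      intro y hyQ hyD
      by_contra hne
      have hne1 : y ≠ z := by rintro rfl; exact hz hyQ
      exact h3 Q Q2 D hQ hQ2 hD
        (meetLemma hdf hno hD' hQ hQ2 hQneD' hQ2D' hyQ hyD hqQ2 hqD' hne)
        (meetLemma hdf hno hD' hQ hD hQneD' hDD' hyQ hyD hzD hzD' hne1) hQ2D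
    have uQ1 : ∀ y, y ∈ Q → y ∈ Q1 → y = p := by
      intro y hyQ hyQ1
      by_contra hne
      have hne1 : y ≠ x1' := by rintro rfl; exact hx1 hyQ
      exact h3 Q K D hQ hK hD
        (meetLemma hdf hno hQ1 hQ hK hQneQ1 hKQ1 hyQ hyQ1 hx1K hx1Q1 hne1)
        (meetLemma hdf hno hQ1 hQ hD hQneQ1 hQ1D.symm hyQ hyQ1 hpD hpQ1 hne) hKD
    -- `Q` meets one clique of each disjoint pair
    have c1 : x2 ∈ Q ∨ p ∈ Q := by
      by_contra hc
      push Not at hc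
      refine h3 Q K D hQ hK hD ?_ ?_ hKD
      · rw [Finset.disjoint_left]; intro y h1 h2; exact hc.1 (uK y h1 h2 ▸ h1)
      · rw [Finset.disjoint_left]; intro y h1 h2; exact hc.2 (uD y h1 h2 ▸ h1)
    have c2 : x2 ∈ Q ∨ q ∈ Q := by
      by_contra hc
      push Not at hc
      refine h3 Q K D' hQ hK hD' ?_ ?_ hKD'
      · rw [Finset.disjoint_left]; intro y h1 h2; exact hc.1 (uK y h1 h2 ▸ h1)
      · rw [Finset.disjoint_left]; intro y h1 h2; exact hc.2 (uD' y h1 h2 ▸ h1)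
    have c3 : p ∈ Q ∨ q ∈ Q := by
      by_contra hc
      push Not at hc
      refine h3 Q Q1 D' hQ hQ1 hD' ?_ ?_ hQ1D'
      · rw [Finset.disjoint_left]; intro y h1 h2; exact hc.1 (uQ1 y h1 h2 ▸ h1)
      · rw [Finset.disjoint_left]; intro y h1 h2; exact hc.2 (uD' y h1 h2 ▸ h1)
    have n1 : ¬ (p ∈ Q ∧ q ∈ Q) := by
      rintro ⟨hp, hq⟩
      exact hqz (F1 hdf hno hD' hpD' hqD' hzD' (hQ.2 p hp q hq hpq) (hD.2 p hpD z hzD hpz))
    have n2 : ¬ (p ∈ Q ∧ x2 ∈ Q) := by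
      rintro ⟨hp, hx2⟩
      have hpx2 : p ≠ x2 := by rintro rfl; exact hpK hx2K
      exact hx12 (F1 hdf hno hK hpK hx1K hx2K (hQ1.2 p hpQ1 x1' hx1Q1 hpx1)
        (hQ.2 p hp x2 hx2 hpx2))
    have n3 : ¬ (q ∈ Q ∧ x2 ∈ Q) := by
      rintro ⟨hq, hx2⟩
      exact hQneQ2 (F2 hdf hno hQ hQ2 hqx2 hq hx2 hqQ2 hx2Q2)
    tauto

end Pool.Agent.Helper76
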