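import Pool.Agent.Helper76.Three

/-!
Critical (diamond, P1+P5)-free graphs with clique number `r ≥ 5` (critical for `r` colours) have
no three pairwise disjoint cliques of size `r`.
-/

namespace Pool.Agent.Helper76

open SimpleGraph

variable {V : Type*} {G : SimpleGraph V}

/-- (P1+P5)-free, in elementary form -/
def P15F (G : SimpleGraph V) : Prop := ∀ a b c d e q, G.Adj a b → G.Adj b c → G.Adj c d →
  G.Adj d e → ¬ G.Adj a c → ¬ G.Adj a d → ¬ G.Adj a e → ¬ G.Adj b d → ¬ G.Adj b e →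
  ¬ G.Adj c e → ¬ G.Adj q a → ¬ G.Adj q b → ¬ G.Adj q c → ¬ G.Adj q d → ¬ G.Adj q e → False

theorem claimA {r : ℕ} (hr : 5 ≤ r) (hdf : DF G) (hno : NoQC G (r + 1)) (hP : P15F G)
    {L N : Finset V} (hL : QC G r L) (hN : QC G r N) (hLN : Disjoint L N) {a b c d : V}
    (ha : a ∉ N) (hb : b ∉ N) (hc : c ∉ N) (hd : d ∉ N) (hab : G.Adj a b) (hbc : G.Adj b c)
    (hcd : G.Adj c d) (hac : ¬ G.Adj a c) (had : ¬ G.Adj a d) (hbd : ¬ G.Adj b d)
    (S : Finset V) (hS : S.card ≤ 3)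
    (hy : ∀ y ∈ L, y ∉ S → G.Adj d y ∧ ¬ G.Adj a y ∧ ¬ G.Adj b y ∧ ¬ G.Adj c y) : False := by
  classical
  have hT : 1 < (L \ S).card := by
    have := Finset.le_card_sdiff S L
    rw [hL.1] at this
    omega
  obtain ⟨x, hx, x', hx', hne⟩ := Finset.one_lt_card.1 hT
  rw [Finset.mem_sdiff] at hx hx'
  obtain ⟨n, hn, hn'⟩ := exists_avoid (L := N) (T := nb G N a ∪ nb G N b ∪ nb G N c ∪ nb G N d) (by
    have h1 := Finset.card_union_le (nb G N a ∪ nb G N b ∪ nb G N c) (nb G N d)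
    have h2 := Finset.card_union_le (nb G N a ∪ nb G N b) (nb G N c)
    have h3 := Finset.card_union_le (nb G N a) (nb G N b)
    have h4 := nb_card hdf hno hN ha
    have h5 := nb_card hdf hno hN hb
    have h6 := nb_card hdf hno hN hc
    have h7 := nb_card hdf hno hN hd
    rw [hN.1]; omega)
  simp only [Finset.mem_union, mem_nb, not_or, not_and] at hn'
  obtain ⟨⟨⟨na, nb'⟩, nc⟩, nd⟩ := hn'
  have key : ∀ y ∈ L, y ∉ S → G.Adj n y := by
    intro y hyL hyS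
    obtain ⟨h1, h2, h3, h4⟩ := hy y hyL hyS
    by_contra hny
    exact hP a b c d y n hab hbc hcd h1 hac had h2 hbd h3 h4 (fun h => na hn h.symm)
      (fun h => nb' hn h.symm) (fun h => nc hn h.symm) (fun h => nd hn h.symm) hny
  have hnL : n ∉ L := fun h => Finset.disjoint_left.1 hLN h hn
  exact hne (F1 hdf hno hL hnL hx.1 hx'.1 (key x hx.1 hx.2) (key x' hx'.1 hx'.2))

/-- three pairwise disjoint `r`-cliques -/
structure Trip (G : SimpleGraph V) (r : ℕ) (K L N : Finset V) : Prop where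
  hK : QC G r K
  hL : QC G r L
  hN : QC G r N
  KL : Disjoint K L
  KN : Disjoint K N
  LN : Disjoint L N

theorem Trip.rot {r : ℕ} {K L N : Finset V} (h : Trip G r K L N) : Trip G r L N K :=
  ⟨h.hL, h.hN, h.hK, h.LN, h.KL.symm, h.KN.symm⟩

theorem Trip.swap {r : ℕ} {K L N : Finset V} (h : Trip G r K L N) : Trip G r K N L :=
  ⟨h.hK, h.hN, h.hL, h.KN, h.KL, h.LN.symm⟩

theorem one {r : ℕ} (hr : 5 ≤ r) (hdf : DF G) (hno : NoQC G (r + 1)) (hP : P15F G)
    {K L N : Finset V} (T : Trip G r K L N) {v a a' b' : V} (hvK : v ∉ K) (hvL : v ∉ L)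
    (hvN : v ∉ N) (ha : a ∈ K) (ha' : a' ∈ K) (hne : a ≠ a') (hb' : b' ∈ L)
    (hva : G.Adj v a) (hab : G.Adj a' b') : G.Adj v b' := by
  classical
  by_contra hvb
  have hb'K : b' ∉ K := fun h => Finset.disjoint_left.1 T.KL h hb'
  have haL : a ∉ L := fun h => Finset.disjoint_left.1 T.KL ha h
  have ha'L : a' ∉ L := fun h => Finset.disjoint_left.1 T.KL ha' h
  refine claimA hr hdf hno hP T.hL T.hN T.LN (a := v) (b := a) (c := a') (d := b') hvN
    (fun h => Finset.disjoint_left.1 T.KN ha h) (fun h => Finset.disjoint_left.1 T.KN ha' h)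
    (fun h => Finset.disjoint_left.1 T.LN hb' h) hva (T.hK.2 a ha a' ha' hne) hab
    (fun h => hne (F1 hdf hno T.hK hvK ha ha' hva h)) hvb
    (fun h => hne (F1 hdf hno T.hK hb'K ha ha' h.symm hab.symm))
    (insert b' (nb G L v ∪ nb G L a)) ?_ ?_
  · have h1 := Finset.card_insert_le b' (nb G L v ∪ nb G L a)
    have h2 := Finset.card_union_le (nb G L v) (nb G L a)
    have h3 := nb_card hdf hno T.hL hvL
    have h4 := nb_card hdf hno T.hL haL
    omega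
  · intro y hy hyS
    simp only [Finset.mem_insert, Finset.mem_union, mem_nb, not_or, not_and] at hyS
    obtain ⟨h1, h2, h3⟩ := hyS
    refine ⟨T.hL.2 b' hb' y hy (Ne.symm h1), h2 hy, h3 hy, fun h => ?_⟩
    exact h1 (F1 hdf hno T.hL ha'L hb' hy hab h).symm

theorem edgeLemma {r : ℕ} (hr : 5 ≤ r) (hdf : DF G) (hno : NoQC G (r + 1)) (hP : P15F G)
    (hcr : Crit G r) {K L N : Finset V} (T : Trip G r K L N) :
    ∃ a ∈ K, ∃ b ∈ L, G.Adj a b := by
  classical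
  by_contra hcon
  push Not at hcon
  have hKN : ∀ x ∈ K, x ∉ N := fun x hx h => Finset.disjoint_left.1 T.KN hx h
  have hLN : ∀ x ∈ L, x ∉ N := fun x hx h => Finset.disjoint_left.1 T.LN hx h
  have hLK : ∀ x ∈ L, x ∉ K := fun x hx h => Finset.disjoint_left.1 T.KL h hx
  have hcard1 : ∀ a : V, ({a} : Finset V).card ≤ 3 := fun a => by simp
  -- no outside vertex is adjacent to both
  have hi : ∀ v, v ∉ N → v ∉ K → ∀ a ∈ K, G.Adj v a → ∀ b ∈ L, ¬ G.Adj v b := by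
    intro v hvN hvK a ha hva b hb hvb
    have hvL : v ∉ L := fun h => hcon a ha v h hva.symm
    obtain ⟨d, hd, hdb⟩ := exists_avoid (L := L) (T := {b}) (by rw [T.hL.1]; simp; omega)
    have hdb : d ≠ b := by simpa using hdb
    refine claimA hr hdf hno hP T.hK T.hN T.KN (a := d) (b := b) (c := v) (d := a)
      (hLN d hd) (hLN b hb) hvN (hKN a ha) (T.hL.2 d hd b hb hdb) hvb.symm hva
      (fun h => hdb (F1 hdf hno T.hL hvL hd hb h.symm hvb)) (fun h => hcon a ha d hd h.symm)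
      (fun h => hcon a ha b hb h.symm) {a} (hcard1 a) ?_
    intro y hy hya
    have hya : y ≠ a := by simpa using hya
    exact ⟨T.hK.2 a ha y hy hya.symm, fun h => hcon y hy d hd h.symm,
      fun h => hcon y hy b hb h.symm, fun h => hya (F1 hdf hno T.hK hvK ha hy hva h).symm⟩
  -- layers
  set D1 : Set V := {v | v ∉ N ∧ v ∉ K ∧ ∃ a ∈ K, G.Adj v a} with hD1
  set D2 : Set V := {w | w ∉ N ∧ w ∉ K ∧ w ∉ D1 ∧ ∃ v ∈ D1, G.Adj w v} with hD2
  have hLne : L.Nonempty := by rw [← Finset.card_pos, T.hL.1]; omega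
  have hKne : K.Nonempty := by rw [← Finset.card_pos, T.hK.1]; omega
  obtain ⟨b0, hb0⟩ := hLne
  obtain ⟨a0, ha0⟩ := hKne
  have hb0K := hLK b0 hb0
  have hb0D1 : b0 ∉ D1 := by
    rintro ⟨-, -, a, ha, hab⟩
    exact hcon a ha b0 hb0 hab.symm
  have hb0D2 : b0 ∉ D2 := by
    rintro ⟨-, -, -, v, ⟨hvN, hvK, a, ha, hva⟩, hbv⟩
    exact hi v hvN hvK a ha hva b0 hb0 hbv.symm
  obtain ⟨c, hc, w, hwC, hwN, hcw⟩ := hcr.cutset N T.hN.2 ({x | x ∈ K} ∪ D1 ∪ D2)
    ⟨a0, Or.inl (Or.inl ha0)⟩ (by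
      rintro v ((h | h) | h)
      · exact hKN v h
      · exact h.1
      · exact h.1) (w0 := b0) (by
      rintro ((h | h) | h)
      · exact hb0K h
      · exact hb0D1 h
      · exact hb0D2 h) (hLN b0 hb0)
  have hwK : w ∉ K := fun h => hwC (Or.inl (Or.inl h))
  have hwD1 : w ∉ D1 := fun h => hwC (Or.inl (Or.inr h))
  have hwD2 : w ∉ D2 := fun h => hwC (Or.inr h)
  have hwK' : ∀ a ∈ K, ¬ G.Adj w a := fun a ha h => hwD1 ⟨hwN, hwK, a, ha, h⟩
  rcases hc with (hc | hc) | hc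
  · exact hwK' c hc hcw.symm
  · exact hwD2 ⟨hwN, hwK, hwD1, c, hc, hcw.symm⟩
  · obtain ⟨hcN, hcK, hcD1, v, hv, hcv⟩ := hc
    have hwv : ¬ G.Adj w v := fun h => hwD2 ⟨hwN, hwK, hwD1, v, hv, h⟩
    obtain ⟨hvN, hvK, a, ha, hva⟩ := hv
    have hcK' : ∀ a ∈ K, ¬ G.Adj c a := fun a ha h => hcD1 ⟨hcN, hcK, a, ha, h⟩
    refine claimA hr hdf hno hP T.hK T.hN T.KN (a := w) (b := c) (c := v) (d := a)
      hwN hcN hvN (hKN a ha) hcw.symm hcv hva hwv (hwK' a ha) (hcK' a ha) {a} (hcard1 a) ?_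
    intro y hy hya
    have hya : y ≠ a := by simpa using hya
    exact ⟨T.hK.2 a ha y hy hya.symm, hwK' y hy, hcK' y hy,
      fun h => hya (F1 hdf hno T.hK hvK ha hy hva h).symm⟩

theorem noOutside {r : ℕ} (hr : 5 ≤ r) (hdf : DF G) (hno : NoQC G (r + 1)) (hP : P15F G)
    (hcr : Crit G r) {K L N : Finset V} (T : Trip G r K L N) {v a : V} (hvK : v ∉ K)
    (hvL : v ∉ L) (hvN : v ∉ N) (ha : a ∈ K) (hva : G.Adj v a) : False := by
  classical
  -- at most one further vertex of `K` has a neighbour in `L` (or `N`)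
  have key : ∀ L' N' : Finset V, Trip G r K L' N' → v ∉ L' → v ∉ N' →
      ∃ s, ∀ k ∈ K, k ≠ a → (∃ b ∈ L', G.Adj k b) → k = s := by
    intro L' N' T' hvL' hvN'
    by_cases hex : ∃ k ∈ K, k ≠ a ∧ ∃ b ∈ L', G.Adj k b
    · obtain ⟨k, hk, hka, b, hb, hkb⟩ := hex
      refine ⟨k, fun k' hk' hka' hex' => ?_⟩
      obtain ⟨b', hb', hkb'⟩ := hex'
      have h1 := one hr hdf hno hP T' hvK hvL' hvN' ha hk (Ne.symm hka) hb hva hkb
      have h2 := one hr hdf hno hP T' hvK hvL' hvN' ha hk' (Ne.symm hka') hb' hva hkb'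
      have h3 : b = b' := F1 hdf hno T'.hL hvL' hb hb' h1 h2
      subst h3
      exact F1 hdf hno T'.hK (fun h => Finset.disjoint_left.1 T'.KL h hb) hk' hk
        hkb'.symm hkb.symm
    · push Not at hex
      refine ⟨a, fun k hk hka hex' => ?_⟩
      obtain ⟨b, hb, hkb⟩ := hex'
      exact absurd hkb (hex k hk hka b hb)
  obtain ⟨s, hs⟩ := key L N T hvL hvN
  obtain ⟨s', hs'⟩ := key N L T.swap hvN hvL
  have hcard : 1 < (K \ {a, s, s'}).card := by
    have h1 := Finset.le_card_sdiff {a, s, s'} K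
    have h2 : ({a, s, s'} : Finset V).card ≤ 3 := Finset.card_le_three
    rw [T.hK.1] at h1
    omega
  obtain ⟨a1, ha1, a2, ha2, h12⟩ := Finset.one_lt_card.1 hcard
  simp only [Finset.mem_sdiff, Finset.mem_insert, Finset.mem_singleton, not_or] at ha1 ha2
  obtain ⟨ha1, h1a, h1s, h1s'⟩ := ha1
  obtain ⟨ha2, h2a, h2s, h2s'⟩ := ha2
  have n1L : ∀ b ∈ L, ¬ G.Adj a1 b := fun b hb h => h1s (hs a1 ha1 h1a ⟨b, hb, h⟩)
  have n2L : ∀ b ∈ L, ¬ G.Adj a2 b := fun b hb h => h2s (hs a2 ha2 h2a ⟨b, hb, h⟩)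
  have n1N : ∀ b ∈ N, ¬ G.Adj a1 b := fun b hb h => h1s' (hs' a1 ha1 h1a ⟨b, hb, h⟩)
  -- an outside neighbour of `a1`
  obtain ⟨v1, hv1, hav1⟩ := hcr.degree a1 (K.erase a1) (by
    rw [Finset.card_erase_of_mem ha1, T.hK.1]; omega)
  have hv1K : v1 ∉ K := fun h => hv1 (Finset.mem_erase.2 ⟨hav1.ne', h⟩)
  have hv1L : v1 ∉ L := fun h => n1L v1 h hav1
  have hv1N : v1 ∉ N := fun h => n1N v1 h hav1
  obtain ⟨c, hc, b', hb', hcb'⟩ := edgeLemma hr hdf hno hP hcr T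
  have hc1 : a1 ≠ c := by rintro rfl; exact n1L b' hb' hcb'
  have hv1b' : G.Adj v1 b' := one hr hdf hno hP T hv1K hv1L hv1N ha1 hc hc1 hb' hav1.symm hcb'
  refine claimA hr hdf hno hP T.hL T.hN T.LN (a := a2) (b := a1) (c := v1) (d := b')
    (fun h => Finset.disjoint_left.1 T.KN ha2 h) (fun h => Finset.disjoint_left.1 T.KN ha1 h)
    hv1N (fun h => Finset.disjoint_left.1 T.LN hb' h) (T.hK.2 a2 ha2 a1 ha1 h12.symm) hav1
    hv1b' (fun h => h12 (F1 hdf hno T.hK hv1K ha1 ha2 hav1.symm h.symm)) (n2L b' hb')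
    (n1L b' hb') {b'} (by simp) ?_
  intro y hy hyb
  have hyb : y ≠ b' := by simpa using hyb
  exact ⟨T.hL.2 b' hb' y hy hyb.symm, n2L y hy, n1L y hy,
    fun h => hyb (F1 hdf hno T.hL hv1L hb' hy hv1b' h).symm⟩

theorem no_three_B {r : ℕ} (hr : 5 ≤ r) (hdf : DF G) (hno : NoQC G (r + 1)) (hP : P15F G)
    (hcr : Crit G r) {K L N : Finset V} (hK : QC G r K) (hL : QC G r L) (hN : QC G r N)
    (hKL : Disjoint K L) (hKN : Disjoint K N) (hLN : Disjoint L N) : False := by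
  classical
  have T : Trip G r K L N := ⟨hK, hL, hN, hKL, hKN, hLN⟩
  have hKne : K.Nonempty := by rw [← Finset.card_pos, T.hK.1]; omega
  obtain ⟨a0, ha0⟩ := hKne
  by_cases huniv : ({x | x ∈ K ∨ x ∈ L ∨ x ∈ N} : Set V) = Set.univ
  · refine hcr.nc (colour_three hr hdf hno hK hL hN hKL hKN hLN fun v => ?_)
    have : v ∈ ({x | x ∈ K ∨ x ∈ L ∨ x ∈ N} : Set V) := huniv ▸ trivial
    exact this
  · obtain ⟨c, hc, w, hw, hcw⟩ := hcr.conn _ ⟨a0, Or.inl ha0⟩ huniv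
    have hwK : w ∉ K := fun h => hw (Or.inl h)
    have hwL : w ∉ L := fun h => hw (Or.inr (Or.inl h))
    have hwN : w ∉ N := fun h => hw (Or.inr (Or.inr h))
    rcases hc with hc | hc | hc
    · exact noOutside hr hdf hno hP hcr T hwK hwL hwN hc hcw.symm
    · exact noOutside hr hdf hno hP hcr T.rot hwL hwN hwK hc hcw.symm
    · exact noOutside hr hdf hno hP hcr T.rot.rot hwN hwK hwL hc hcw.symm

end Pool.Agent.Helper76
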