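import Pool.Agent.Helper76.BaseB
import Pool.Agent.Helper76.StepB

/-!
Colourings of (diamond, P1+P5)-free graphs.
-/

namespace Pool.Agent.Helper76

open SimpleGraph

universe u

section

variable {V : Type*} {G : SimpleGraph V}

theorem DF.avoid (h : DF G) : Avoid G 4 mDia := by
  intro σ he
  have h01 := he 1 (by norm_num) 0 (by norm_num)
  have h02 := he 2 (by norm_num) 0 (by norm_num)
  have h12 := he 2 (by norm_num) 1 (by norm_num)
  have h03 := he 3 (by norm_num) 0 (by norm_num)
  have h13 := he 3 (by norm_num) 1 (by norm_num)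
  have h23 := he 3 (by norm_num) 2 (by norm_num)
  have e01 : tb mDia (32 * 1 + 0) = true := by decide +kernel
  have e02 : tb mDia (32 * 2 + 0) = true := by decide +kernel
  have e12 : tb mDia (32 * 2 + 1) = true := by decide +kernel
  have e03 : tb mDia (32 * 3 + 0) = true := by decide +kernel
  have e13 : tb mDia (32 * 3 + 1) = true := by decide +kernel
  have e23 : tb mDia (32 * 3 + 2) = false := by decide +kernel
  have key := h (σ 0) (σ 1) (σ 2) (σ 3) (h01.2.2 e01).symm (h02.2.2 e02).symm
    (h12.2.2 e12).symm (h03.2.2 e03).symm (h13.2.2 e13).symm h23.1.symm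
  have := h23.2.1 key.symm
  rw [e23] at this
  simp at this

theorem df_of_avoid (h : Avoid G 4 mDia) : DF G := by
  intro a b c d hab hac hbc had hbd hcd
  by_contra hncd
  refine h (fun i => if i = 0 then a else if i = 1 then b else if i = 2 then c else d) ?_
  intro x hx y hy
  have e : ∀ x < 4, ∀ y < x, tb mDia (32 * x + y) = !(decide (x = 3) && decide (y = 2)) := by
    decide +kernel
  rw [e x hx y hy]
  have : (x = 1 ∧ y = 0) ∨ (x = 2 ∧ y = 0) ∨ (x = 2 ∧ y = 1) ∨ (x = 3 ∧ y = 0) ∨
      (x = 3 ∧ y = 1) ∨ (x = 3 ∧ y = 2) := by omega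
  rcases this with ⟨rfl, rfl⟩ | ⟨rfl, rfl⟩ | ⟨rfl, rfl⟩ | ⟨rfl, rfl⟩ | ⟨rfl, rfl⟩ | ⟨rfl, rfl⟩
  · simp [hab.symm, hab.ne']
  · simp [hac.symm, hac.ne']
  · simp [hbc.symm, hbc.ne']
  · simp [had.symm, had.ne']
  · simp [hbd.symm, hbd.ne']
  · simp [hcd.symm, G.adj_comm d c, hncd]

theorem P15F.avoid (h : P15F G) : Avoid G 6 mP15 := by
  intro σ he
  have key : ∀ x < 6, ∀ y < x, tb mP15 (32 * x + y) = (Nat.beq x (y + 1) && Nat.ble x 4) := by
    decide +kernel
  have hadj : ∀ x < 6, ∀ y < x, (Nat.beq x (y + 1) && Nat.ble x 4) = true →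
      G.Adj (σ y) (σ x) := by
    intro x hx y hy h1
    exact ((he x hx y hy).2.2 (by rw [key x hx y hy]; exact h1)).symm
  have hnadj : ∀ x < 6, ∀ y < x, (Nat.beq x (y + 1) && Nat.ble x 4) = false →
      ¬ G.Adj (σ x) (σ y) := by
    intro x hx y hy h1 h2
    have := (he x hx y hy).2.1 h2
    rw [key x hx y hy, h1] at this
    simp at this
  refine h (σ 0) (σ 1) (σ 2) (σ 3) (σ 4) (σ 5) (hadj 1 (by norm_num) 0 (by norm_num) rfl)
    (hadj 2 (by norm_num) 1 (by norm_num) rfl) (hadj 3 (by norm_num) 2 (by norm_num) rfl)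
    (hadj 4 (by norm_num) 3 (by norm_num) rfl) ?_ ?_ ?_ ?_ ?_ ?_ ?_ ?_ ?_ ?_ ?_
  · exact fun h => hnadj 2 (by norm_num) 0 (by norm_num) rfl h.symm
  · exact fun h => hnadj 3 (by norm_num) 0 (by norm_num) rfl h.symm
  · exact fun h => hnadj 4 (by norm_num) 0 (by norm_num) rfl h.symm
  · exact fun h => hnadj 3 (by norm_num) 1 (by norm_num) rfl h.symm
  · exact fun h => hnadj 4 (by norm_num) 1 (by norm_num) rfl h.symm
  · exact fun h => hnadj 4 (by norm_num) 2 (by norm_num) rfl h.symm
  · exact hnadj 5 (by norm_num) 0 (by norm_num) rfl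
  · exact hnadj 5 (by norm_num) 1 (by norm_num) rfl
  · exact hnadj 5 (by norm_num) 2 (by norm_num) rfl
  · exact hnadj 5 (by norm_num) 3 (by norm_num) rfl
  · exact hnadj 5 (by norm_num) 4 (by norm_num) rfl

/-- injectivity on the first `n` numbers gives the image as a finset -/
theorem NoQC.avoid {n M : ℕ} (h : NoQC G n) (hM : ∀ x < n, ∀ y < x, tb M (32 * x + y) = true) :
    Avoid G n M := by
  classical
  intro σ he
  refine h ((Finset.range n).image σ) ⟨?_, ?_⟩
  · rw [Finset.card_image_of_injOn, Finset.card_range]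
    intro x hx y hy hxy
    by_contra hne
    exact he.inj (by simpa using hx) (by simpa using hy) hne hxy
  · intro a ha b hb hab
    obtain ⟨x, hx, rfl⟩ := Finset.mem_image.1 ha
    obtain ⟨y, hy, rfl⟩ := Finset.mem_image.1 hb
    rw [Finset.mem_range] at hx hy
    have hne : x ≠ y := by rintro rfl; exact hab rfl
    rcases lt_or_gt_of_ne hne with h1 | h1
    · exact ((he y hy x h1).2.2 (hM y hy x h1)).symm
    · exact (he x hx y h1).2.2 (hM x hx y h1)

theorem DF.induce (h : DF G) (S : Set V) : DF (G.induce S) := by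
  intro a b c d h1 h2 h3 h4 h5 h6
  exact h a b c d h1 h2 h3 h4 h5 (fun h => h6 (Subtype.ext h))

theorem P15F.induce (h : P15F G) (S : Set V) : P15F (G.induce S) := by
  intro a b c d e q h1 h2 h3 h4 h5 h6 h7 h8 h9 h10 h11 h12 h13 h14 h15
  exact h a b c d e q h1 h2 h3 h4 h5 h6 h7 h8 h9 h10 h11 h12 h13 h14 h15

theorem NoQC.induce {r : ℕ} (h : NoQC G r) (S : Set V) : NoQC (G.induce S) r := by
  classical
  intro Q hQ
  refine h (Q.map (Function.Embedding.subtype _)) ⟨by rw [Finset.card_map, hQ.1], ?_⟩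
  intro a ha b hb hab
  obtain ⟨x, hx, rfl⟩ := Finset.mem_map.1 ha
  obtain ⟨y, hy, rfl⟩ := Finset.mem_map.1 hb
  exact hQ.2 x hx y hy (fun h => hab (by rw [h]))

end

/-- (diamond, P1+P5)-free graphs without cliques of size `k + 1` are `k`-colourable, `k ≥ 4` -/
theorem mainB : ∀ (k : ℕ), 4 ≤ k → ∀ (V : Type u) [Finite V] (G : SimpleGraph V), DF G →
    P15F G → NoQC G (k + 1) → G.Colorable k := by
  intro k hk
  induction k, hk using Nat.le_induction with
  | base =>
    intro V _ G hdf hP hno
    by_contra hcon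
    obtain ⟨S, hS⟩ := exists_crit hcon
    exact base_B5 hS (hdf.induce S).avoid (hP.induce S).avoid
      ((hno.induce S).avoid (by decide +kernel))
  | succ k hk ih =>
    intro V _ G hdf hP hno
    classical
    by_contra hcon
    obtain ⟨S, hS⟩ := exists_crit hcon
    have hdf' := hdf.induce S
    have hP' := hP.induce S
    have hno' := hno.induce S
    obtain ⟨I, hI, hhit⟩ := hit_of_no_three (r := k + 1) (by omega) hdf' hno'
      fun A B C hA hB hC h1 h2 h3 =>
        no_three_B (by omega) hdf' hno' hP' hS hA hB hC h1 h2 h3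
    have hno2 : NoQC ((G.induce S).induce Iᶜ) (k + 1) := by
      intro Q hQ
      obtain ⟨x, hx, hxI⟩ := hhit (Q.map (Function.Embedding.subtype _))
        ⟨by rw [Finset.card_map, hQ.1], by
          intro a ha b hb hab
          obtain ⟨x, hx, rfl⟩ := Finset.mem_map.1 ha
          obtain ⟨y, hy, rfl⟩ := Finset.mem_map.1 hb
          exact hQ.2 x hx y hy (fun h => hab (by rw [h]))⟩
      obtain ⟨y, hy, rfl⟩ := Finset.mem_map.1 hx
      exact y.2 hxI
    have hcol := ih _ ((G.induce S).induce Iᶜ) (hdf'.induce _) (hP'.induce _) hno2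
    obtain ⟨c, c1, c2⟩ := colOn_induce_iff.1 hcol
    refine hS.nc ⟨fun v => if v ∈ I then k else c v, ?_, ?_⟩
    · intro v _
      by_cases hv : v ∈ I
      · simp [hv]
      · simp only [hv, if_false]
        have := c1 v hv
        omega
    · intro u _ v _ huv
      by_cases hu : u ∈ I <;> by_cases hv : v ∈ I
      · exact absurd huv (hI u hu v hv)
      · simp only [hu, hv, if_true, if_false]
        have := c1 v hv
        omega
      · simp only [hu, hv, if_true, if_false]
        have := c1 u hu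
        omega
      · simp only [hu, hv, if_false]
        exact c2 u hu v hv huv

/-- for at most three colours it suffices to look at the sets of at most ten vertices -/
theorem mainB_small {V : Type*} [Finite V] {G : SimpleGraph V} (hdf : DF G) (hP : P15F G)
    {k : ℕ} (hk : k ≤ 3) (h : ∀ S : Finset V, S.card ≤ 10 → ColOn G k S) : G.Colorable k := by
  classical
  by_contra hcon
  obtain ⟨S, hS⟩ := exists_crit hcon
  have := Fintype.ofFinite V
  have hSbig : 10 < S.toFinset.card := by
    by_contra hle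
    have h1 := h S.toFinset (by omega)
    rw [Set.coe_toFinset] at h1
    exact hS.nc (colOn_univ_iff.2 (colOn_induce_iff.2 h1))
  have hbig : ∀ n ≤ 10, ∀ σ : ℕ → S, ∃ v, ∀ t < n, v ≠ σ t := by
    intro n hn σ
    by_contra hcon'
    push Not at hcon'
    have h1 : (Finset.univ : Finset S) ⊆ (Finset.range n).image σ := by
      intro v _
      obtain ⟨t, ht, hvt⟩ := hcon' v
      exact Finset.mem_image.2 ⟨t, Finset.mem_range.2 ht, hvt.symm⟩
    have h2 := Finset.card_le_card h1
    have h3 := Finset.card_image_le (s := Finset.range n) (f := σ)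
    rw [Finset.card_range] at h3
    rw [Finset.card_univ, ← Set.toFinset_card] at h2
    omega
  have hk' : k = 0 ∨ k = 1 ∨ k = 2 ∨ k = 3 := by omega
  rcases hk' with rfl | rfl | rfl | rfl
  · have h0 : 0 < S.toFinset.card := by omega
    obtain ⟨v, -⟩ := Finset.card_pos.1 h0
    obtain ⟨c, c1, -⟩ := h {(v : V)} (by simp)
    exact absurd (c1 v (by simp)) (by omega)
  · -- one colour: no edges
    refine hS.nc ⟨fun _ => 0, fun _ _ => by norm_num, fun u _ v _ huv => ?_⟩
    obtain ⟨c, c1, c2⟩ := h {(u : V), (v : V)} ((Finset.card_le_two).trans (by norm_num))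
    have h1 := c1 u (by simp)
    have h2 := c1 v (by simp)
    exact absurd (by omega) (c2 u (by simp) v (by simp) huv)
  · have hnc : ∀ n A, n ≤ 10 → ncol 2 A n 0 [] = true → Avoid (G.induce S) n A :=
      fun n A hn h => avoid_of_ncol hS (hbig n hn) h
    refine hS.nc (colOn_univ_iff.2 (colorable_two_of_avoid (hnc 3 _ (by norm_num) ?_)
      (hnc 5 _ (by norm_num) ?_) (hnc 7 _ (by norm_num) ?_) (hP.induce S).avoid))
    · decide +kernel
    · decide +kernel
    · decide +kernel
  · exact base_B4 hS (hdf.induce S).avoid (hP.induce S).avoid (hbig 10 le_rfl)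

end Pool.Agent.Helper76
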