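import Pool.Agent.Helper76.TypeCol2

/-!
Small graphs that are not `k`-colourable are not induced subgraphs of larger critical graphs.
-/

namespace Pool.Agent.Helper76

open SimpleGraph

/-- colour `c` is used on an earlier neighbour -/
def conflict (Ai c : ℕ) : List ℕ → ℕ → Bool
  | [], _ => false
  | d :: l, j => cond (tb Ai (j - 1)) (Nat.beq c d) false || conflict Ai c l (j - 1)

/-- no extension of the partial colouring `cs` of the vertices `i - 1, ..., 0` to `m` more
vertices -/
def ncol (k A : ℕ) : ℕ → ℕ → List ℕ → Bool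
  | 0, _, _ => false
  | m + 1, i, cs => allLt k fun c => conflict (Nat.shiftRight A (32 * i)) c cs i ||
      ncol k A m (i + 1) (c :: cs)

theorem conflict_spec {Ai c : ℕ} {f : ℕ → ℕ} : ∀ (l : List ℕ) (i : ℕ), l.length = i →
    (∀ j < i, l.reverse[j]? = some (f j)) → conflict Ai c l i = true →
    ∃ j < i, tb Ai j = true ∧ f j = c
  | [], i, _, _, h => by simp [conflict] at h
  | d :: l, i, hl, hf, h => by
    simp only [List.length_cons] at hl
    rw [conflict, Bool.or_eq_true] at h
    rcases h with h | h
    · cases hb : tb Ai (i - 1) with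
      | false => rw [hb] at h; simp at h
      | true =>
        rw [hb, cond_true] at h
        have h := Nat.eq_of_beq_eq_true h
        have h1 := hf (i - 1) (by omega)
        rw [List.reverse_cons, List.getElem?_append_right (by simp; omega)] at h1
        have h2 : i - 1 - l.reverse.length = 0 := by simp; omega
        rw [h2] at h1
        simp at h1
        exact ⟨i - 1, by omega, hb, by omega⟩
    · obtain ⟨j, h1, h2, h3⟩ := conflict_spec l (i - 1) (by omega) (fun j hj => by
        have h1 := hf j (by omega)
        rwa [List.reverse_cons, List.getElem?_append_left (by simp; omega)] at h1) h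
      exact ⟨j, by omega, h2, h3⟩

theorem ncol_spec {k A : ℕ} {f : ℕ → ℕ} : ∀ (m i : ℕ) (cs : List ℕ), cs.length = i →
    (∀ j < i, cs.reverse[j]? = some (f j)) → (∀ j < i + m, f j < k) →
    ncol k A m i cs = true → ∃ a < i + m, ∃ b < a, tb A (32 * a + b) = true ∧ f a = f b
  | 0, i, cs, _, _, _, h => by simp [ncol] at h
  | m + 1, i, cs, hl, hf, hk, h => by
    rw [ncol] at h
    have h1 := allLt_iff.1 h (f i) (hk i (by omega))
    rw [Bool.or_eq_true] at h1
    rcases h1 with h1 | h1
    · obtain ⟨j, hj, h2, h3⟩ := conflict_spec cs i hl hf h1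
      rw [tb_shift] at h2
      exact ⟨i, by omega, j, hj, h2, h3.symm⟩
    · obtain ⟨a, ha, h2⟩ := ncol_spec m (i + 1) (f i :: cs) (by simp [hl]) (fun j hj => by
        by_cases hji : j = i
        · subst hji
          rw [List.reverse_cons, List.getElem?_append_right (by simp [hl])]
          simp [hl]
        · rw [List.reverse_cons, List.getElem?_append_left (by simp; omega)]
          exact hf j (by omega)) (fun j hj => hk j (by omega)) h1
      exact ⟨a, by omega, h2⟩

variable {V : Type*} {G : SimpleGraph V}

theorem avoid_of_ncol {k n A : ℕ} (hcr : Crit G k)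
    (hbig : ∀ σ : ℕ → V, ∃ v, ∀ t < n, v ≠ σ t) (h : ncol k A n 0 [] = true) :
    Avoid G n A := by
  intro σ he
  obtain ⟨v, hv⟩ := hbig σ
  obtain ⟨c, c1, c2⟩ := hcr.cr v
  obtain ⟨a, ha, b, hb, h1, h2⟩ := ncol_spec (f := fun i => c (σ i)) n 0 [] rfl (by simp)
    (fun j hj => c1 _ (fun h => hv j (by omega) h.symm)) h
  simp only [zero_add] at ha
  exact c2 _ (fun h => hv a ha h.symm) _ (fun h => hv b (by omega) h.symm)
    ((he a ha b hb).2.2 h1) h2

end Pool.Agent.Helper76
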