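import Pool.Agent.Helper4.Glue

/-!
Loop programs on graphs given by adjacency matrices: queries.
Registers: `1` the number of vertices in unary, `2` the adjacency matrix, `3` a parameter, `4`
the answer flag,
`5` to `8` scratch, `10, 12, 14, ...` vertices in unary.
-/

namespace Pool.Agent.Helper76.Prog

open Function Pool.Agent.Helper72

variable {d : List Bool}

/-- good states -/
structure Good (n : ℕ) (M d : List Bool) (s : St) : Prop where
  h1 : s 1 = un n
  h2 : s 2 = M
  h3 : s 3 = d
  h4 : (s 4).length ≤ 1
  h5 : s 5 = []
  h6 : s 6 = []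
  h7 : s 7 = []
  h8 : s 8 = []

/-- remove as many symbols from `T` as there are in `A`; empties `A` -/
def popL (A T : ℕ) : Cmd := .loop A (.pop T) (.pop T)

theorem popL_loop {A T : ℕ} (h : A ≠ T) (p : Bool → St → Prop) (hp : ∀ b s, p b s) :
    ∀ (l : List Bool) (s : St), s A = l →
    loopEval (fun x => if x then Cmd.eval (.pop T) else Cmd.eval (.pop T)) A l s
      = update (update s A []) T ((s T).drop l.length) ∧
    loopLB (fun x => if x then Cmd.eval (.pop T) else Cmd.eval (.pop T)) p A l s
  | [], s, hs => by
    constructor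
    · funext r
      by_cases h1 : r = T
      · subst h1; simp [loopEval]
      · by_cases h2 : r = A
        · subst h2; simp [loopEval, h1, hs]
        · simp [loopEval, h1, h2]
    · trivial
  | x :: l, s, hs => by
    have hb : (if x = true then Cmd.eval (.pop T) else Cmd.eval (.pop T))
      (update s A l) = update (update s A l) T (s T).tail := by
      cases x <;> simp [Cmd.eval, h.symm]
    obtain ⟨h1, h2⟩ := popL_loop h p hp l (update (update s A l) T (s T).tail) (by simp [h])
    constructor
    · rw [loopEval, hb, h1]
      funext r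
      by_cases q1 : r = T
      · subst q1; simp
      · by_cases q2 : r = A
        · subst q2; simp [q1]
        · simp [q1, q2]
    · refine ⟨hp _ _, ?_⟩
      show loopLB _ _ _ _ ((if x = true then Cmd.eval (.pop T) else Cmd.eval (.pop T))
        (update s A l))
      rw [hb]; exact h2

theorem eval_popL {A T : ℕ} (h : A ≠ T) (s : St) :
    (popL A T).eval s = update (update s A []) T ((s T).drop (s A).length) :=
  (popL_loop h (fun _ _ => True) (fun _ _ => trivial) _ s rfl).1

theorem LB_popL {A T L : ℕ} (h : A ≠ T) {s : St} (hl : (s A).length ≤ L) :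
    (popL A T).LB L s :=
  ⟨hl, (popL_loop h _ (fun b s => by cases b <;> trivial) _ s rfl).2⟩

/-- drop `n` symbols from register `6` for each symbol of register `7` -/
def rowBody : Cmd := .seq (Cmd.copy 1 8 5) (popL 8 6)

theorem rowBody_eval {n : ℕ} {s : St} (h1 : s 1 = un n) (h5 : s 5 = []) (h8 : s 8 = []) :
    rowBody.eval s = update s 6 ((s 6).drop n) := by
  rw [rowBody, Cmd.eval_seq, Cmd.eval_copy (by norm_num) (by norm_num) (by norm_num) h5,
    eval_popL (by norm_num)]
  funext r
  by_cases hr : r = 6
  · subst hr; simp [h1, h8]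
  · by_cases hr8 : r = 8
    · subst hr8; simp [h8]
    · simp [hr, hr8]

theorem rowBody_LB {n L : ℕ} {s : St} (h1 : s 1 = un n) (h5 : s 5 = []) (h8 : s 8 = [])
    (hn : n ≤ L) : rowBody.LB L s := by
  refine ⟨Cmd.LB_copy (by norm_num) (by norm_num) (by norm_num) h5 (by rw [h1]; simpa using hn),
    LB_popL (by norm_num) ?_⟩
  rw [Cmd.eval_copy (by norm_num) (by norm_num) (by norm_num) h5]
  simp [h1, h8, hn]

theorem row_loop {n L : ℕ} (hn : n ≤ L) : ∀ (l : List Bool) (s : St), s 7 = l → s 1 = un n →
    s 5 = [] → s 8 = [] →
    loopEval (fun x => if x then rowBody.eval else rowBody.eval) 7 l s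
      = update (update s 7 []) 6 ((s 6).drop (l.length * n)) ∧
    loopLB (fun x => if x then rowBody.eval else rowBody.eval)
      (fun x => if x then rowBody.LB L else rowBody.LB L) 7 l s
  | [], s, hs, _, _, _ => by
    constructor
    · funext r
      by_cases h1 : r = 6
      · subst h1; simp [loopEval]
      · by_cases h2 : r = 7
        · subst h2; simp [loopEval, hs]
        · simp [loopEval, h1, h2]
    · trivial
  | x :: l, s, hs, h1, h5, h8 => by
    have hb : (if x = true then rowBody.eval else rowBody.eval)
      (update s 7 l) = update (update s 7 l) 6 ((s 6).drop n) := by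
      have := rowBody_eval (s := update s 7 l) (n := n) (by simp [h1]) (by simp [h5])
        (by simp [h8])
      cases x <;> simp [this]
    obtain ⟨k1, k2⟩ := row_loop hn l (update (update s 7 l) 6 ((s 6).drop n)) (by simp)
      (by simp [h1]) (by simp [h5]) (by simp [h8])
    constructor
    · rw [loopEval, hb, k1]
      funext r
      by_cases h1 : r = 6
      · subst h1
        simp only [update_self, List.drop_drop, List.length_cons]
        congr 1
        ring
      · by_cases h2 : r = 7
        · subst h2; simp [h1]
        · simp [h1, h2]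
    · constructor
      · have := rowBody_LB (s := update s 7 l) (n := n) (L := L) (by simp [h1]) (by simp [h5])
          (by simp [h8]) hn
        cases x
        · exact this
        · exact this
      · show loopLB _ _ _ _ ((if x = true then rowBody.eval else rowBody.eval) (update s 7 l))
        rw [hb]; exact k2

/-- look up the entry of the matrix at the vertices in registers `a`, `b` -/
def look (a b : ℕ) : Cmd :=
  .seq (Cmd.copy 2 6 5) (.seq (Cmd.copy a 7 5) (.seq (.loop 7 rowBody rowBody)
    (.seq (Cmd.copy b 8 5) (popL 8 6))))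

theorem look_spec {n L : ℕ} {M : List Bool} {s : St} (hs : Good n M d s) {a b : ℕ}
    (ha : 10 ≤ a) (hb : 10 ≤ b) (hn : n ≤ L) (hM : M.length ≤ L) (hal : (s a).length ≤ L)
    (hbl : (s b).length ≤ L) :
    (look a b).LB L s ∧
    (look a b).eval s = update s 6 (M.drop ((s a).length * n + (s b).length)) := by
  have e1 : (Cmd.copy 2 6 5).eval s = update s 6 M := by
    rw [Cmd.eval_copy (by norm_num) (by norm_num) (by norm_num) hs.h5, hs.h2, hs.h6]; simp
  have e2 : (Cmd.copy a 7 5).eval (update s 6 M) = update (update s 6 M) 7 (s a) := by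
    rw [Cmd.eval_copy (by omega) (by omega) (by norm_num) (by simp [hs.h5])]
    have h1 : a ≠ 6 := by omega
    simp [hs.h7, h1]
  have hrow := row_loop hn (s a) (update (update s 6 M) 7 (s a)) (by simp) (by simp [hs.h1])
    (by simp [hs.h5]) (by simp [hs.h8])
  have e3 : (Cmd.loop 7 rowBody rowBody).eval (update (update s 6 M) 7 (s a)) =
      update s 6 (M.drop ((s a).length * n)) := by
    have h0 : (Cmd.loop 7 rowBody rowBody).eval (update (update s 6 M) 7 (s a)) =
      loopEval (fun x => if x then rowBody.eval else rowBody.eval) 7 (s a)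
        (update (update s 6 M) 7 (s a)) := by
      show loopEval _ 7 ((update (update s 6 M) 7 (s a)) 7) _ = _
      simp
    rw [h0, hrow.1]
    funext r
    by_cases h1 : r = 6
    · subst h1; simp
    · by_cases h2 : r = 7
      · subst h2; simp [hs.h7]
      · simp [h1, h2]
  have e4 : (Cmd.copy b 8 5).eval (update s 6 (M.drop ((s a).length * n))) =
      update (update s 6 (M.drop ((s a).length * n))) 8 (s b) := by
    rw [Cmd.eval_copy (by omega) (by omega) (by norm_num) (by simp [hs.h5])]
    have h1 : b ≠ 6 := by omega
    simp [hs.h8, h1]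
  have e5 : (popL 8 6).eval (update (update s 6 (M.drop ((s a).length * n))) 8 (s b)) =
      update s 6 (M.drop ((s a).length * n + (s b).length)) := by
    rw [eval_popL (by norm_num)]
    funext r
    by_cases h1 : r = 6
    · subst h1; simp [List.drop_drop]
    · by_cases h2 : r = 8
      · subst h2; simp [hs.h8]
      · simp [h1, h2]
  constructor
  · refine ⟨Cmd.LB_copy (by norm_num) (by norm_num) (by norm_num) hs.h5 (by rw [hs.h2]; exact hM),
      ?_⟩
    rw [e1]
    refine ⟨Cmd.LB_copy (by omega) (by omega) (by norm_num) (by simp [hs.h5]) ?_, ?_⟩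
    · have h1 : a ≠ 6 := by omega
      simpa [h1] using hal
    rw [e2]
    refine ⟨⟨by simpa using hal, ?_⟩, ?_⟩
    · have h0 : (update (update s 6 M) 7 (s a)) 7 = s a := by simp
      rw [h0]
      exact hrow.2
    rw [e3]
    refine ⟨Cmd.LB_copy (by omega) (by omega) (by norm_num) (by simp [hs.h5]) ?_, ?_⟩
    · have h1 : b ≠ 6 := by omega
      simpa [h1] using hbl
    rw [e4]
    exact LB_popL (by norm_num) (by simpa using hbl)
  · rw [look, Cmd.eval_seq, e1, Cmd.eval_seq, e2, Cmd.eval_seq, e3, Cmd.eval_seq, e4, e5]

/-- the adjacency bit -/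
def bit (n : ℕ) (M : List Bool) (i j : ℕ) : Bool := (M.drop (i * n + j)).headD false

/-- branch on an adjacency -/
def query (a b : ℕ) (cT cF : Cmd) : Cmd :=
  .seq (look a b) (.ite 6 cF (.seq (Cmd.clear 6) cF) (.seq (Cmd.clear 6) cT))

theorem query_spec {n L : ℕ} {M : List Bool} {s : St} (hs : Good n M d s) {a b : ℕ}
    (ha : 10 ≤ a) (hb : 10 ≤ b) (hn : n ≤ L) (hM : M.length ≤ L) (hal : (s a).length ≤ L)
    (hbl : (s b).length ≤ L) (cT cF : Cmd)
    (hT : bit n M (s a).length (s b).length = true → cT.LB L s)
    (hF : bit n M (s a).length (s b).length = false → cF.LB L s) :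
    (query a b cT cF).LB L s ∧ (query a b cT cF).eval s =
      if bit n M (s a).length (s b).length then cT.eval s else cF.eval s := by
  obtain ⟨h1, h2⟩ := look_spec hs ha hb hn hM hal hbl
  set X := M.drop ((s a).length * n + (s b).length) with hX
  have hlen : X.length ≤ L := by rw [hX, List.length_drop]; omega
  have hback : ∀ Y, update (update s 6 Y) 6 [] = s := by
    intro Y
    rw [update_idem]
    exact update_eq_self_iff.2 hs.h6.symm
  have hbit : bit n M (s a).length (s b).length = X.headD false := rfl
  rcases hx : X with _ | ⟨_ | _, l⟩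
  · have hb0 : bit n M (s a).length (s b).length = false := by rw [hbit, hx]; rfl
    have hup : update s 6 ([] : List Bool) = s := update_eq_self_iff.2 hs.h6.symm
    constructor
    · refine ⟨h1, ?_⟩
      rw [h2, hx, hup]
      simp only [Cmd.LB, hs.h6]
      exact hF hb0
    · rw [query, Cmd.eval_seq, h2, hx, hup, hb0]
      simp only [Cmd.eval, hs.h6]
      simp
  · have hb0 : bit n M (s a).length (s b).length = false := by rw [hbit, hx]; rfl
    constructor
    · refine ⟨h1, ?_⟩
      rw [h2, hx]
      simp only [Cmd.LB, update_self]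
      refine ⟨Cmd.LB_clear (by rw [update_self, ← hx]; exact hlen), ?_⟩
      rw [Cmd.eval_clear, hback]
      exact hF hb0
    · rw [query, Cmd.eval_seq, h2, hx, hb0]
      simp only [Cmd.eval, update_self]
      rw [Cmd.eval_clear, hback]
      simp
  · have hb0 : bit n M (s a).length (s b).length = true := by rw [hbit, hx]; rfl
    constructor
    · refine ⟨h1, ?_⟩
      rw [h2, hx]
      simp only [Cmd.LB, update_self]
      refine ⟨Cmd.LB_clear (by rw [update_self, ← hx]; exact hlen), ?_⟩
      rw [Cmd.eval_clear, hback]
      exact hT hb0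
    · rw [query, Cmd.eval_seq, h2, hx, hb0]
      simp only [Cmd.eval, update_self]
      rw [Cmd.eval_clear, hback]
      simp

end Pool.Agent.Helper76.Prog
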