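import Pool.Agent.Helper76.Prog1

/-!
Decision trees over queries and universal quantification over vertices.
-/

namespace Pool.Agent.Helper76.Prog

open Function Pool.Agent.Helper72

variable {d : List Bool}

/-- branch on the emptiness of register `6`, clearing it -/
def branch6 (cE cN : Cmd) : Cmd :=
  .ite 6 cE (.seq (Cmd.clear 6) cN) (.seq (Cmd.clear 6) cN)

theorem branch6_spec {L : ℕ} {s : St} (h6 : s 6 = []) {X : List Bool} (hX : X.length ≤ L)
    (cE cN : Cmd) (hE : X = [] → cE.LB L s) (hN : X ≠ [] → cN.LB L s) :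
    (branch6 cE cN).LB L (update s 6 X) ∧
    (branch6 cE cN).eval (update s 6 X) = if X = [] then cE.eval s else cN.eval s := by
  have hback : ∀ Y, update (update s 6 Y) 6 [] = s := by
    intro Y
    rw [update_idem]
    exact update_eq_self_iff.2 h6.symm
  have hup : update s 6 ([] : List Bool) = s := update_eq_self_iff.2 h6.symm
  rcases X with _ | ⟨_ | _, l⟩
  · rw [hup]
    constructor
    · simp only [branch6, Cmd.LB, h6]
      exact hE rfl
    · simp only [branch6, Cmd.eval, h6]
      simp
  · constructor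
    · simp only [branch6, Cmd.LB, update_self]
      refine ⟨Cmd.LB_clear (by rw [update_self]; exact hX), ?_⟩
      rw [Cmd.eval_clear, hback]
      exact hN (by simp)
    · simp only [branch6, Cmd.eval, update_self]
      rw [Cmd.eval_clear, hback]
      simp
  · constructor
    · simp only [branch6, Cmd.LB, update_self]
      refine ⟨Cmd.LB_clear (by rw [update_self]; exact hX), ?_⟩
      rw [Cmd.eval_clear, hback]
      exact hN (by simp)
    · simp only [branch6, Cmd.eval, update_self]
      rw [Cmd.eval_clear, hback]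
      simp

/-- put `s a` without the first `|s b|` symbols into register `6` -/
def cmpDrop (a b : ℕ) : Cmd := .seq (Cmd.copy a 6 5) (.seq (Cmd.copy b 8 5) (popL 8 6))

theorem cmpDrop_spec {n L : ℕ} {M : List Bool} {s : St} (hs : Good n M d s) {a b : ℕ}
    (ha : 10 ≤ a) (hb : 10 ≤ b) (hal : (s a).length ≤ L) (hbl : (s b).length ≤ L) :
    (cmpDrop a b).LB L s ∧
    (cmpDrop a b).eval s = update s 6 ((s a).drop (s b).length) := by
  have e1 : (Cmd.copy a 6 5).eval s = update s 6 (s a) := by
    rw [Cmd.eval_copy (by omega) (by omega) (by norm_num) hs.h5, hs.h6]; simp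
  have e2 : (Cmd.copy b 8 5).eval (update s 6 (s a)) = update (update s 6 (s a)) 8 (s b) := by
    rw [Cmd.eval_copy (by omega) (by omega) (by norm_num) (by simp [hs.h5])]
    have h1 : b ≠ 6 := by omega
    simp [hs.h8, h1]
  have e3 : (popL 8 6).eval (update (update s 6 (s a)) 8 (s b)) =
      update s 6 ((s a).drop (s b).length) := by
    rw [eval_popL (by norm_num)]
    funext r
    by_cases h1 : r = 6
    · subst h1; simp
    · by_cases h2 : r = 8
      · subst h2; simp [hs.h8]
      · simp [h1, h2]
  constructor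
  · refine ⟨Cmd.LB_copy (by omega) (by omega) (by norm_num) hs.h5 hal, ?_⟩
    rw [e1]
    refine ⟨Cmd.LB_copy (by omega) (by omega) (by norm_num) (by simp [hs.h5]) ?_, ?_⟩
    · have h1 : b ≠ 6 := by omega
      simpa [h1] using hbl
    rw [e2]
    exact LB_popL (by norm_num) (by simpa using hbl)
  · rw [cmpDrop, Cmd.eval_seq, e1, Cmd.eval_seq, e2, e3]

/-- branch on the equality of the lengths of two registers -/
def queryEq (a b : ℕ) (cT cF : Cmd) : Cmd :=
  .seq (cmpDrop a b) (branch6 (.seq (cmpDrop b a) (branch6 cT cF)) cF)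

theorem queryEq_spec {n L : ℕ} {M : List Bool} {s : St} (hs : Good n M d s) {a b : ℕ}
    (ha : 10 ≤ a) (hb : 10 ≤ b) (hal : (s a).length ≤ L) (hbl : (s b).length ≤ L) (cT cF : Cmd)
    (hT : (s a).length = (s b).length → cT.LB L s)
    (hF : (s a).length ≠ (s b).length → cF.LB L s) :
    (queryEq a b cT cF).LB L s ∧ (queryEq a b cT cF).eval s =
      if (s a).length = (s b).length then cT.eval s else cF.eval s := by
  obtain ⟨h1, h2⟩ := cmpDrop_spec hs ha hb hal hbl
  obtain ⟨h3, h4⟩ := cmpDrop_spec hs hb ha hbl hal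
  have key : (s a).length ≤ (s b).length →
      (branch6 cT cF).LB L (update s 6 ((s b).drop (s a).length)) ∧
      (branch6 cT cF).eval (update s 6 ((s b).drop (s a).length)) =
        if (s b).drop (s a).length = [] then cT.eval s else cF.eval s := by
    intro hle
    refine branch6_spec (L := L) hs.h6 (by rw [List.length_drop]; omega) cT cF ?_ ?_
    · intro h
      rw [List.drop_eq_nil_iff] at h
      exact hT (by omega)
    · intro h
      rw [ne_eq, List.drop_eq_nil_iff] at h
      exact hF (by omega)
  obtain ⟨m1, m2⟩ := branch6_spec (L := L) hs.h6 (X := (s a).drop (s b).length)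
    (by rw [List.length_drop]; omega) (.seq (cmpDrop b a) (branch6 cT cF)) cF
    (fun h => by
      rw [List.drop_eq_nil_iff] at h
      refine ⟨h3, ?_⟩
      rw [h4]
      exact (key h).1) (fun h => by
      apply hF
      rw [ne_eq, List.drop_eq_nil_iff] at h
      omega)
  constructor
  · refine ⟨h1, ?_⟩
    rw [h2]
    exact m1
  · rw [queryEq, Cmd.eval_seq, h2, m2]
    by_cases q1 : (s a).length ≤ (s b).length
    · rw [if_pos (by rw [List.drop_eq_nil_iff]; exact q1), Cmd.eval_seq, h4, (key q1).2]
      by_cases q2 : (s b).length ≤ (s a).length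
      · rw [if_pos (by rw [List.drop_eq_nil_iff]; exact q2), if_pos (by omega)]
      · rw [if_neg (by rw [List.drop_eq_nil_iff]; exact q2), if_neg (by omega)]
    · rw [if_neg (by rw [List.drop_eq_nil_iff]; exact q1), if_neg (by omega)]

/-! ### decision trees -/

/-- the register of vertex number `j` -/
def vr (j : ℕ) : ℕ := 10 + 2 * j

inductive Qry
  | adj (i j : ℕ)
  | eq (i j : ℕ)

/-- vertices as numbers -/
def val (s : St) (j : ℕ) : ℕ := (s (vr j)).length

def Qry.ans (n : ℕ) (M : List Bool) (v : ℕ → ℕ) : Qry → Bool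
  | adj i j => bit n M (v i) (v j)
  | eq i j => decide (v i = v j)

/-- evaluate a boolean function of the answers; clear the flag if it is false -/
def tree : List Qry → (List Bool → Bool) → Cmd
  | [], f => if f [] then .nop else Cmd.clear 4
  | .adj i j :: l, f => query (vr i) (vr j) (tree l fun x => f (true :: x))
      (tree l fun x => f (false :: x))
  | .eq i j :: l, f => queryEq (vr i) (vr j) (tree l fun x => f (true :: x))
      (tree l fun x => f (false :: x))

theorem tree_spec {n L : ℕ} {M : List Bool} (hn : n ≤ L) (hM : M.length ≤ L) (hL : 1 ≤ L)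
    {s : St} (hs : Good n M d s) (hv : ∀ j, (s (vr j)).length ≤ L) :
    ∀ (l : List Qry) (f : List Bool → Bool),
    (tree l f).LB L s ∧ (tree l f).eval s =
      if f (l.map (Qry.ans n M (val s))) = true then s else update s 4 []
  | [], f => by
    simp only [tree, List.map_nil]
    cases h : f [] with
    | true => simp [Cmd.LB, Cmd.eval]
    | false =>
      simp only [Bool.false_eq_true, if_false]
      exact ⟨Cmd.LB_clear (hs.h4.trans hL), Cmd.eval_clear 4 s⟩
  | .adj i j :: l, f => by
    have hT := tree_spec hn hM hL hs hv l fun x => f (true :: x)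
    have hF := tree_spec hn hM hL hs hv l fun x => f (false :: x)
    obtain ⟨h1, h2⟩ := query_spec hs (a := vr i) (b := vr j) (by unfold vr; omega)
      (by unfold vr; omega) hn hM (hv i) (hv j) (tree l fun x => f (true :: x))
      (tree l fun x => f (false :: x)) (fun _ => hT.1) (fun _ => hF.1)
    refine ⟨h1, ?_⟩
    rw [tree, h2, hT.2, hF.2, List.map_cons]
    show _ = if f (bit n M (s (vr i)).length (s (vr j)).length :: _) = true then _ else _
    cases hb : bit n M (s (vr i)).length (s (vr j)).length <;> simp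
  | .eq i j :: l, f => by
    have hT := tree_spec hn hM hL hs hv l fun x => f (true :: x)
    have hF := tree_spec hn hM hL hs hv l fun x => f (false :: x)
    obtain ⟨h1, h2⟩ := queryEq_spec hs (a := vr i) (b := vr j) (by unfold vr; omega)
      (by unfold vr; omega) (hv i) (hv j) (tree l fun x => f (true :: x))
      (tree l fun x => f (false :: x)) (fun _ => hT.1) (fun _ => hF.1)
    refine ⟨h1, ?_⟩
    rw [tree, h2, hT.2, hF.2, List.map_cons]
    show _ = if f (decide ((s (vr i)).length = (s (vr j)).length) :: _) = true then _ else _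
    by_cases hb : (s (vr i)).length = (s (vr j)).length <;> simp [hb]

/-! ### syntactic conditions -/

theorem wr_popL {A T r : ℕ} (h1 : r ≠ A) (h2 : r ≠ T) : (popL A T).wr r = false := by
  simp [popL, Cmd.wr, h1, h2]

theorem wr_copy {a b t r : ℕ} (ha : r ≠ a) (hb : r ≠ b) (ht : r ≠ t) :
    (Cmd.copy a b t).wr r = false := by
  simp [Cmd.copy, Cmd.mv, Cmd.mv2, Cmd.wr, ha, hb, ht]

theorem ok_popL {A T : ℕ} (h : A ≠ T) : (popL A T).ok = true := by
  simp [popL, Cmd.ok, Cmd.wr, h]

theorem ok_rowBody : rowBody.ok = true := by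
  have h1 : (Cmd.copy 1 8 5).ok = true := Cmd.ok_copy (by norm_num) (by norm_num)
  have h2 : (popL 8 6).ok = true := ok_popL (by norm_num)
  simp [rowBody, Cmd.ok, h1, h2]

theorem ok_look {a b : ℕ} (ha : 10 ≤ a) (hb : 10 ≤ b) : (look a b).ok = true := by
  have h1 : (Cmd.copy 2 6 5).ok = true := Cmd.ok_copy (by norm_num) (by norm_num)
  have h2 : (Cmd.copy a 7 5).ok = true := Cmd.ok_copy (by omega) (by norm_num)
  have h3 : (Cmd.copy b 8 5).ok = true := Cmd.ok_copy (by omega) (by norm_num)
  have h4 : (popL 8 6).ok = true := ok_popL (by norm_num)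
  have h5 : rowBody.wr 7 = false := by
    simp [rowBody, Cmd.wr, wr_copy, wr_popL]
  simp [look, Cmd.ok, h1, h2, h3, h4, h5, ok_rowBody]

theorem ok_cmpDrop {a b : ℕ} (ha : 10 ≤ a) (hb : 10 ≤ b) : (cmpDrop a b).ok = true := by
  have h2 : (Cmd.copy a 6 5).ok = true := Cmd.ok_copy (by omega) (by norm_num)
  have h3 : (Cmd.copy b 8 5).ok = true := Cmd.ok_copy (by omega) (by norm_num)
  have h4 : (popL 8 6).ok = true := ok_popL (by norm_num)
  simp [cmpDrop, Cmd.ok, h2, h3, h4]

theorem ok_tree : ∀ (l : List Qry) (f : List Bool → Bool), (tree l f).ok = true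
  | [], f => by
    rw [tree]
    split
    · rfl
    · exact Cmd.ok_clear 4
  | .adj i j :: l, f => by
    have h1 := ok_look (a := vr i) (b := vr j) (by unfold vr; omega) (by unfold vr; omega)
    simp [tree, query, Cmd.ok, h1, ok_tree l]
  | .eq i j :: l, f => by
    have h1 := ok_cmpDrop (a := vr i) (b := vr j) (by unfold vr; omega) (by unfold vr; omega)
    have h2 := ok_cmpDrop (a := vr j) (b := vr i) (by unfold vr; omega) (by unfold vr; omega)
    simp [tree, queryEq, branch6, Cmd.ok, h1, h2, ok_tree l]

/-- all queries are about vertices below `m` -/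
def Qry.lt (m : ℕ) : Qry → Prop
  | adj i j => i < m ∧ j < m
  | eq i j => i < m ∧ j < m

theorem wr_look {a b r : ℕ} (hr : 9 ≤ r) (ha : r ≠ a) (hb : r ≠ b) :
    (look a b).wr r = false := by
  have h1 : (Cmd.copy 2 6 5).wr r = false := wr_copy (by omega) (by omega) (by omega)
  have h2 : (Cmd.copy a 7 5).wr r = false := wr_copy ha (by omega) (by omega)
  have h3 : (Cmd.copy b 8 5).wr r = false := wr_copy hb (by omega) (by omega)
  have h4 : (popL 8 6).wr r = false := wr_popL (by omega) (by omega)
  have h5 : (Cmd.copy 1 8 5).wr r = false := wr_copy (by omega) (by omega) (by omega)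
  have h7 : r ≠ 7 := by omega
  simp [look, rowBody, Cmd.wr, h1, h2, h3, h4, h5, h7]

theorem wr_cmpDrop {a b r : ℕ} (hr : 9 ≤ r) (ha : r ≠ a) (hb : r ≠ b) :
    (cmpDrop a b).wr r = false := by
  have h2 : (Cmd.copy a 6 5).wr r = false := wr_copy ha (by omega) (by omega)
  have h3 : (Cmd.copy b 8 5).wr r = false := wr_copy hb (by omega) (by omega)
  have h4 : (popL 8 6).wr r = false := wr_popL (by omega) (by omega)
  simp [cmpDrop, Cmd.wr, h2, h3, h4]

/-- the register is not a vertex register of a vertex number below `m` -/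
theorem wr_tree {m r : ℕ} (hr : 9 ≤ r) (hrv : ∀ j < m, r ≠ vr j) :
    ∀ (l : List Qry) (f : List Bool → Bool), (∀ q ∈ l, q.lt m) → (tree l f).wr r = false
  | [], f, _ => by
    rw [tree]
    split
    · rfl
    · have : r ≠ 4 := by omega
      simp [Cmd.clear, Cmd.wr, this]
  | .adj i j :: l, f, h => by
    have h0 := h (.adj i j) (by simp)
    have h1 := wr_look hr (hrv i h0.1) (hrv j h0.2)
    have h2 : r ≠ 6 := by omega
    have h3 := fun g => wr_tree hr hrv l g fun q hq => h q (by simp [hq])
    simp [tree, query, Cmd.wr, Cmd.clear, h1, h2, h3]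
  | .eq i j :: l, f, h => by
    have h0 := h (.eq i j) (by simp)
    have h1 := wr_cmpDrop hr (hrv i h0.1) (hrv j h0.2)
    have h1' := wr_cmpDrop hr (hrv j h0.2) (hrv i h0.1)
    have h2 : r ≠ 6 := by omega
    have h3 := fun g => wr_tree hr hrv l g fun q hq => h q (by simp [hq])
    simp [tree, queryEq, branch6, Cmd.wr, Cmd.clear, h1, h1', h2, h3]

end Pool.Agent.Helper76.Prog
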