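import Pool.Agent.Helper76.Prog2

/-!
Universal quantification over vertices.
-/

namespace Pool.Agent.Helper76.Prog

open Function Pool.Agent.Helper72

variable {d : List Bool}

/-- clear the answer flag unless `P` holds -/
noncomputable def flg (P : Prop) (s : St) : St := by
  classical exact if P then s else update s 4 []

theorem flg_true {P : Prop} (h : P) (s : St) : flg P s = s := by simp [flg, h]
theorem flg_false {P : Prop} (h : ¬ P) (s : St) : flg P s = update s 4 [] := by simp [flg, h]

theorem flg_of_ne {P : Prop} {s : St} {r : ℕ} (hr : r ≠ 4) : flg P s r = s r := by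
  by_cases h : P
  · rw [flg_true h]
  · rw [flg_false h, update_of_ne hr]

theorem Good.flg {n : ℕ} {M : List Bool} {s : St} (hs : Good n M d s) (P : Prop) :
    Good n M d (flg P s) := by
  refine ⟨?_, ?_, ?_, ?_, ?_, ?_, ?_, ?_⟩
  · rw [flg_of_ne (by norm_num)]; exact hs.h1
  · rw [flg_of_ne (by norm_num)]; exact hs.h2
  · rw [flg_of_ne (by norm_num)]; exact hs.h3
  · by_cases h : P
    · rw [flg_true h]; exact hs.h4
    · rw [flg_false h]; simp
  · rw [flg_of_ne (by norm_num)]; exact hs.h5
  · rw [flg_of_ne (by norm_num)]; exact hs.h6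
  · rw [flg_of_ne (by norm_num)]; exact hs.h7
  · rw [flg_of_ne (by norm_num)]; exact hs.h8

theorem Good.upd {n : ℕ} {M : List Bool} {s : St} (hs : Good n M d s) {r : ℕ} (hr : 9 ≤ r)
    (w : List Bool) : Good n M d (update s r w) := by
  refine ⟨?_, ?_, ?_, ?_, ?_, ?_, ?_, ?_⟩
  · rw [update_of_ne (by omega)]; exact hs.h1
  · rw [update_of_ne (by omega)]; exact hs.h2
  · rw [update_of_ne (by omega)]; exact hs.h3
  · rw [update_of_ne (by omega)]; exact hs.h4
  · rw [update_of_ne (by omega)]; exact hs.h5
  · rw [update_of_ne (by omega)]; exact hs.h6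
  · rw [update_of_ne (by omega)]; exact hs.h7
  · rw [update_of_ne (by omega)]; exact hs.h8

/-- specification of a check at level `m` -/
def Sp (n : ℕ) (M d : List Bool) (L m : ℕ) (c : Cmd) (Q : (ℕ → ℕ) → Prop) : Prop :=
  ∀ s, Good n M d s → (∀ r, vr m ≤ r → s r = []) → (∀ j, (s (vr j)).length ≤ n) →
    c.LB L s ∧ c.eval s = flg (Q (val s)) s

theorem tree_Sp {n L m : ℕ} {M : List Bool} (hn : n ≤ L) (hM : M.length ≤ L) (hL : 1 ≤ L)
    (l : List Qry) (f : List Bool → Bool) :
    Sp n M d L m (tree l f) (fun v => f (l.map (Qry.ans n M v)) = true) := by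
  intro s hs _ hv
  obtain ⟨h1, h2⟩ := tree_spec hn hM hL hs (fun j => (hv j).trans hn) l f
  refine ⟨h1, ?_⟩
  rw [h2]
  by_cases h : f (l.map (Qry.ans n M (val s))) = true
  · rw [flg_true h, if_pos h]
  · rw [flg_false h, if_neg h]

/-- the body of the loop of a quantifier -/
def allB (m : ℕ) (c : Cmd) : Cmd := .seq c (.push (vr m) true)

/-- quantify over vertex number `m` -/
def allV (m : ℕ) (c : Cmd) : Cmd :=
  .seq (Cmd.copy 1 (vr m + 1) 5) (.seq (.loop (vr m + 1) (allB m c) (allB m c))
    (Cmd.clear (vr m)))

theorem val_odd (s : St) (m : ℕ) (w : List Bool) : val (update s (vr m + 1) w) = val s := by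
  funext j
  unfold val
  rw [update_of_ne (by unfold vr; omega)]

theorem val_vr (s : St) (m : ℕ) (w : List Bool) :
    val (update s (vr m) w) = update (val s) m w.length := by
  funext j
  unfold val
  by_cases h : j = m
  · subst h; simp
  · rw [update_of_ne (by unfold vr; omega), update_of_ne h]

theorem val_flg (P : Prop) (s : St) : val (flg P s) = val s := by
  funext j
  unfold val
  rw [flg_of_ne (by unfold vr; omega)]

theorem flg_flg (P Q : Prop) (s : St) : flg P (flg Q s) = flg (P ∧ Q) s := by
  by_cases hP : P <;> by_cases hQ : Q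
  · rw [flg_true hP, flg_true hQ, flg_true ⟨hP, hQ⟩]
  · rw [flg_true hP, flg_false hQ, flg_false (fun h => hQ h.2)]
  · rw [flg_false hP, flg_true hQ, flg_false (fun h => hP h.1)]
  · rw [flg_false hP, flg_false hQ, flg_false (fun h => hP h.1), update_idem]

theorem flg_update (P : Prop) (s : St) {r : ℕ} (hr : r ≠ 4) (w : List Bool) :
    flg P (update s r w) = update (flg P s) r w := by
  by_cases hP : P
  · rw [flg_true hP, flg_true hP]
  · rw [flg_false hP, flg_false hP, update_comm hr.symm]

theorem allV_loop {n L m : ℕ} {M : List Bool} {c : Cmd} {Q : (ℕ → ℕ) → Prop}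
    (hc : Sp n M d L (m + 1) c Q) : ∀ (l : List Bool) (i : ℕ) (s : St), i + l.length = n →
    Good n M d s → (∀ r, vr (m + 1) ≤ r → s r = []) → (∀ j, (s (vr j)).length ≤ n) →
    s (vr m + 1) = l → s (vr m) = un i →
    loopEval (fun x => if x then (allB m c).eval else (allB m c).eval) (vr m + 1) l s
      = update (update (flg (∀ i', i ≤ i' → i' < n → Q (update (val s) m i')) s)
          (vr m + 1) []) (vr m) (un n) ∧
    loopLB (fun x => if x then (allB m c).eval else (allB m c).eval)
      (fun x => if x then (allB m c).LB L else (allB m c).LB L) (vr m + 1) l s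
  | [], i, s, hi, hs, _, _, hy, hx => by
    have hi : i = n := by simpa using hi
    subst hi
    constructor
    · have h0 : ∀ i', i ≤ i' → i' < i → Q (update (val s) m i') := by intros; omega
      rw [flg_true h0]
      rw [loopEval]
      funext r
      by_cases h1 : r = vr m
      · subst h1; rw [update_self, hx]
      · rw [update_of_ne h1]
        by_cases h2 : r = vr m + 1
        · subst h2; rw [update_self, hy]
        · rw [update_of_ne h2]
    · trivial
  | b :: l, i, s, hi, hs, hr, hv, hy, hx => by
    have hlen : i + 1 + l.length = n := by simp only [List.length_cons] at hi; omega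
    set s1 := update s (vr m + 1) l with hs1
    have g1 : Good n M d s1 := hs.upd (by unfold vr; omega) l
    have r1 : ∀ r, vr (m + 1) ≤ r → s1 r = [] := by
      intro r h
      rw [hs1, update_of_ne (by unfold vr at h ⊢; omega)]
      exact hr r h
    have v1 : ∀ j, (s1 (vr j)).length ≤ n := by
      intro j
      rw [hs1, update_of_ne (by unfold vr; omega)]
      exact hv j
    obtain ⟨c1, c2⟩ := hc s1 g1 r1 v1
    have hval1 : val s1 = val s := val_odd _ _ _
    rw [hval1] at c2
    have hvals : val s = update (val s) m i := by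
      funext j
      by_cases h : j = m
      · subst h; simp [val, hx]
      · rw [update_of_ne h]
    set s2 := update (flg (Q (val s)) s1) (vr m) (un (i + 1)) with hs2
    have hbody : (allB m c).eval s1 = s2 := by
      rw [allB, Cmd.eval_seq, c2, Cmd.eval_push, hs2]
      congr 1
      rw [flg_of_ne (by unfold vr; omega), hs1, update_of_ne (by omega), hx]
      rfl
    have hb : (if b = true then (allB m c).eval else (allB m c).eval) s1 = s2 := by
      cases b <;> simpa using hbody
    have g2 : Good n M d s2 := (g1.flg _).upd (by unfold vr; omega) _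
    have r2 : ∀ r, vr (m + 1) ≤ r → s2 r = [] := by
      intro r h
      rw [hs2, update_of_ne (by unfold vr at h ⊢; omega),
        flg_of_ne (by unfold vr at h; omega)]
      exact r1 r h
    have v2 : ∀ j, (s2 (vr j)).length ≤ n := by
      intro j
      by_cases h : j = m
      · subst h
        rw [hs2, update_self]
        simp; omega
      · rw [hs2, update_of_ne (by unfold vr; omega), flg_of_ne (by unfold vr; omega)]
        exact v1 j
    obtain ⟨k1, k2⟩ := allV_loop hc l (i + 1) s2 hlen g2 r2 v2
      (by rw [hs2, update_of_ne (by omega), flg_of_ne (by unfold vr; omega), hs1, update_self])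
      (by rw [hs2, update_self])
    have hval2 : ∀ i', update (val s2) m i' = update (val s) m i' := by
      intro i'
      rw [hs2, val_vr, val_flg, hval1, update_idem]
    constructor
    · rw [loopEval, ← hs1, hb, k1]
      have e1 : (∀ i', i + 1 ≤ i' → i' < n → Q (update (val s2) m i')) =
          (∀ i', i + 1 ≤ i' → i' < n → Q (update (val s) m i')) := by
        simp only [hval2]
      rw [e1, hs2, flg_update _ _ (by unfold vr; omega), flg_flg, hs1,
        flg_update _ _ (by unfold vr; omega)]
      have e2 : ((∀ i', i + 1 ≤ i' → i' < n → Q (update (val s) m i')) ∧ Q (val s)) =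
          (∀ i', i ≤ i' → i' < n → Q (update (val s) m i')) := by
        apply propext
        constructor
        · rintro ⟨h1, h2⟩ i' h3 h4
          rcases Nat.eq_or_lt_of_le h3 with rfl | h5
          · rw [← hvals]; exact h2
          · exact h1 i' h5 h4
        · intro h
          refine ⟨fun i' h1 h2 => h i' (by omega) h2, ?_⟩
          rw [hvals]
          exact h i le_rfl (by omega)
      rw [e2]
      funext r
      by_cases h1 : r = vr m
      · subst h1; simp
      · rw [update_of_ne h1, update_of_ne h1]
        by_cases h2 : r = vr m + 1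
        · subst h2; simp
        · rw [update_of_ne h2, update_of_ne h2, update_of_ne h1, update_of_ne h2]
    · constructor
      · show (if b = true then (allB m c).LB L else (allB m c).LB L) s1
        have : (allB m c).LB L s1 := ⟨c1, trivial⟩
        cases b <;> simpa using this
      · show loopLB _ _ _ _ ((if b = true then (allB m c).eval else (allB m c).eval) s1)
        rw [hb]; exact k2

theorem allV_Sp {n L m : ℕ} {M : List Bool} {c : Cmd} {Q : (ℕ → ℕ) → Prop} (hn : n ≤ L)
    (hc : Sp n M d L (m + 1) c Q) :
    Sp n M d L m (allV m c) (fun v => ∀ i < n, Q (update v m i)) := by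
  intro s hs hr hv
  have hy : s (vr m + 1) = [] := hr _ (by omega)
  have hx : s (vr m) = [] := hr _ le_rfl
  have e1 : (Cmd.copy 1 (vr m + 1) 5).eval s = update s (vr m + 1) (un n) := by
    rw [Cmd.eval_copy (by unfold vr; omega) (by norm_num) (by unfold vr; omega) hs.h5, hs.h1, hy]
    simp
  obtain ⟨k1, k2⟩ := allV_loop hc (un n) 0 (update s (vr m + 1) (un n)) (by simp)
    (hs.upd (by unfold vr; omega) _) (by
      intro r h
      rw [update_of_ne (by unfold vr at h ⊢; omega)]
      exact hr r (by unfold vr at h ⊢; omega)) (by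
      intro j
      rw [update_of_ne (by unfold vr; omega)]
      exact hv j) (by simp) (by rw [update_of_ne (by omega), hx]; rfl)
  have e2 : (Cmd.loop (vr m + 1) (allB m c) (allB m c)).eval (update s (vr m + 1) (un n)) =
      loopEval (fun x => if x then (allB m c).eval else (allB m c).eval) (vr m + 1) (un n)
        (update s (vr m + 1) (un n)) := by
    show loopEval _ _ ((update s (vr m + 1) (un n)) (vr m + 1)) _ = _
    rw [update_self]
  have hval : val (update s (vr m + 1) (un n)) = val s := val_odd _ _ _
  constructor
  · refine ⟨Cmd.LB_copy (by unfold vr; omega) (by norm_num) (by unfold vr; omega) hs.h5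
      (by rw [hs.h1]; simpa using hn), ?_⟩
    rw [e1]
    refine ⟨⟨by rw [update_self]; simpa using hn, ?_⟩, ?_⟩
    · rw [update_self]
      exact k2
    · rw [e2, k1]
      refine Cmd.LB_clear ?_
      rw [update_self]
      simpa using hn
  · rw [allV, Cmd.eval_seq, e1, Cmd.eval_seq, e2, k1, Cmd.eval_clear, hval]
    have e3 : (∀ i', 0 ≤ i' → i' < n → Q (update (val s) m i')) =
        (∀ i < n, Q (update (val s) m i)) := by
      apply propext
      exact ⟨fun h i hi => h i (by omega) hi, fun h i _ hi => h i hi⟩
    rw [e3, flg_update _ _ (by unfold vr; omega)]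
    funext r
    by_cases h1 : r = vr m
    · subst h1
      rw [update_self, flg_of_ne (by unfold vr; omega), hx]
    · rw [update_of_ne h1, update_of_ne h1]
      by_cases h2 : r = vr m + 1
      · subst h2
        rw [update_self, flg_of_ne (by unfold vr; omega), hy]
      · rw [update_of_ne h2, update_of_ne h2]

/-- quantify over the vertices number `m, ..., m + d - 1` -/
def allN : ℕ → ℕ → Cmd → Cmd
  | _, 0, c => c
  | m, d + 1, c => allV m (allN (m + 1) d c)

theorem allN_Sp {n L : ℕ} {M : List Bool} (hn : n ≤ L) : ∀ (D m : ℕ) (c : Cmd)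
    (Q : (ℕ → ℕ) → Prop), Sp n M d L (m + D) c Q →
    Sp n M d L m (allN m D c) (fun v => ∀ w : ℕ → ℕ, (∀ j, j < m ∨ m + D ≤ j → w j = v j) →
      (∀ j, m ≤ j → j < m + D → w j < n) → Q w)
  | 0, m, c, Q, hc => by
    intro s hs hr hv
    obtain ⟨h1, h2⟩ := hc s hs hr hv
    refine ⟨h1, ?_⟩
    show c.eval s = _
    rw [h2]
    congr 1
    apply propext
    constructor
    · intro h w hw _
      have : w = val s := by
        funext j
        exact hw j (by omega)
      rw [this]; exact h
    · intro h
      exact h _ (fun _ _ => rfl) (fun j _ _ => by omega)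
  | D + 1, m, c, Q, hc => by
    have hc' : Sp n M d L (m + 1 + D) c Q := by
      have e : m + 1 + D = m + (D + 1) := by ring
      rw [e]; exact hc
    have ih := allV_Sp hn (allN_Sp hn D (m + 1) c Q hc')
    intro s hs hr hv
    obtain ⟨h1, h2⟩ := ih s hs hr hv
    refine ⟨h1, ?_⟩
    show (allV m (allN (m + 1) D c)).eval s = _
    rw [h2]
    congr 1
    apply propext
    constructor
    · intro h w hw hw2
      refine h (w m) (hw2 m le_rfl (by omega)) w ?_ ?_
      · intro j hj
        by_cases hjm : j = m
        · subst hjm; simp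
        · rw [update_of_ne hjm]; exact hw j (by omega)
      · intro j h3 h4
        exact hw2 j (by omega) (by omega)
    · intro h i hi w hw hw2
      refine h w ?_ ?_
      · intro j hj
        have hjm : j ≠ m := by omega
        have := hw j (by omega)
        rwa [update_of_ne hjm] at this
      · intro j h3 h4
        by_cases hjm : j = m
        · subst hjm
          have := hw j (by omega)
          rw [update_self] at this
          omega
        · exact hw2 j (by omega) (by omega)

/-! ### syntactic conditions -/

theorem wr_allV {m r : ℕ} {c : Cmd} (h5 : r ≠ 5) (h1 : r ≠ 1) (h2 : r ≠ vr m)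
    (h3 : r ≠ vr m + 1) (hc : c.wr r = false) : (allV m c).wr r = false := by
  have h4 : (Cmd.copy 1 (vr m + 1) 5).wr r = false := wr_copy h1 h3 h5
  simp [allV, allB, Cmd.wr, Cmd.clear, h2, h3, h4, hc]

theorem ok_allV {m : ℕ} {c : Cmd} (hc : c.ok = true) (hw : c.wr (vr m + 1) = false) :
    (allV m c).ok = true := by
  have h1 : (Cmd.copy 1 (vr m + 1) 5).ok = true := Cmd.ok_copy (by norm_num) (by unfold vr; omega)
  simp [allV, allB, Cmd.ok, Cmd.wr, h1, hc, hw]

/-- registers not written by `allN m d c` -/
theorem wr_allN {r : ℕ} (h5 : r ≠ 5) (h1 : r ≠ 1) : ∀ (d m : ℕ) (c : Cmd), (r < vr m) →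
    c.wr r = false → (allN m d c).wr r = false
  | 0, _, _, _, hc => hc
  | d + 1, m, c, hr, hc => by
    refine wr_allV h5 h1 (by omega) (by omega) (wr_allN h5 h1 d (m + 1) c ?_ hc)
    unfold vr at hr ⊢
    omega

theorem ok_allN : ∀ (d m : ℕ) (c : Cmd), c.ok = true →
    (∀ j, m ≤ j → j < m + d → c.wr (vr j + 1) = false) → (allN m d c).ok = true
  | 0, _, _, hc, _ => hc
  | d + 1, m, c, hc, hw => by
    refine ok_allV (ok_allN d (m + 1) c hc fun j h1 h2 => hw j (by omega) (by omega)) ?_
    refine wr_allN (by unfold vr; omega) (by unfold vr; omega) d (m + 1) c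
      (by unfold vr; omega) (hw m le_rfl (by omega))

end Pool.Agent.Helper76.Prog
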