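import Pool.Agent.Helper76.Prog3

/-!
Counting common neighbours.
-/

namespace Pool.Agent.Helper76.Prog

open Function Pool.Agent.Helper72

variable {d : List Bool}

/-- one step of the count: if vertex 2 is a common neighbour of vertices 0 and 1, use up one
symbol of register 17; clear the flag if there is none left -/
def cq : Cmd := query (vr 0) (vr 2) (query (vr 1) (vr 2) (.ite 17 (Cmd.clear 4) (.pop 17) (.pop 17))
  .nop) .nop

/-- common neighbour -/
def com (n : ℕ) (M : List Bool) (v : ℕ → ℕ) (x : ℕ) : Bool :=
  bit n M (v 0) x && bit n M (v 1) x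

theorem cq_spec {n L : ℕ} {M : List Bool} {s : St} (hs : Good n M d s) (hn : n ≤ L)
    (hM : M.length ≤ L) (hL : 1 ≤ L) (hv : ∀ j, (s (vr j)).length ≤ n) :
    cq.LB L s ∧ cq.eval s = if com n M (val s) (s (vr 2)).length then
      (if s 17 = [] then update s 4 [] else update s 17 (s 17).tail) else s := by
  have hin : (Cmd.ite 17 (Cmd.clear 4) (.pop 17) (.pop 17)).LB L s ∧
      (Cmd.ite 17 (Cmd.clear 4) (.pop 17) (.pop 17)).eval s =
      (if s 17 = [] then update s 4 [] else update s 17 (s 17).tail) := by
    rcases h9 : s 17 with _ | ⟨_ | _, l⟩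
    · constructor
      · simp only [Cmd.LB, h9]
        exact Cmd.LB_clear (hs.h4.trans hL)
      · simp only [Cmd.eval, h9]
        rw [Cmd.eval_clear]; simp
    · constructor
      · simp only [Cmd.LB, h9]
      · simp only [Cmd.eval, h9]; simp
    · constructor
      · simp only [Cmd.LB, h9]
      · simp only [Cmd.eval, h9]; simp
  obtain ⟨h1, h2⟩ := query_spec hs (a := vr 1) (b := vr 2) (by unfold vr; omega)
    (by unfold vr; omega) hn hM ((hv 1).trans hn) ((hv 2).trans hn)
    (.ite 17 (Cmd.clear 4) (.pop 17) (.pop 17)) .nop (fun _ => hin.1) (fun _ => trivial)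
  obtain ⟨h3, h4⟩ := query_spec hs (a := vr 0) (b := vr 2) (by unfold vr; omega)
    (by unfold vr; omega) hn hM ((hv 0).trans hn) ((hv 2).trans hn)
    (query (vr 1) (vr 2) (.ite 17 (Cmd.clear 4) (.pop 17) (.pop 17)) .nop) .nop
    (fun _ => h1) (fun _ => trivial)
  refine ⟨h3, ?_⟩
  rw [cq, h4, h2, hin.2]
  have e : com n M (val s) (s (vr 2)).length =
      (bit n M (s (vr 0)).length (s (vr 2)).length &&
        bit n M (s (vr 1)).length (s (vr 2)).length) := rfl
  rw [e]
  cases bit n M (s (vr 0)).length (s (vr 2)).length <;>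
    cases bit n M (s (vr 1)).length (s (vr 2)).length <;> simp

/-- number of `x` with `i ≤ x < i + l` and `P x` -/
def cntF (P : ℕ → Bool) : ℕ → ℕ → ℕ
  | _, 0 => 0
  | i, l + 1 => (if P i then 1 else 0) + cntF P (i + 1) l

theorem cnt_loop {n L : ℕ} {M : List Bool} (hn : n ≤ L) (hM : M.length ≤ L) (hL : 1 ≤ L)
    (v0 : ℕ → ℕ) : ∀ (l : List Bool) (i : ℕ) (w : List Bool) (s : St), i + l.length = n →
    Good n M d s → (∀ j, (s (vr j)).length ≤ n) →
    s (vr 2 + 1) = l → s (vr 2) = un i → s 17 = w → val s 0 = v0 0 → val s 1 = v0 1 →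
    loopEval (fun x => if x then (allB 2 cq).eval else (allB 2 cq).eval) (vr 2 + 1) l s
      = update (update (update (flg (cntF (com n M v0) i l.length ≤ w.length) s)
          (vr 2 + 1) []) (vr 2) (un n)) 17 (w.drop (cntF (com n M v0) i l.length)) ∧
    loopLB (fun x => if x then (allB 2 cq).eval else (allB 2 cq).eval)
      (fun x => if x then (allB 2 cq).LB L else (allB 2 cq).LB L) (vr 2 + 1) l s
  | [], i, w, s, hi, hs, hv, hy, hx, h9, _, _ => by
    have hi : i = n := by simpa using hi
    subst hi
    constructor
    · rw [flg_true (by simp [cntF])]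
      rw [loopEval]
      funext r
      by_cases h0 : r = 17
      · subst h0; simp [cntF, h9]
      · rw [update_of_ne h0]
        by_cases h1 : r = vr 2
        · subst h1; rw [update_self, hx]
        · rw [update_of_ne h1]
          by_cases h2 : r = vr 2 + 1
          · subst h2; rw [update_self, hy]
          · rw [update_of_ne h2]
    · trivial
  | b :: l, i, w, s, hi, hs, hv, hy, hx, h9, hv0, hv1 => by
    have hlen : i + 1 + l.length = n := by simp only [List.length_cons] at hi; omega
    set s1 := update s (vr 2 + 1) l with hs1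
    have g1 : Good n M d s1 := hs.upd (by unfold vr; omega) l
    have v1 : ∀ j, (s1 (vr j)).length ≤ n := by
      intro j
      rw [hs1, update_of_ne (by unfold vr; omega)]
      exact hv j
    obtain ⟨c1, c2⟩ := cq_spec g1 hn hM hL v1
    have hval1 : val s1 = val s := val_odd _ _ _
    have h92 : (17 : ℕ) ≠ vr 2 + 1 := by unfold vr; omega
    have h93 : (17 : ℕ) ≠ vr 2 := by unfold vr; omega
    have e9 : s1 17 = w := by rw [hs1, update_of_ne h92, h9]
    have ex : (s1 (vr 2)).length = i := by
      rw [hs1, update_of_ne (by omega), hx]; simp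
    have ecom : com n M (val s1) (s1 (vr 2)).length = com n M v0 i := by
      rw [ex, hval1]
      show (bit n M (val s 0) i && bit n M (val s 1) i) = _
      rw [hv0, hv1]; rfl
    rw [ecom, e9] at c2
    -- the number of symbols used now
    set q : ℕ := if com n M v0 i then 1 else 0 with hq
    set s2 := update (update (flg (q ≤ w.length) s1) 17 (w.drop q)) (vr 2) (un (i + 1)) with hs2
    have hbody : (allB 2 cq).eval s1 = s2 := by
      rw [allB, Cmd.eval_seq, c2, Cmd.eval_push, hs2]
      have hxx : ∀ t : St, t (vr 2) = un i → update t (vr 2) (true :: t (vr 2)) =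
          update t (vr 2) (un (i + 1)) := by
        intro t ht
        rw [ht]; rfl
      have e2 : s1 (vr 2) = un i := by rw [hs1, update_of_ne (by omega), hx]
      have h4 : (vr 2 : ℕ) ≠ 4 := by unfold vr; omega
      by_cases hc : com n M v0 i = true
      · have hq1 : q = 1 := by rw [hq, if_pos hc]
        rw [if_pos hc]
        by_cases hw : w = []
        · subst hw
          rw [if_pos rfl, hxx _ (by rw [update_of_ne h4]; exact e2)]
          rw [flg_false (by simp [hq1])]
          congr 1
          funext r
          by_cases h0 : r = 17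
          · subst h0
            rw [update_self, update_of_ne (by norm_num), e9]; simp
          · rw [update_of_ne h0]
        · rw [if_neg hw, hxx _ (by rw [update_of_ne h93.symm]; exact e2)]
          rw [flg_true (by
            rw [hq1]
            exact List.length_pos_iff.2 hw)]
          rw [hq1, List.drop_one]
      · have hq0 : q = 0 := by rw [hq, if_neg hc]
        rw [if_neg hc, hxx _ e2, flg_true (by simp [hq0]), hq0, List.drop_zero]
        congr 1
        rw [← e9, update_eq_self]
    have hb : (if b = true then (allB 2 cq).eval else (allB 2 cq).eval) s1 = s2 := by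
      cases b <;> simpa using hbody
    have g2 : Good n M d s2 := ((g1.flg _).upd (by norm_num) _).upd (by unfold vr; omega) _
    have hval2 : ∀ j, j ≠ 2 → val s2 j = val s j := by
      intro j hj
      unfold val
      rw [hs2, update_of_ne (by unfold vr; omega), update_of_ne (by unfold vr; omega),
        flg_of_ne (by unfold vr; omega), hs1, update_of_ne (by unfold vr; omega)]
    have v2 : ∀ j, (s2 (vr j)).length ≤ n := by
      intro j
      by_cases h : j = 2
      · subst h
        rw [hs2, update_self]
        simp; omega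
      · exact (hval2 j h).le.trans (hv j)
    obtain ⟨k1, k2⟩ := cnt_loop hn hM hL v0 l (i + 1) (w.drop q) s2 hlen g2 v2
      (by rw [hs2, update_of_ne (by omega), update_of_ne h92.symm, flg_of_ne (by unfold vr; omega),
        hs1, update_self])
      (by rw [hs2, update_self])
      (by rw [hs2, update_of_ne h93, update_self])
      (by rw [hval2 0 (by norm_num), hv0]) (by rw [hval2 1 (by norm_num), hv1])
    have ecnt : cntF (com n M v0) i (b :: l).length =
        q + cntF (com n M v0) (i + 1) l.length := rfl
    constructor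
    · rw [loopEval, ← hs1, hb, k1, ecnt]
      rw [hs2, flg_update _ _ (by unfold vr; omega), flg_update _ _ (by norm_num), flg_flg, hs1,
        flg_update _ _ (by unfold vr; omega)]
      have e2 : (cntF (com n M v0) (i + 1) l.length ≤ (List.drop q w).length ∧ q ≤ w.length) =
          (q + cntF (com n M v0) (i + 1) l.length ≤ w.length) := by
        apply propext
        rw [List.length_drop]
        omega
      rw [e2]
      funext r
      by_cases h0 : r = 17
      · subst h0; simp [List.drop_drop]
      · rw [update_of_ne h0, update_of_ne h0]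
        by_cases h1 : r = vr 2
        · subst h1; simp
        · rw [update_of_ne h1, update_of_ne h1]
          by_cases h2 : r = vr 2 + 1
          · subst h2; simp
          · rw [update_of_ne h2, update_of_ne h2, update_of_ne h1, update_of_ne h0,
              update_of_ne h2]
    · constructor
      · show (if b = true then (allB 2 cq).LB L else (allB 2 cq).LB L) s1
        have : (allB 2 cq).LB L s1 := ⟨c1, trivial⟩
        cases b <;> simpa using this
      · show loopLB _ _ _ _ ((if b = true then (allB 2 cq).eval else (allB 2 cq).eval) s1)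
        rw [hb]; exact k2

/-- if the vertices 0 and 1 are adjacent, they have at most as many common neighbours as there
are symbols in register 3 -/
def cntC : Cmd := query (vr 0) (vr 1) (.seq (Cmd.copy 3 17 5) (.seq (allV 2 cq) (Cmd.clear 17)))
  .nop

theorem cntC_Sp {n L : ℕ} {M : List Bool} (hn : n ≤ L) (hM : M.length ≤ L) (hL : 1 ≤ L)
    (hd : d.length ≤ L) :
    Sp n M d L 2 cntC (fun v => bit n M (v 0) (v 1) = true →
      cntF (com n M v) 0 n ≤ d.length) := by
  intro s hs hr hv
  have h17 : s 17 = [] := hr _ (by unfold vr; omega)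
  have hx : s (vr 2) = [] := hr _ le_rfl
  have hy : s (vr 2 + 1) = [] := hr _ (by omega)
  set t0 := update s 17 d with ht0
  have e0 : (Cmd.copy 3 17 5).eval s = t0 := by
    rw [Cmd.eval_copy (by norm_num) (by norm_num) (by norm_num) hs.h5, hs.h3, h17]
    simp [ht0]
  have g0 : Good n M d t0 := hs.upd (by norm_num) _
  set t1 := update t0 (vr 2 + 1) (un n) with ht1
  have e1 : (Cmd.copy 1 (vr 2 + 1) 5).eval t0 = t1 := by
    rw [Cmd.eval_copy (by unfold vr; omega) (by norm_num) (by unfold vr; omega) g0.h5, g0.h1]
    rw [ht0, update_of_ne (by unfold vr; omega), hy]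
    simp [ht1, ht0]
  have g1 : Good n M d t1 := g0.upd (by unfold vr; omega) _
  have v1 : ∀ j, (t1 (vr j)).length ≤ n := by
    intro j
    rw [ht1, update_of_ne (by unfold vr; omega), ht0, update_of_ne (by unfold vr; omega)]
    exact hv j
  have hval : ∀ j, val t1 j = val s j := by
    intro j
    unfold val
    rw [ht1, update_of_ne (by unfold vr; omega), ht0, update_of_ne (by unfold vr; omega)]
  obtain ⟨k1, k2⟩ := cnt_loop hn hM hL (val s) (un n) 0 d t1 (by simp) g1 v1
    (by rw [ht1, update_self]) (by
      rw [ht1, update_of_ne (by omega), ht0, update_of_ne (by unfold vr; omega), hx]; rfl)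
    (by rw [ht1, update_of_ne (by unfold vr; omega), ht0, update_self]) (hval 0) (hval 1)
  set P := cntF (com n M (val s)) 0 (un n).length ≤ d.length with hP
  set t2 := update (update (update (flg P t1) (vr 2 + 1) []) (vr 2) (un n)) 17
    (d.drop (cntF (com n M (val s)) 0 (un n).length)) with ht2
  have e2 : (Cmd.loop (vr 2 + 1) (allB 2 cq) (allB 2 cq)).eval t1 = t2 := by
    rw [← k1]
    show loopEval _ _ (t1 (vr 2 + 1)) _ = _
    rw [ht1, update_self]
  have h1 : (Cmd.seq (Cmd.copy 3 17 5) (.seq (allV 2 cq) (Cmd.clear 17))).LB L s ∧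
      (Cmd.seq (Cmd.copy 3 17 5) (.seq (allV 2 cq) (Cmd.clear 17))).eval s = flg P s := by
    constructor
    · refine ⟨Cmd.LB_copy (by norm_num) (by norm_num) (by norm_num) hs.h5
        (by rw [hs.h3]; exact hd), ?_⟩
      rw [e0]
      refine ⟨⟨Cmd.LB_copy (by unfold vr; omega) (by norm_num) (by unfold vr; omega) g0.h5
        (by rw [g0.h1]; simpa using hn), ?_⟩, ?_⟩
      · rw [e1]
        refine ⟨⟨by rw [ht1, update_self]; simpa using hn, ?_⟩, ?_⟩
        · have : t1 (vr 2 + 1) = un n := by rw [ht1, update_self]
          rw [this]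
          exact k2
        · rw [e2]
          refine Cmd.LB_clear ?_
          rw [ht2, update_of_ne (by unfold vr; omega), update_self]
          simpa using hn
      · refine Cmd.LB_clear ?_
        rw [allV, Cmd.eval_seq, e1, Cmd.eval_seq, e2, Cmd.eval_clear,
          update_of_ne (by unfold vr; omega), ht2, update_self, List.length_drop]
        omega
    · rw [Cmd.eval_seq, e0, Cmd.eval_seq, allV, Cmd.eval_seq, e1, Cmd.eval_seq, e2,
        Cmd.eval_clear, Cmd.eval_clear, ht2, ht1, ht0, flg_update _ _ (by unfold vr; omega),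
        flg_update _ _ (by norm_num)]
      funext r
      by_cases h0 : r = 17
      · subst h0
        rw [update_self, flg_of_ne (by norm_num), h17]
      · rw [update_of_ne h0]
        by_cases h1 : r = vr 2
        · subst h1
          rw [update_self, flg_of_ne (by unfold vr; omega), hx]
        · rw [update_of_ne h1, update_of_ne h0, update_of_ne h1]
          by_cases h2 : r = vr 2 + 1
          · subst h2
            rw [update_self, flg_of_ne (by unfold vr; omega), hy]
          · rw [update_of_ne h2, update_of_ne h2, update_of_ne h0]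
  obtain ⟨m1, m2⟩ := query_spec hs (a := vr 0) (b := vr 1) (by unfold vr; omega)
    (by unfold vr; omega) hn hM ((hv 0).trans hn) ((hv 1).trans hn)
    (.seq (Cmd.copy 3 17 5) (.seq (allV 2 cq) (Cmd.clear 17))) .nop (fun _ => h1.1)
    (fun _ => trivial)
  refine ⟨m1, ?_⟩
  rw [cntC, m2, h1.2]
  show (if bit n M (val s 0) (val s 1) = true then flg P s else s) =
    flg (bit n M (val s 0) (val s 1) = true → cntF (com n M (val s)) 0 n ≤ d.length) s
  have hPP : P = (cntF (com n M (val s)) 0 n ≤ d.length) := by
    rw [hP]; simp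
  rw [← hPP]
  by_cases hb : bit n M (val s 0) (val s 1) = true
  · rw [if_pos hb]
    congr 1
    exact propext ⟨fun h _ => h, fun h => h hb⟩
  · rw [if_neg hb, flg_true (fun h => absurd h hb)]

theorem ok_cq : cq.ok = true := by
  have h1 := ok_look (a := vr 0) (b := vr 2) (by unfold vr; omega) (by unfold vr; omega)
  have h2 := ok_look (a := vr 1) (b := vr 2) (by unfold vr; omega) (by unfold vr; omega)
  simp [cq, query, Cmd.ok, h1, h2]

theorem wr_cq {r : ℕ} (hr : 9 ≤ r) (h0 : r ≠ vr 0) (h1 : r ≠ vr 1) (h2 : r ≠ vr 2)
    (h3 : r ≠ 17) : cq.wr r = false := by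
  have h1 := wr_look hr h0 h2
  have h2 := wr_look hr ‹r ≠ vr 1› h2
  have h6 : r ≠ 6 := by omega
  have h4 : r ≠ 4 := by omega
  simp [cq, query, Cmd.wr, Cmd.clear, h1, h2, h3, h6, h4]

theorem ok_cntC : cntC.ok = true := by
  have h1 := ok_look (a := vr 0) (b := vr 1) (by unfold vr; omega) (by unfold vr; omega)
  have h2 : (Cmd.copy 3 17 5).ok = true := Cmd.ok_copy (by norm_num) (by norm_num)
  have h3 : (allV 2 cq).ok = true := ok_allV ok_cq (wr_cq (by unfold vr; omega)
    (by unfold vr; omega) (by unfold vr; omega) (by unfold vr; omega) (by unfold vr; omega))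
  have h4 : (Cmd.clear 17).ok = true := Cmd.ok_clear 17
  simp [cntC, query, Cmd.ok, h1, h2, h3]

theorem wr_cntC {r : ℕ} (hr : 9 ≤ r) (h0 : r ≠ vr 0) (h1 : r ≠ vr 1) (h2 : r ≠ vr 2)
    (h2' : r ≠ vr 2 + 1) (h3 : r ≠ 17) : cntC.wr r = false := by
  have k1 := wr_look hr h0 h1
  have k2 : (Cmd.copy 3 17 5).wr r = false := wr_copy (by omega) h3 (by omega)
  have k3 : (allV 2 cq).wr r = false := wr_allV (by omega) (by omega) h2 h2'
    (wr_cq hr h0 h1 h2 h3)
  have h6 : r ≠ 6 := by omega
  simp [cntC, query, Cmd.wr, Cmd.clear, k1, k2, k3, h3, h6]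

end Pool.Agent.Helper76.Prog
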