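import Pool.Agent.Helper76.Prog4

/-!
The main part of the program: case distinction on the number of colours.
-/

namespace Pool.Agent.Helper76.Prog

open Function Pool.Agent.Helper72

/-! ### all queries about `N` vertices -/

/-- all queries -/
def allQ (N : ℕ) : List Qry :=
  (List.range (N * N)).map (fun t => Qry.adj (t / N) (t % N)) ++
    (List.range (N * N)).map (fun t => Qry.eq (t / N) (t % N))

theorem allQ_lt {N : ℕ} : ∀ q ∈ allQ N, q.lt N := by
  intro q hq
  have key : ∀ t < N * N, t / N < N ∧ t % N < N := by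
    intro t ht
    have hN : 0 < N := by
      rcases Nat.eq_zero_or_pos N with h | h
      · subst h; simp at ht
      · exact h
    exact ⟨Nat.div_lt_of_lt_mul ht, Nat.mod_lt _ hN⟩
  rcases List.mem_append.1 hq with h | h
  · obtain ⟨t, ht, rfl⟩ := List.mem_map.1 h
    exact key t (List.mem_range.1 ht)
  · obtain ⟨t, ht, rfl⟩ := List.mem_map.1 h
    exact key t (List.mem_range.1 ht)

/-- the adjacencies from the list of answers -/
def ansA (N : ℕ) (l : List Bool) (a b : Fin N) : Bool := l.getD (a * N + b) false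

/-- the equalities from the list of answers -/
def ansE (N : ℕ) (l : List Bool) (a b : Fin N) : Bool := l.getD (N * N + (a * N + b)) false

theorem idx_lt {N : ℕ} (a b : Fin N) : (a : ℕ) * N + b < N * N := by
  have h1 := a.2
  have h2 := b.2
  calc (a : ℕ) * N + b < a * N + N := by omega
    _ = (a + 1) * N := by ring
    _ ≤ N * N := Nat.mul_le_mul_right _ h1

theorem idx_div {N : ℕ} (a b : Fin N) : ((a : ℕ) * N + b) / N = a := by
  have hN : 0 < N := by have := a.2; omega
  rw [Nat.add_comm, Nat.add_mul_div_right _ _ hN, Nat.div_eq_of_lt b.2]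
  simp

theorem idx_mod {N : ℕ} (a b : Fin N) : ((a : ℕ) * N + b) % N = b := by
  rw [Nat.mul_comm, Nat.mul_add_mod]
  exact Nat.mod_eq_of_lt b.2

theorem ansA_map {N n : ℕ} {M : List Bool} {v : ℕ → ℕ} (a b : Fin N) :
    ansA N ((allQ N).map (Qry.ans n M v)) a b = bit n M (v a) (v b) := by
  have h := idx_lt a b
  rw [ansA, allQ, List.map_append, List.getD_append _ _ _ _ (by simpa using h)]
  rw [List.getD_eq_getElem _ _ (by simpa using h)]
  simp only [List.getElem_map, List.getElem_range, Qry.ans, idx_div, idx_mod]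

theorem ansE_map {N n : ℕ} {M : List Bool} {v : ℕ → ℕ} (a b : Fin N) :
    ansE N ((allQ N).map (Qry.ans n M v)) a b = decide (v a = v b) := by
  have h := idx_lt a b
  rw [ansE, allQ, List.map_append, List.getD_append_right _ _ _ _ (by simp)]
  simp only [List.map_map, List.length_map, List.length_range, Nat.add_sub_cancel_left]
  rw [List.getD_eq_getElem _ _ (by simpa using h)]
  simp only [Function.comp_apply, List.getElem_map, List.getElem_range, Qry.ans, idx_div, idx_mod]

section

variable (N : ℕ) (Q : ℕ → (Fin N → Fin N → Bool) → (Fin N → Fin N → Bool) → Prop)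

/-- the function evaluated by the decision tree -/
noncomputable def fQ (j : ℕ) (l : List Bool) : Bool := by
  classical exact decide (Q j (ansA N l) (ansE N l))

/-- check all `N`-tuples of vertices -/
noncomputable def treeQ (j : ℕ) : Cmd := allN 0 N (tree (allQ N) (fQ N Q j))

/-- the condition checked -/
def CQ (n : ℕ) (M : List Bool) (j : ℕ) : Prop :=
  ∀ w : Fin N → Fin n, Q j (fun a b => bit n M (w a) (w b)) (fun a b => decide (w a = w b))

variable {N Q}

theorem treeQ_spec {n L : ℕ} {M d : List Bool} (hn : n ≤ L) (hM : M.length ≤ L) (hL : 1 ≤ L)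
    (j : ℕ) {s : St} (hs : Good n M d s) (hr : ∀ r, 10 ≤ r → s r = []) :
    (treeQ N Q j).LB L s ∧ (treeQ N Q j).eval s = flg (CQ N Q n M j) s := by
  have h0 : ∀ j, (s (vr j)).length ≤ n := by
    intro j
    rw [hr _ (by unfold vr; omega)]
    simp
  obtain ⟨h1, h2⟩ := allN_Sp hn N 0 _ _ (tree_Sp (d := d) (m := 0 + N) hn hM hL (allQ N)
    (fQ N Q j)) s hs (fun r h => hr r (by unfold vr at h; omega)) h0
  refine ⟨h1, ?_⟩
  show (allN 0 N (tree (allQ N) (fQ N Q j))).eval s = _
  rw [h2]
  congr 1
  apply propext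
  have key : ∀ w : ℕ → ℕ, fQ N Q j ((allQ N).map (Qry.ans n M w)) = true ↔
      Q j (fun a b => bit n M (w a) (w b)) (fun a b => decide (w a = w b)) := by
    intro w
    have e1 : ansA N ((allQ N).map (Qry.ans n M w)) =
        fun a b : Fin N => bit n M (w a) (w b) := by
      funext a b
      exact ansA_map a b
    have e2 : ansE N ((allQ N).map (Qry.ans n M w)) =
        fun a b : Fin N => decide (w a = w b) := by
      funext a b
      exact ansE_map a b
    simp only [fQ]
    rw [e1, e2]
    simp
  constructor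
  · intro h w
    have h3 := h (fun i => if hi : i < N then (w ⟨i, hi⟩ : ℕ) else val s i) (by
      intro i hi
      have : ¬ i < N := by omega
      simp [this]) (by
      intro i _ hi
      have : i < N := by omega
      simp [this])
    rw [key] at h3
    simp only [Fin.is_lt, dif_pos, Fin.eta] at h3
    have e : (fun a b : Fin N => decide ((w a : ℕ) = (w b : ℕ))) =
        fun a b => decide (w a = w b) := by
      funext a b
      simp [Fin.ext_iff]
    rw [e] at h3
    exact h3
  · intro h w hw hw2
    rw [key]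
    have h3 := h (fun i => ⟨w i, hw2 i (by omega) (by omega)⟩)
    simp only at h3
    have e : (fun a b : Fin N => decide ((⟨w a, hw2 a (by omega) (by omega)⟩ : Fin n) =
        ⟨w b, hw2 b (by omega) (by omega)⟩)) = fun a b : Fin N => decide (w a = w b) := by
      funext a b
      simp
    rw [e] at h3
    exact h3

theorem ok_treeQ (j : ℕ) : (treeQ N Q j).ok = true :=
  ok_allN N 0 _ (ok_tree _ _) fun i _ hi =>
    wr_tree (m := N) (by unfold vr; omega) (fun j hj => by unfold vr; omega) _ _ allQ_lt

/-- the count condition -/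
def CC (n : ℕ) (M : List Bool) (p : ℕ) : Prop :=
  ∀ i < n, ∀ j < n, bit n M i j = true →
    cntF (fun x => bit n M i x && bit n M j x) 0 n ≤ p

theorem cnt_spec {n L : ℕ} {M d : List Bool} (hn : n ≤ L) (hM : M.length ≤ L) (hL : 1 ≤ L)
    (hd : d.length ≤ L) {s : St} (hs : Good n M d s) (hr : ∀ r, 10 ≤ r → s r = []) :
    (allN 0 2 cntC).LB L s ∧ (allN 0 2 cntC).eval s = flg (CC n M d.length) s := by
  have h0 : ∀ j, (s (vr j)).length ≤ n := by
    intro j
    rw [hr _ (by unfold vr; omega)]
    simp
  obtain ⟨h1, h2⟩ := allN_Sp hn 2 0 _ _ (cntC_Sp (d := d) hn hM hL hd) s hs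
    (fun r h => hr r (by unfold vr at h; omega)) h0
  refine ⟨h1, ?_⟩
  rw [h2]
  congr 1
  apply propext
  constructor
  · intro h i hi j hj
    have h3 := h (fun a => if a = 0 then i else if a = 1 then j else val s a) (by
      intro a ha
      have h1 : a ≠ 0 := by omega
      have h2 : a ≠ 1 := by omega
      simp [h1, h2]) (by
      intro a _ ha
      have : a = 0 ∨ a = 1 := by omega
      rcases this with rfl | rfl
      · simpa using hi
      · simpa using hj)
    exact h3
  · intro h w _ hw2
    exact h (w 0) (hw2 0 (by omega) (by omega)) (w 1) (hw2 1 (by omega) (by omega))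

theorem ok_cnt : (allN 0 2 cntC).ok = true := by
  refine ok_allN 2 0 _ ok_cntC fun i _ hi => ?_
  have : i = 0 ∨ i = 1 := by omega
  rcases this with rfl | rfl
  · exact wr_cntC (by unfold vr; omega) (by unfold vr; omega) (by unfold vr; omega)
      (by unfold vr; omega) (by unfold vr; omega) (by unfold vr; omega)
  · exact wr_cntC (by unfold vr; omega) (by unfold vr; omega) (by unfold vr; omega)
      (by unfold vr; omega) (by unfold vr; omega) (by unfold vr; omega)

/-- push `true` several times -/
def pushN (r : ℕ) : ℕ → Cmd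
  | 0 => .nop
  | c + 1 => .seq (.push r true) (pushN r c)

theorem eval_pushN (r : ℕ) : ∀ (c : ℕ) (s : St) (p : ℕ), s r = un p →
    (pushN r c).eval s = update s r (un (p + c))
  | 0, s, p, h => by
    show s = _
    rw [Nat.add_zero, ← h, update_eq_self]
  | c + 1, s, p, h => by
    show (pushN r c).eval (update s r (true :: s r)) = _
    rw [eval_pushN r c _ (p + 1) (by rw [update_self, h]; rfl), update_idem]
    congr 2
    omega

theorem LB_pushN (r L : ℕ) : ∀ (c : ℕ) (s : St), (pushN r c).LB L s
  | 0, _ => trivial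
  | c + 1, s => ⟨trivial, LB_pushN r L c _⟩

theorem ok_pushN (r : ℕ) : ∀ c, (pushN r c).ok = true
  | 0 => rfl
  | c + 1 => by simp [pushN, Cmd.ok, ok_pushN r c]

variable (N Q)

/-- case distinction on the number of colours -/
noncomputable def go : ℕ → ℕ → Cmd
  | 0, j => .seq (pushN 3 (j - 2)) (.seq (treeQ N Q j) (allN 0 2 cntC))
  | f + 1, j => .ite 3 (treeQ N Q j) .nop (.seq (.pop 3) (go f (j + 1)))

/-- the condition decided -/
def Cond (k0 n : ℕ) (M : List Bool) (q : ℕ) : Prop :=
  CQ N Q n M (min q k0) ∧ (k0 ≤ q → CC n M (q - 2))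

variable {N Q}

theorem go_spec {n L k0 : ℕ} {M : List Bool} (hk0 : 2 ≤ k0) (hn : n ≤ L) (hM : M.length ≤ L)
    (hL : 1 ≤ L) : ∀ (f j p : ℕ) (s : St), j + f = k0 → p + j ≤ L → Good n M (un p) s →
    (∀ r, 10 ≤ r → s r = []) → s 4 = [true] →
    (go N Q f j).LB L s ∧ (Cond N Q k0 n M (p + j) → (go N Q f j).eval s 4 = [true]) ∧
    (¬ Cond N Q k0 n M (p + j) → (go N Q f j).eval s 4 = [])
  | 0, j, p, s, hj, hp, hs, hr, h4 => by
    have hj : j = k0 := by omega
    subst hj
    set s1 := update s 3 (un (p + (j - 2))) with hs1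
    have e1 : (pushN 3 (j - 2)).eval s = s1 := eval_pushN 3 _ _ _ hs.h3
    have g1 : Good n M (un (p + (j - 2))) s1 := by
      refine ⟨?_, ?_, ?_, ?_, ?_, ?_, ?_, ?_⟩
      · rw [hs1, update_of_ne (by norm_num)]; exact hs.h1
      · rw [hs1, update_of_ne (by norm_num)]; exact hs.h2
      · rw [hs1, update_self]
      · rw [hs1, update_of_ne (by norm_num)]; exact hs.h4
      · rw [hs1, update_of_ne (by norm_num)]; exact hs.h5
      · rw [hs1, update_of_ne (by norm_num)]; exact hs.h6
      · rw [hs1, update_of_ne (by norm_num)]; exact hs.h7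
      · rw [hs1, update_of_ne (by norm_num)]; exact hs.h8
    have r1 : ∀ r, 10 ≤ r → s1 r = [] := by
      intro r h
      rw [hs1, update_of_ne (by omega)]
      exact hr r h
    obtain ⟨l2, e2⟩ := treeQ_spec (N := N) (Q := Q) hn hM hL j g1 r1
    obtain ⟨l3, e3⟩ := cnt_spec hn hM hL (d := un (p + (j - 2))) (by simp; omega)
      (g1.flg (CQ N Q n M j)) (fun r h => by rw [flg_of_ne (by omega)]; exact r1 r h)
    have hlen : (un (p + (j - 2))).length = p + j - 2 := by simp; omega
    rw [hlen] at e3
    have hcond : Cond N Q j n M (p + j) ↔ (CC n M (p + j - 2) ∧ CQ N Q n M j) := by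
      unfold Cond
      rw [min_eq_right (by omega)]
      constructor
      · rintro ⟨h1, h2⟩
        exact ⟨h2 (by omega), h1⟩
      · rintro ⟨h1, h2⟩
        exact ⟨h2, fun _ => h1⟩
    have hev : (go N Q 0 j).eval s = flg (CC n M (p + j - 2) ∧ CQ N Q n M j) s1 := by
      rw [go, Cmd.eval_seq, e1, Cmd.eval_seq, e2, e3, flg_flg]
    refine ⟨⟨LB_pushN _ _ _ _, ?_⟩, ?_, ?_⟩
    · rw [e1]
      refine ⟨l2, ?_⟩
      rw [e2]
      exact l3
    · intro h
      rw [hev, flg_true (hcond.1 h), hs1, update_of_ne (by norm_num), h4]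
    · intro h
      rw [hev, flg_false (fun h' => h (hcond.2 h')), update_self]
  | f + 1, j, 0, s, hj, hp, hs, hr, h4 => by
    have h3 : s 3 = [] := hs.h3
    obtain ⟨l2, e2⟩ := treeQ_spec (N := N) (Q := Q) hn hM hL j hs hr
    have hcond : Cond N Q k0 n M (0 + j) ↔ CQ N Q n M j := by
      unfold Cond
      rw [Nat.zero_add, min_eq_left (by omega)]
      exact ⟨fun h => h.1, fun h => ⟨h, fun h' => by omega⟩⟩
    have hev : (go N Q (f + 1) j).eval s = flg (CQ N Q n M j) s := by
      rw [go]
      simp only [Cmd.eval, h3]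
      exact e2
    refine ⟨?_, ?_, ?_⟩
    · rw [go]
      simp only [Cmd.LB, h3]
      exact l2
    · intro h
      rw [hev, flg_true (hcond.1 h), h4]
    · intro h
      rw [hev, flg_false (fun h' => h (hcond.2 h')), update_self]
  | f + 1, j, p + 1, s, hj, hp, hs, hr, h4 => by
    have h3 : s 3 = true :: un p := hs.h3
    set s1 := update s 3 (un p) with hs1
    have g1 : Good n M (un p) s1 := by
      refine ⟨?_, ?_, ?_, ?_, ?_, ?_, ?_, ?_⟩
      · rw [hs1, update_of_ne (by norm_num)]; exact hs.h1
      · rw [hs1, update_of_ne (by norm_num)]; exact hs.h2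
      · rw [hs1, update_self]
      · rw [hs1, update_of_ne (by norm_num)]; exact hs.h4
      · rw [hs1, update_of_ne (by norm_num)]; exact hs.h5
      · rw [hs1, update_of_ne (by norm_num)]; exact hs.h6
      · rw [hs1, update_of_ne (by norm_num)]; exact hs.h7
      · rw [hs1, update_of_ne (by norm_num)]; exact hs.h8
    obtain ⟨l1, c1, c2⟩ := go_spec hk0 hn hM hL f (j + 1) p s1 (by omega) (by omega) g1
      (fun r h => by rw [hs1, update_of_ne (by omega)]; exact hr r h)
      (by rw [hs1, update_of_ne (by norm_num), h4])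
    have e : p + (j + 1) = p + 1 + j := by omega
    rw [e] at c1 c2
    have hpop : (Cmd.pop 3).eval s = s1 := by
      show update s 3 (s 3).tail = _
      rw [h3, hs1]; rfl
    have hev : (go N Q (f + 1) j).eval s = (go N Q f (j + 1)).eval s1 := by
      rw [go]
      simp only [Cmd.eval, h3]
      rw [hs1]
      rfl
    refine ⟨?_, fun h => ?_, fun h => ?_⟩
    · rw [go]
      simp only [Cmd.LB, h3]
      refine ⟨trivial, ?_⟩
      rw [hpop]
      exact l1
    · rw [hev]; exact c1 h
    · rw [hev]; exact c2 h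

theorem ok_go : ∀ f j, (go N Q f j).ok = true
  | 0, j => by simp [go, Cmd.ok, ok_pushN, ok_treeQ, ok_cnt]
  | f + 1, j => by simp [go, Cmd.ok, ok_treeQ, ok_go f (j + 1)]

end

end Pool.Agent.Helper76.Prog
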