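import Pool.Agent.Helper76.ColDefs
import Pool.Agent.Helper76.MainB
import Pool.Agent.Helper76.Prog6
import Pool.Agent.Helper4.Glue

/-!
The meaning of the conditions checked by the program.
-/

namespace Pool.Agent.Helper76

open SimpleGraph Computability Function Prog

/-! ### the adjacency matrix -/

theorem drop_flatten {n : ℕ} (t : List Bool) : ∀ (rows : List (List Bool)),
    (∀ r ∈ rows, r.length = n) → ∀ i ≤ rows.length,
    (rows.flatten ++ t).drop (i * n) = (rows.drop i).flatten ++ t
  | [], _, i, hi => by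
    have : i = 0 := by simpa using hi
    subst this
    simp
  | r :: rows, h, 0, _ => by simp
  | r :: rows, h, i + 1, hi => by
    have hr : r.length = n := h r (by simp)
    have ih := drop_flatten t rows (fun r hr => h r (by simp [hr])) i (by simpa using hi)
    have e : (i + 1) * n = r.length + i * n := by rw [hr]; ring
    rw [List.flatten_cons, List.append_assoc, e, ← List.drop_drop, List.drop_left, ih]
    simp

theorem bit_mat {n : ℕ} (A : Fin n → Fin n → Bool) (t : List Bool) (i j : Fin n) :
    bit n (((List.finRange n).map fun i => (List.finRange n).map fun j => A i j).flatten ++ t)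
      i j = A i j := by
  set rows := (List.finRange n).map fun i => (List.finRange n).map fun j => A i j with hrows
  have hlen : rows.length = n := by simp [hrows]
  have h1 : (rows.flatten ++ t).drop (i * n) = (rows.drop i).flatten ++ t := by
    refine drop_flatten t rows ?_ i (by rw [hlen]; exact i.2.le)
    intro r hr
    rw [hrows] at hr
    obtain ⟨i', -, rfl⟩ := List.mem_map.1 hr
    simp
  have hi : (i : ℕ) < rows.length := by rw [hlen]; exact i.2
  have h2 : rows.drop i = rows[(i : ℕ)] :: rows.drop (i + 1) :=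
    List.drop_eq_getElem_cons hi
  have h3 : rows[(i : ℕ)] = (List.finRange n).map fun j => A i j := by
    simp [hrows]
  rw [bit, ← List.drop_drop, h1, h2, h3, List.flatten_cons, List.append_assoc]
  have h4 : ((List.finRange n).map fun j => A i j).length = n := by simp
  have hj : (j : ℕ) < ((List.finRange n).map fun j => A i j).length := by rw [h4]; exact j.2
  rw [List.drop_append_of_le_length hj.le, List.drop_eq_getElem_cons hj]
  simp

theorem length_mat {n : ℕ} (A : Fin n → Fin n → Bool) :
    (((List.finRange n).map fun i => (List.finRange n).map fun j => A i j).flatten).length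
      = n * n := by
  rw [List.length_flatten, List.map_map]
  have : (List.length ∘ fun i => (List.finRange n).map fun j => A i j) = fun _ => n := by
    funext i
    simp
  rw [this]
  simp

theorem cntF_eq (P : ℕ → Bool) : ∀ (l i : ℕ), cntF P i l =
    ((Finset.Ico i (i + l)).filter (fun x => P x = true)).card
  | 0, i => by simp [cntF]
  | l + 1, i => by
    rw [cntF, cntF_eq P l (i + 1)]
    have e : Finset.Ico i (i + (l + 1)) = insert i (Finset.Ico (i + 1) (i + 1 + l)) := by
      ext x
      simp only [Finset.mem_insert, Finset.mem_Ico]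
      omega
    rw [e, Finset.filter_insert]
    by_cases h : P i = true
    · rw [if_pos h, if_pos h, Finset.card_insert_of_notMem (by simp)]
      omega
    · rw [if_neg h, if_neg h]
      omega

/-- number of common neighbours -/
theorem cntF_fin {n : ℕ} (P : ℕ → Bool) : cntF P 0 n =
    ((Finset.univ : Finset (Fin n)).filter (fun x : Fin n => P x = true)).card := by
  rw [cntF_eq, Nat.zero_add, ← Finset.card_map Fin.valEmbedding]
  congr 1
  ext x
  simp only [Finset.mem_filter, Finset.mem_Ico, Finset.mem_map, Finset.mem_univ, true_and,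
    Fin.valEmbedding_apply]
  constructor
  · rintro ⟨⟨-, h1⟩, h2⟩
    exact ⟨⟨x, h1⟩, h2, rfl⟩
  · rintro ⟨y, h1, rfl⟩
    exact ⟨⟨by omega, y.2⟩, h1⟩

/-! ### colourings of small sets -/

section

variable {V : Type*} {G : SimpleGraph V}

/-- all pull-backs to `N` vertices are `k`-colourable -/
def PB (G : SimpleGraph V) (N k : ℕ) : Prop :=
  ∀ w : Fin N → V, ∃ c : Fin N → Fin k, ∀ a b, G.Adj (w a) (w b) → c a ≠ c b

theorem PB.colOn {N k : ℕ} (h : PB G N k) (S : Finset V) (hS : S.card ≤ N) :
    ColOn G k S := by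
  classical
  rcases S.eq_empty_or_nonempty with rfl | ⟨x0, hx0⟩
  · exact ⟨fun _ => 0, by simp, by simp⟩
  · have e : S.card = Fintype.card S := by simp
    obtain ⟨f⟩ : Nonempty (S ↪ Fin N) := by
      apply Function.Embedding.nonempty_of_card_le
      simpa using hS
    obtain ⟨c, hc⟩ := h fun i => if hi : ∃ y : S, f y = i then (hi.choose : V) else x0
    have key : ∀ y : S, (if hi : ∃ y' : S, f y' = f y then (hi.choose : V) else x0) = y := by
      intro y
      have hex : ∃ y' : S, f y' = f y := ⟨y, rfl⟩
      rw [dif_pos hex, f.injective hex.choose_spec]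
    refine ⟨fun v => if hv : v ∈ S then (c (f ⟨v, hv⟩) : ℕ) else 0, ?_, ?_⟩
    · intro v hv
      have hv : v ∈ S := hv
      simp [hv]
    · intro u hu v hv huv h
      have hu : u ∈ S := hu
      have hv : v ∈ S := hv
      simp only [hu, hv, dif_pos] at h
      refine hc (f ⟨u, hu⟩) (f ⟨v, hv⟩) ?_ (Fin.ext h)
      rw [key, key]
      exact huv

theorem PB.of_colorable {N k : ℕ} (h : G.Colorable k) : PB G N k := by
  obtain ⟨c⟩ := h
  exact fun w => ⟨fun a => c (w a), fun a b hab => c.valid hab⟩

/-- large cliques and common neighbours -/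
theorem noQC_iff [Fintype V] [DecidableEq V] [DecidableRel G.Adj] (hdf : DF G) {k : ℕ}
    (hk : 2 ≤ k) : NoQC G (k + 1) ↔ ∀ i j, G.Adj i j →
    (Finset.univ.filter (fun x => G.Adj i x ∧ G.Adj j x)).card ≤ k - 2 := by
  constructor
  · intro h i j hij
    by_contra hcon
    push Not at hcon
    obtain ⟨T, hT, hTc⟩ := Finset.exists_subset_card_eq (s := Finset.univ.filter
      (fun x => G.Adj i x ∧ G.Adj j x)) (n := k - 1) (by omega)
    have hmem : ∀ x ∈ T, G.Adj i x ∧ G.Adj j x := by
      intro x hx
      simpa using hT hx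
    have hj : j ∉ T := fun hj => G.irrefl (hmem j hj).2
    have hi : i ∉ insert j T := by
      rw [Finset.mem_insert]
      rintro (h1 | h1)
      · rw [h1] at hij; exact G.irrefl hij
      · exact G.irrefl (hmem i h1).1
    refine h (insert i (insert j T)) ⟨?_, ?_⟩
    · rw [Finset.card_insert_of_notMem hi, Finset.card_insert_of_notMem hj, hTc]
      omega
    · intro a ha b hb hab
      rw [Finset.mem_insert, Finset.mem_insert] at ha hb
      rcases ha with rfl | rfl | ha <;> rcases hb with rfl | rfl | hb
      · exact absurd rfl hab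
      · exact hij
      · exact (hmem b hb).1
      · exact hij.symm
      · exact absurd rfl hab
      · exact (hmem b hb).2
      · exact (hmem a ha).1.symm
      · exact (hmem a ha).2.symm
      · exact hdf i j a b hij (hmem a ha).1 (hmem a ha).2 (hmem b hb).1 (hmem b hb).2 hab
  · intro h Q hQ
    obtain ⟨i, hi, j, hj, hij⟩ := Finset.one_lt_card.1 (show 1 < Q.card by rw [hQ.1]; omega)
    have h1 := h i j (hQ.2 i hi j hj hij)
    have h2 : (Q.erase i).erase j ⊆ Finset.univ.filter (fun x => G.Adj i x ∧ G.Adj j x) := by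
      intro x hx
      rw [Finset.mem_erase, Finset.mem_erase] at hx
      simp only [Finset.mem_filter, Finset.mem_univ, true_and]
      exact ⟨hQ.2 i hi x hx.2.2 hx.2.1.symm, hQ.2 j hj x hx.2.2 hx.1.symm⟩
    have h3 := Finset.card_le_card h2
    rw [Finset.card_erase_of_mem (Finset.mem_erase.2 ⟨hij.symm, hj⟩),
      Finset.card_erase_of_mem hi, hQ.1] at h3
    omega

theorem NoQC.of_colorable {k : ℕ} (h : G.Colorable k) : NoQC G (k + 1) := by
  intro Q hQ
  obtain ⟨c⟩ := h
  have h1 : Q.card ≤ Fintype.card (Fin k) := by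
    have : ∀ a ∈ Q, ∀ b ∈ Q, c a = c b → a = b := by
      intro a ha b hb hab
      by_contra hne
      exact c.valid (hQ.2 a ha b hb hne) hab
    refine le_trans ?_ (Finset.card_le_univ (Q.image c))
    rw [Finset.card_image_of_injOn fun a ha b hb hab => this a ha b hb hab]
  rw [hQ.1, Fintype.card_fin] at h1
  omega

/-- only the number of colours up to `n + 2` matters -/
theorem colorable_min {n : ℕ} (G : SimpleGraph (Fin n)) (k : ℕ) :
    G.Colorable (min k (n + 2)) ↔ G.Colorable k := by
  constructor
  · exact fun h => h.mono (min_le_left _ _)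
  · intro h
    rcases le_total k (n + 2) with h1 | h1
    · rwa [min_eq_left h1]
    · rw [min_eq_right h1]
      have h2 : G.Colorable n := by
        have := G.colorable_of_fintype
        rwa [Fintype.card_fin] at this
      exact h2.mono (by omega)

end

/-! ### the condition for (diamond, P1+P5)-free graphs -/

/-- the condition on ten vertices -/
def QB (j : ℕ) (A E : Fin 10 → Fin 10 → Bool) : Prop :=
  (A 0 1 = true → A 0 2 = true → A 1 2 = true → A 0 3 = true → A 1 3 = true → E 2 3 = false →
    A 2 3 = true) ∧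
  (A 0 1 = true → A 1 2 = true → A 2 3 = true → A 3 4 = true → A 0 2 = false → A 0 3 = false →
    A 0 4 = false → A 1 3 = false → A 1 4 = false → A 2 4 = false → A 5 0 = false →
    A 5 1 = false → A 5 2 = false → A 5 3 = false → A 5 4 = false → False) ∧
  (j ≤ 3 → ∃ c : Fin 10 → Fin j, ∀ a b, A a b = true → c a ≠ c b)

theorem cond_iff {n : ℕ} (G : SimpleGraph (Fin n)) (k : ℕ) (M : List Bool)
    (hM : ∀ i j : Fin n, bit n M i j = true ↔ G.Adj i j) :
    Cond 10 QB 4 n M (min k (n + 2)) ↔ DF G ∧ P15F G ∧ G.Colorable k := by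
  classical
  have hbit : ∀ i j : Fin n, bit n M i j = decide (G.Adj i j) := by
    intro i j
    rw [Bool.eq_iff_iff, hM]
    simp
  rw [← colorable_min]
  set q := min k (n + 2) with hq
  have hDF : CQ 10 QB n M (min q 4) → DF G := by
    intro h a b c d h1 h2 h3 h4 h5 h6
    have := (h ![a, b, c, d, a, a, a, a, a, a]).1
    simp only [hbit] at this
    simpa [h1, h2, h3, h4, h5, h6] using this
  have hP : CQ 10 QB n M (min q 4) → P15F G := by
    intro h a b c d e f h1 h2 h3 h4 h5 h6 h7 h8 h9 h10 h11 h12 h13 h14 h15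
    have := (h ![a, b, c, d, e, f, a, a, a, a]).2.1
    simp only [hbit] at this
    simp [h1, h2, h3, h4, h5, h6, h7, h8, h9, h10, h11, h12, h13, h14, h15] at this
  have hCQ : DF G → P15F G → (min q 4 ≤ 3 → G.Colorable (min q 4)) → CQ 10 QB n M (min q 4) := by
    intro h1 h2 h3 w
    refine ⟨?_, ?_, ?_⟩
    · simp only [hbit, decide_eq_true_eq, decide_eq_false_iff_not]
      exact fun a1 a2 a3 a4 a5 a6 => h1 _ _ _ _ a1 a2 a3 a4 a5 a6
    · simp only [hbit, decide_eq_true_eq, decide_eq_false_iff_not]
      exact fun a1 a2 a3 a4 a5 a6 a7 a8 a9 a10 a11 a12 a13 a14 a15 =>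
        h2 _ _ _ _ _ _ a1 a2 a3 a4 a5 a6 a7 a8 a9 a10 a11 a12 a13 a14 a15
    · intro hj
      simp only [hbit, decide_eq_true_eq]
      exact PB.of_colorable (h3 hj) w
  have hcnt : ∀ i j : Fin n, cntF (fun x => bit n M i x && bit n M j x) 0 n =
      (Finset.univ.filter (fun x => G.Adj i x ∧ G.Adj j x)).card := by
    intro i j
    rw [cntF_fin]
    congr 1
    ext x
    simp [hbit]
  constructor
  · rintro ⟨h1, h2⟩
    have hdf := hDF h1
    have hp := hP h1
    refine ⟨hdf, hp, ?_⟩
    rcases lt_or_ge 3 q with h3 | h3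
    · refine mainB q h3 _ G hdf hp ((noQC_iff hdf (by omega)).2 fun i j hij => ?_)
      have := h2 h3 i i.2 j j.2 ((hM i j).2 hij)
      rwa [hcnt] at this
    · have e : min q 4 = q := min_eq_left (by omega)
      rw [e] at h1
      refine mainB_small hdf hp h3 fun S hS => PB.colOn (N := 10) (fun w => ?_) S hS
      obtain ⟨c, hc⟩ := (h1 w).2.2 h3
      refine ⟨c, fun a b hab => hc a b ?_⟩
      show bit n M (w a) (w b) = true
      rw [hbit]
      simpa using hab
  · rintro ⟨h1, h2, h3⟩
    refine ⟨hCQ h1 h2 ?_, ?_⟩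
    · intro hj
      have e : min q 4 = q := by omega
      rwa [e]
    · intro h4 i hi j hj hij
      have hij' : G.Adj ⟨i, hi⟩ ⟨j, hj⟩ := (hM ⟨i, hi⟩ ⟨j, hj⟩).1 hij
      have h5 := (noQC_iff h1 (k := q) (by omega)).1 (NoQC.of_colorable h3) _ _ hij'
      rw [← hcnt] at h5
      exact h5

/-! ### forbidden induced subgraphs -/

section

variable {V : Type*} {G : SimpleGraph V}

theorem df_iff : DF G ↔ ¬ diamond ⊴ G := by
  classical
  constructor
  · rintro h ⟨f⟩
    have key : ∀ a b, G.Adj (f a) (f b) ↔ diamond.Adj a b := fun a b => f.map_adj_iff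
    have h01 : G.Adj (f 0) (f 1) := (key _ _).2 (by simp [diamond])
    have h02 : G.Adj (f 0) (f 2) := (key _ _).2 (by simp [diamond])
    have h12 : G.Adj (f 1) (f 2) := (key _ _).2 (by simp [diamond])
    have h03 : G.Adj (f 0) (f 3) := (key _ _).2 (by simp [diamond])
    have h13 : G.Adj (f 1) (f 3) := (key _ _).2 (by simp [diamond])
    have h23 := (key _ _).1 (h _ _ _ _ h01 h02 h12 h03 h13 (f.injective.ne (by decide)))
    simp [diamond] at h23
  · intro h a b c d h1 h2 h3 h4 h5 h6
    by_contra h7
    refine h ⟨⟨⟨![a, b, c, d], ?_⟩, ?_⟩⟩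
    · have n1 := h1.ne
      have n2 := h2.ne
      have n3 := h3.ne
      have n4 := h4.ne
      have n5 := h5.ne
      intro x y hxy
      fin_cases x <;> fin_cases y <;> simp_all
    · intro x y
      have n7 : ¬ G.Adj d c := fun h => h7 h.symm
      fin_cases x <;> fin_cases y <;>
        simp [diamond, h1, h2, h3, h4, h5, h7, n7, h1.symm, h2.symm, h3.symm, h4.symm, h5.symm]

theorem p15f_iff : P15F G ↔ ¬ P1P5 ⊴ G := by
  classical
  constructor
  · rintro h ⟨f⟩
    have key : ∀ a b, G.Adj (f a) (f b) ↔ P1P5.Adj a b := fun a b => f.map_adj_iff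
    refine h (f (.inr 0)) (f (.inr 1)) (f (.inr 2)) (f (.inr 3)) (f (.inr 4)) (f (.inl 0))
      ?_ ?_ ?_ ?_ ?_ ?_ ?_ ?_ ?_ ?_ ?_ ?_ ?_ ?_ ?_ <;> rw [key] <;>
      simp [P1P5, pathGraph_adj]
  · intro h a b c d e q h1 h2 h3 h4 h5 h6 h7 h8 h9 h10 h11 h12 h13 h14 h15
    have n1 := h1.ne
    have n2 := h2.ne
    have n3 := h3.ne
    have n4 := h4.ne
    have n5 : a ≠ c := by rintro rfl; exact h6 h3
    have n6 : a ≠ d := by rintro rfl; exact h8 h1.symm
    have n7 : a ≠ e := by rintro rfl; exact h9 h1.symm
    have n8 : b ≠ d := by rintro rfl; exact h6 h1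
    have n9 : b ≠ e := by rintro rfl; exact h7 h1
    have n10 : c ≠ e := by rintro rfl; exact h9 h2
    have n11 : q ≠ a := by rintro rfl; exact h12 h1
    have n12 : q ≠ b := by rintro rfl; exact h11 h1.symm
    have n13 : q ≠ c := by rintro rfl; exact h12 h2.symm
    have n14 : q ≠ d := by rintro rfl; exact h13 h3.symm
    have n15 : q ≠ e := by rintro rfl; exact h14 h4.symm
    have n8' := n8.symm
    have n9' := n9.symm
    have n10' := n10.symm
    refine h ⟨⟨⟨Sum.elim ![q] ![a, b, c, d, e], ?_⟩, ?_⟩⟩
    · rintro (x | x) (y | y) hxy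
      · rw [Subsingleton.elim x y]
      · fin_cases x <;> fin_cases y <;> simp_all
      · fin_cases x <;> fin_cases y <;> simp_all
      · fin_cases x <;> fin_cases y <;> simp_all
    · have m5 : ¬ G.Adj c a := fun h => h5 h.symm
      have m6 : ¬ G.Adj d a := fun h => h6 h.symm
      have m7 : ¬ G.Adj e a := fun h => h7 h.symm
      have m8 : ¬ G.Adj d b := fun h => h8 h.symm
      have m9 : ¬ G.Adj e b := fun h => h9 h.symm
      have m10 : ¬ G.Adj e c := fun h => h10 h.symm
      have m11 : ¬ G.Adj a q := fun h => h11 h.symm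
      have m12 : ¬ G.Adj b q := fun h => h12 h.symm
      have m13 : ¬ G.Adj c q := fun h => h13 h.symm
      have m14 : ¬ G.Adj d q := fun h => h14 h.symm
      have m15 : ¬ G.Adj e q := fun h => h15 h.symm
      rintro (x | x) (y | y)
      · fin_cases x <;> fin_cases y <;> simp [P1P5]
      · fin_cases x <;> fin_cases y <;> simp [P1P5, h11, h12, h13, h14, h15]
      · fin_cases x <;> fin_cases y <;> simp [P1P5, m11, m12, m13, m14, m15]
      · fin_cases x <;> fin_cases y <;>
          simp [P1P5, pathGraph_adj, h1, h2, h3, h4, h5, h6, h7, h8, h9, h10, h1.symm, h2.symm,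
            h3.symm, h4.symm, m5, m6, m7, m8, m9, m10]

end

end Pool.Agent.Helper76
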