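import Pool.Agent.Helper76.Check

/-!
Steps of a certificate: each step excludes one more graph as an induced subgraph.
-/

namespace Pool.Agent.Helper76

open SimpleGraph

/-- `p i` for all `i < n` -/
def allLt (n : ℕ) (p : ℕ → Bool) : Bool := Nat.rec true (fun i ih => ih && p i) n

theorem allLt_iff {n : ℕ} {p : ℕ → Bool} : allLt n p = true ↔ ∀ i < n, p i = true := by
  induction n with
  | zero => simp [allLt]
  | succ n ih =>
    have h : allLt (n + 1) p = (allLt n p && p n) := rfl
    rw [h, Bool.and_eq_true, ih]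
    constructor
    · rintro ⟨h1, h2⟩ i hi
      rcases Nat.lt_succ_iff_lt_or_eq.1 hi with h3 | rfl
      · exact h1 i h3
      · exact h2
    · intro h1
      exact ⟨fun i hi => h1 i (by omega), h1 n (by omega)⟩

/-- all pairs of different vertices below `n`, rows below `m` -/
def fullK (n : ℕ) : ℕ → ℕ
  | 0 => 0
  | m + 1 => Nat.lor (fullK n m) (Nat.shiftLeft (Nat.xor (2 ^ n - 1) (2 ^ m)) (32 * m))

theorem tb_fullK {n : ℕ} (hn : n ≤ 32) : ∀ m ≤ n, ∀ a b, b < 32 →
    tb (fullK n m) (32 * a + b) = (decide (a < m) && (decide (b < n) && decide (a ≠ b)))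
  | 0, _, a, b, _ => by simp [fullK, tb_zero]
  | m + 1, hm, a, b, hb => by
    have e : fullK n (m + 1) = fullK n m ||| (((2 ^ n - 1) ^^^ (2 ^ m)) <<< (32 * m)) := rfl
    rw [e, tb_or, tb_fullK hn m (by omega) a b hb, tb_eq, Nat.testBit_shiftLeft,
      Nat.testBit_xor, Nat.testBit_two_pow_sub_one, Nat.testBit_two_pow]
    rcases lt_trichotomy a m with h | rfl | h
    · have h1 : ¬ (32 * a + b ≥ 32 * m) := by omega
      have h2 : a < m + 1 := by omega
      simp [h, h1, h2]
    · have h1 : 32 * a + b - 32 * a = b := by omega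
      have h2 : a < n := by omega
      simp only [lt_irrefl, decide_false, Bool.false_and, Bool.false_or, h1, ge_iff_le,
        Nat.le_add_right, decide_true, Bool.true_and, Nat.lt_succ_self]
      by_cases h3 : a = b
      · subst h3; simp [h2]
      · by_cases h4 : b < n <;> simp [h3, h4]
    · have h1 : 32 * a + b ≥ 32 * m := by omega
      have h2 : ¬ a < m := by omega
      have h3 : ¬ a < m + 1 := by omega
      have h4 : ¬ (32 * a + b - 32 * m < n) := by omega
      have h5 : ¬ (m = 32 * a + b - 32 * m) := by omega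
      simp [h2, h3, h4, h5]

/-- the matrix is symmetric, without bits outside the range -/
def okGraph (n M : ℕ) : Bool :=
  Nat.ble n 31 && Nat.beq (Nat.lor M (fullK n n)) (fullK n n) &&
    allLt n fun a => allLt a fun b => cond (tb M (32 * a + b)) (tb M (32 * b + a))
      (!tb M (32 * b + a))

section

variable {V : Type*} {G : SimpleGraph V}

theorem Emb.inj {n M : ℕ} {σ : ℕ → V} (h : Emb G n M σ) {a b : ℕ} (ha : a < n) (hb : b < n)
    (hab : a ≠ b) : σ a ≠ σ b := by
  rcases lt_or_gt_of_ne hab with h1 | h1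
  · exact (h b hb a h1).1.symm
  · exact (h a ha b h1).1

theorem okGraph_spec {n M : ℕ} (h : okGraph n M = true) : n < 32 ∧ Inv M (fullK n n) ∧
    ∀ a < n, ∀ b < n, tb M (32 * a + b) = tb M (32 * b + a) := by
  simp only [okGraph, Bool.and_eq_true] at h
  obtain ⟨⟨h1, h2⟩, h3⟩ := h
  have h1 := Nat.le_of_ble_eq_true h1
  have h2 := Nat.eq_of_beq_eq_true h2
  refine ⟨by omega, ?_, ?_⟩
  · intro i hi
    have e : Nat.lor M (fullK n n) = M ||| fullK n n := rfl
    rw [e] at h2
    have h4 := tb_or M (fullK n n) i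
    rw [h2, hi] at h4
    simpa using h4.symm
  · have key : ∀ a < n, ∀ b < a, tb M (32 * a + b) = tb M (32 * b + a) := by
      intro a ha b hb
      have h4 := allLt_iff.1 (allLt_iff.1 h3 a ha) b hb
      cases hx : tb M (32 * a + b) <;> simp [hx] at h4 <;> simp [h4]
    intro a ha b hb
    rcases lt_trichotomy a b with h5 | rfl | h5
    · exact (key b hb a h5).symm
    · rfl
    · exact key a ha b h5

theorem Emb.cons {n M : ℕ} {σ : ℕ → V} (h : Emb G n M σ) (hok : okGraph n M = true) :
    Cons G M (fullK n n) σ := by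
  obtain ⟨h1, h2, h3⟩ := okGraph_spec hok
  intro a ha b hb hk
  rw [tb_fullK (by omega) n le_rfl a b hb] at hk
  simp only [Bool.and_eq_true, decide_eq_true_eq] at hk
  obtain ⟨k1, k2, k3⟩ := hk
  rcases lt_or_gt_of_ne k3 with h5 | h5
  · obtain ⟨e1, e2⟩ := h b k2 a h5
    refine ⟨e1.symm, ?_⟩
    rw [G.adj_comm, e2, h3 a k1 b k2]
  · exact h a k1 b h5

theorem Cons.congr {M K n : ℕ} {σ τ : ℕ → V} (h : Cons G M K σ)
    (hK : ∀ a b, b < 32 → tb K (32 * a + b) = true → a < n ∧ b < n)
    (hs : ∀ a < n, τ a = σ a) : Cons G M K τ := by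
  intro a ha b hb hk
  obtain ⟨k1, k2⟩ := hK a b hb hk
  rw [hs a k1, hs b k2]
  exact h a ha b hb hk

end

/-! ### rules -/

inductive Rule
  | fold (l : List (ℕ × ℕ))
  | deg (a : ℕ)
  | comp (C : List ℕ) (col : List ℕ)

/-- membership -/
def memb (a : ℕ) : List ℕ → Bool
  | [] => false
  | b :: l => Nat.beq a b || memb a l

theorem memb_iff {a : ℕ} {l : List ℕ} : memb a l = true ↔ a ∈ l := by
  induction l with
  | nil => simp [memb]
  | cons b l ih => simp [memb, ih]

/-- number of neighbours below `n` -/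
def cnt (n Ma : ℕ) : ℕ := Nat.rec 0 (fun i ih => cond (tb Ma i) (ih + 1) ih) n

theorem cnt_eq (n Ma : ℕ) : cnt n Ma = ((Finset.range n).filter fun i => tb Ma i = true).card := by
  induction n with
  | zero => rfl
  | succ n ih =>
    have e : cnt (n + 1) Ma = cond (tb Ma n) (cnt n Ma + 1) (cnt n Ma) := rfl
    rw [e, Finset.range_add_one, Finset.filter_insert, ih]
    cases h : tb Ma n
    · simp
    · simp

/-- proper colouring with colours below `k` -/
def okCol (k n M : ℕ) (col : List ℕ) : Bool :=
  allLt n fun a => Nat.ble (col.getD a 0 + 1) k &&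
    allLt a fun b => cond (tb M (32 * a + b)) (!Nat.beq (col.getD a 0) (col.getD b 0)) true

def Rule.check (k n M : ℕ) : Rule → Bool
  | fold l =>
    (match l with
      | [] => false
      | _ :: _ => true) &&
    (l.all fun p => Nat.ble (p.1 + 1) n && Nat.ble (p.2 + 1) n && !memb p.2 (l.map Prod.fst) &&
      (l.all fun q => cond (tb M (32 * p.1 + q.1)) (tb M (32 * p.2 + q.2)) true) &&
      (allLt n fun c => cond (tb M (32 * p.1 + c)) (tb M (32 * p.2 + c) ||
        memb c (l.map Prod.fst)) true))
  | deg a => Nat.ble (a + 1) n && Nat.ble (cnt n (Nat.shiftRight M (32 * a)) + 1) k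
  | comp C col =>
    (match C with
      | [] => false
      | _ :: _ => true) &&
    (C.all fun c => Nat.ble (c + 1) n &&
      allLt n fun x => cond (tb M (32 * c + x)) (memb x C) true) &&
    (!(allLt n fun x => memb x C) || okCol k n M col)

def Rule.alts (n : ℕ) : Rule → List (ℕ × ℕ)
  | fold l => l
  | deg a => [(a, n)]
  | comp C _ => C.map fun c => (c, n)

section

variable {V : Type*} {G : SimpleGraph V}

theorem okCol_spec {k n M : ℕ} {col : List ℕ} (h : okCol k n M col = true) :
    (∀ a < n, col.getD a 0 < k) ∧ ∀ a < n, ∀ b < a, tb M (32 * a + b) = true →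
      col.getD a 0 ≠ col.getD b 0 := by
  have h1 := allLt_iff.1 h
  refine ⟨fun a ha => ?_, fun a ha b hb hab => ?_⟩
  · have := h1 a ha
    simp only [Bool.and_eq_true] at this
    exact Nat.le_of_ble_eq_true this.1
  · have := h1 a ha
    simp only [Bool.and_eq_true] at this
    have := allLt_iff.1 this.2 b hb
    rw [hab] at this
    simp only [cond_true, Bool.not_eq_true'] at this
    intro heq
    rw [heq] at this
    simp at this

/-- a colouring of the embedded graph -/
theorem colOn_of_okCol {k n M : ℕ} {σ : ℕ → V} {col : List ℕ} (he : Emb G n M σ)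
    (h : okCol k n M col = true) : ColOn G k (σ '' {i | i < n}) := by
  classical
  obtain ⟨h1, h2⟩ := okCol_spec h
  have key : ∀ v ∈ σ '' {i | i < n}, ∃ i, i < n ∧ σ i = v := fun v hv => hv
  let f : V → ℕ := fun v => if h : ∃ i, i < n ∧ σ i = v then h.choose else 0
  have hf : ∀ i < n, f (σ i) = i := by
    intro i hi
    have hex : ∃ j, j < n ∧ σ j = σ i := ⟨i, hi, rfl⟩
    have e : f (σ i) = hex.choose := dif_pos hex
    rw [e]
    by_contra hne
    exact he.inj hex.choose_spec.1 hi hne hex.choose_spec.2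
  refine ⟨fun v => col.getD (f v) 0, ?_, ?_⟩
  · rintro _ ⟨i, hi, rfl⟩
    show col.getD (f (σ i)) 0 < k
    rw [hf i hi]
    exact h1 i hi
  · rintro _ ⟨i, hi, rfl⟩ _ ⟨j, hj, rfl⟩ hij
    show col.getD (f (σ i)) 0 ≠ col.getD (f (σ j)) 0
    rw [hf i hi, hf j hj]
    have hne : i ≠ j := by
      rintro rfl
      exact G.loopless.irrefl _ hij
    rcases lt_or_gt_of_ne hne with h3 | h3
    · exact (h2 j hj i h3 ((he j hj i h3).2.1 hij.symm)).symm
    · exact h2 i hi j h3 ((he i hi j h3).2.1 hij)

theorem Rule.sound {k n M : ℕ} {σ : ℕ → V} (hcr : Crit G k) (he : Emb G n M σ)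
    (hok : okGraph n M = true) (r : Rule) (hr : r.check k n M = true) :
    ∃ w, (∀ t < n, w ≠ σ t) ∧ (r.alts n ≠ []) ∧
      Guar G n (r.alts n) (Function.update σ n w) := by
  classical
  obtain ⟨hn, -, -⟩ := okGraph_spec hok
  have hc := he.cons hok
  have hadj : ∀ a < n, ∀ b < n, a ≠ b → (G.Adj (σ a) (σ b) ↔ tb M (32 * a + b) = true) := by
    intro a ha b hb hab
    refine (hc a (by omega) b (by omega) ?_).2
    rw [tb_fullK (by omega) n le_rfl a b (by omega)]
    simp [ha, hb, hab]
  cases r with
  | fold l =>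
    simp only [Rule.check, Bool.and_eq_true, List.all_eq_true] at hr
    obtain ⟨hl, hr⟩ := hr
    have hlne : l ≠ [] := by
      rintro rfl
      simp at hl
    -- the set of moved vertices
    set A : Set V := {v | ∃ p ∈ l, σ p.1 = v} with hA
    let φ : V → V := fun v => if h : ∃ p ∈ l, σ p.1 = v then σ (h.choose).2 else v
    have hφ : ∀ v ∈ A, ∃ p ∈ l, σ p.1 = v ∧ φ v = σ p.2 := by
      intro v hv
      have hv' : ∃ p ∈ l, σ p.1 = v := hv
      refine ⟨hv'.choose, hv'.choose_spec.1, hv'.choose_spec.2, ?_⟩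
      exact dif_pos hv'
    have hb : ∀ p ∈ l, p.1 < n ∧ p.2 < n := by
      intro p hp
      obtain ⟨⟨⟨⟨h1, h2⟩, -⟩, -⟩, -⟩ := hr p hp
      exact ⟨Nat.le_of_ble_eq_true h1, Nat.le_of_ble_eq_true h2⟩
    have hnA : ∀ c < n, c ∉ l.map Prod.fst → σ c ∉ A := by
      rintro c hc' hcl ⟨p, hp, hpc⟩
      by_cases h1 : p.1 = c
      · exact hcl (h1 ▸ List.mem_map_of_mem hp)
      · exact he.inj (hb p hp).1 hc' h1 hpc
    obtain ⟨p0, hp0⟩ := List.exists_mem_of_ne_nil l hlne
    obtain ⟨a, ha, w, hwA, haw, hbw⟩ := hcr.fold A φ ⟨σ p0.1, p0, hp0, rfl⟩ (by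
      intro a ha
      obtain ⟨p, hp, -, h2⟩ := hφ a ha
      rw [h2]
      apply hnA _ (hb p hp).2
      obtain ⟨⟨⟨-, h3⟩, -⟩, -⟩ := hr p hp
      simp only [Bool.not_eq_true'] at h3
      intro h4
      rw [memb_iff.2 h4] at h3
      simp at h3) (by
      intro a ha b hb' hab
      obtain ⟨p, hp, h1, h2⟩ := hφ a ha
      obtain ⟨q, hq, h3, h4⟩ := hφ b hb'
      rw [h2, h4]
      rw [← h1, ← h3] at hab
      have hne : p.1 ≠ q.1 := by
        intro h5
        rw [h5] at hab
        exact G.loopless.irrefl _ hab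
      have h5 := (hadj _ (hb p hp).1 _ (hb q hq).1 hne).1 hab
      obtain ⟨⟨-, h6⟩, -⟩ := hr p hp
      have h7 := h6 q hq
      rw [h5, cond_true] at h7
      have hne2 : p.2 ≠ q.2 := by
        intro h8
        rw [h8] at h7
        have := (okGraph_spec hok).2.1 (32 * q.2 + q.2) (by
          rw [tb_fullK (by omega) n le_rfl _ _ (by have := (hb q hq).2; omega)]; simp)
        rw [this] at h7
        simp at h7
      exact (hadj _ (hb p hp).2 _ (hb q hq).2 hne2).2 h7)
    obtain ⟨p, hp, h1, h2⟩ := hφ a ha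
    rw [h2] at hbw
    rw [← h1] at haw
    have hw : ∀ t < n, w ≠ σ t := by
      rintro t ht rfl
      have h3 : t ∉ l.map Prod.fst := by
        intro h4
        obtain ⟨q, hq, hqt⟩ := List.mem_map.1 h4
        exact hwA ⟨q, hq, by rw [hqt]⟩
      have hne : p.1 ≠ t := by
        rintro h5
        rw [h5] at haw
        exact G.loopless.irrefl _ haw
      have h5 := (hadj _ (hb p hp).1 _ ht hne).1 haw
      obtain ⟨-, h6⟩ := hr p hp
      have h7 := allLt_iff.1 h6 t ht
      rw [h5, cond_true, Bool.or_eq_true] at h7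
      rcases h7 with h7 | h7
      · have hne2 : p.2 ≠ t := by
          intro h8
          rw [h8] at h7
          have := (okGraph_spec hok).2.1 (32 * t + t) (by
            rw [tb_fullK (by omega) n le_rfl _ _ (by omega)]; simp)
          rw [this] at h7
          simp at h7
        exact hbw ((hadj _ (hb p hp).2 _ ht hne2).2 h7)
      · exact h3 (memb_iff.1 h7)
    refine ⟨w, hw, hlne, p, hp, ?_, ?_, ?_, ?_⟩
    · have := (hb p hp).1; omega
    · have := (hb p hp).2; omega
    · rw [Function.update_self, Function.update_of_ne (by have := (hb p hp).1; omega)]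
      exact haw.symm
    · rw [Function.update_self, Function.update_of_ne (by have := (hb p hp).2; omega)]
      exact fun h3 => hbw h3.symm
  | deg a =>
    simp only [Rule.check, Bool.and_eq_true] at hr
    obtain ⟨h1, h2⟩ := hr
    have h1 := Nat.le_of_ble_eq_true h1
    have h2 := Nat.le_of_ble_eq_true h2
    rw [cnt_eq] at h2
    obtain ⟨w, hwT, haw⟩ := hcr.degree (σ a)
      (((Finset.range n).filter fun i => tb (Nat.shiftRight M (32 * a)) i = true).image σ)
      (lt_of_le_of_lt Finset.card_image_le h2)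
    have hw : ∀ t < n, w ≠ σ t := by
      rintro t ht rfl
      have hne : a ≠ t := by
        rintro rfl
        exact G.loopless.irrefl _ haw
      have h5 := (hadj _ h1 _ ht hne).1 haw
      exact hwT (Finset.mem_image.2 ⟨t, Finset.mem_filter.2 ⟨Finset.mem_range.2 ht, by
        rw [tb_shift]; exact h5⟩, rfl⟩)
    refine ⟨w, hw, by simp [Rule.alts], (a, n), by simp [Rule.alts], by simp; omega, hn, ?_, ?_⟩
    · simp only [Function.update_self]
      rw [Function.update_of_ne (by omega)]
      exact haw.symm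
    · simp
  | comp C col =>
    simp only [Rule.check, Bool.and_eq_true, List.all_eq_true] at hr
    obtain ⟨⟨hC, h1⟩, h2⟩ := hr
    have hCne : C ≠ [] := by
      rintro rfl
      simp at hC
    obtain ⟨c0, hc0⟩ := List.exists_mem_of_ne_nil C hCne
    have hlt : ∀ c ∈ C, c < n := fun c hc' => Nat.le_of_ble_eq_true (h1 c hc').1
    have huniv : (σ '' {i | i ∈ C}) ≠ Set.univ := by
      intro hu
      rw [Bool.or_eq_true] at h2
      rcases h2 with h2 | h2
      · rw [Bool.not_eq_true'] at h2
        have h3 : ¬ ∀ x < n, memb x C = true := by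
          intro h4
          rw [allLt_iff.2 h4] at h2
          simp at h2
        push Not at h3
        obtain ⟨x, hx, hxC⟩ := h3
        have : σ x ∈ σ '' {i | i ∈ C} := hu ▸ trivial
        obtain ⟨c, hcC, hcx⟩ := this
        have hne : c ≠ x := by
          rintro rfl
          exact hxC (memb_iff.2 hcC)
        exact he.inj (hlt c hcC) hx hne hcx
      · apply hcr.nc
        refine (colOn_of_okCol he h2).mono ?_
        rw [← hu]
        exact Set.image_mono fun i hi => hlt i hi
    obtain ⟨v, ⟨c, hcC, rfl⟩, w, hwC, hcw⟩ := hcr.conn (σ '' {i | i ∈ C})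
      ⟨σ c0, c0, hc0, rfl⟩ huniv
    have hcC : c ∈ C := hcC
    have hw : ∀ t < n, w ≠ σ t := by
      rintro t ht rfl
      have hne : c ≠ t := by
        rintro rfl
        exact G.loopless.irrefl _ hcw
      have h5 := (hadj _ (hlt c hcC) _ ht hne).1 hcw
      have h6 := allLt_iff.1 (h1 c hcC).2 t ht
      rw [h5, cond_true] at h6
      exact hwC ⟨t, memb_iff.1 h6, rfl⟩
    refine ⟨w, hw, by simp [Rule.alts, hCne], (c, n), by simp [Rule.alts, hcC], ?_, hn, ?_, ?_⟩
    · have := hlt c hcC; simp; omega
    · simp only [Function.update_self]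
      rw [Function.update_of_ne (by have := hlt c hcC; omega)]
      exact hcw.symm
    · simp

end

/-! ### steps -/

structure Step where
  n : ℕ
  M : ℕ
  rule : Rule
  uses : List ℕ
  s : ℕ

/-- the graphs with the given positions in the list of excluded graphs -/
def pick (forb : List (ℕ × ℕ)) : List ℕ → List (ℕ × ℕ)
  | [] => []
  | i :: l => match forb[i]? with
    | none => pick forb l
    | some p => p :: pick forb l

theorem mem_of_mem_pick {forb : List (ℕ × ℕ)} {p : ℕ × ℕ} : ∀ {l : List ℕ},
    p ∈ pick forb l → p ∈ forb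
  | [], h => by simp [pick] at h
  | i :: l, h => by
    rw [pick] at h
    split at h
    · exact mem_of_mem_pick h
    · rename_i q hq
      rcases List.mem_cons.1 h with rfl | h
      · exact List.mem_of_getElem? hq
      · exact mem_of_mem_pick h

def isSome' : Option ℕ → Bool
  | none => false
  | some _ => true

theorem isSome'_iff {o : Option ℕ} : isSome' o = true ↔ ∃ s, o = some s := by
  cases o <;> simp [isSome']

def Step.check (k : ℕ) (forb : List (ℕ × ℕ)) (st : Step) : Bool :=
  okGraph st.n st.M && st.rule.check k st.n st.M &&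
    isSome' (run (pick forb st.uses) st.n (st.rule.alts st.n) [] 40 st.M (fullK st.n st.n) st.s)

/-- check all steps; later steps may use the graphs excluded by earlier ones -/
def checkAll (k : ℕ) : List (ℕ × ℕ) → List Step → Bool
  | _, [] => true
  | forb, st :: l => st.check k forb && checkAll k ((st.n, st.M) :: forb) l

section

variable {V : Type*} {G : SimpleGraph V}

theorem Step.sound {k : ℕ} (hcr : Crit G k) {forb : List (ℕ × ℕ)}
    (hf : ∀ p ∈ forb, Avoid G p.1 p.2) (st : Step) (h : st.check k forb = true) :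
    Avoid G st.n st.M := by
  classical
  intro σ he
  simp only [Step.check, Bool.and_eq_true] at h
  obtain ⟨⟨h1, h2⟩, h3⟩ := h
  obtain ⟨s', hs'⟩ := isSome'_iff.1 h3
  obtain ⟨hn, hinv, -⟩ := okGraph_spec h1
  obtain ⟨w, hw, hne, hg⟩ := st.rule.sound hcr he h1 h2
  obtain ⟨m, hm, -⟩ := run_sound (σ := Function.update σ st.n w) hn
    (fun p hp => hf p (mem_of_mem_pick hp)) (by
      intro t ht
      rw [Function.update_self, Function.update_of_ne (by omega)]
      exact hw t ht) (Or.inr hg) _ _ _ _ _ hs' (by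
      refine (he.cons h1).congr (n := st.n) ?_ ?_
      · intro a b hb hk
        rw [tb_fullK (by omega) _ le_rfl a b hb] at hk
        simp only [Bool.and_eq_true, decide_eq_true_eq] at hk
        exact ⟨hk.1, hk.2.1⟩
      · intro a ha
        rw [Function.update_of_ne (by omega)]) hinv
  simp at hm

theorem checkAll_sound {k : ℕ} (hcr : Crit G k) : ∀ (l : List Step) (forb : List (ℕ × ℕ)),
    (∀ p ∈ forb, Avoid G p.1 p.2) → checkAll k forb l = true →
    ∀ st ∈ l, Avoid G st.n st.M
  | [], _, _, _, st, hst => by simp at hst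
  | s0 :: l, forb, hf, h, st, hst => by
    simp only [checkAll, Bool.and_eq_true] at h
    have h0 := Step.sound hcr hf s0 h.1
    rcases List.mem_cons.1 hst with rfl | hst
    · exact h0
    · refine checkAll_sound hcr l _ ?_ h.2 st hst
      intro p hp
      rcases List.mem_cons.1 hp with rfl | hp
      · exact h0
      · exact hf p hp

end

end Pool.Agent.Helper76
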