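import Pool.Agent.Helper76.Hitting

/-!
Three disjoint cliques of size `r` that cover the vertex set: `r` colours are enough.
Critical graphs have no clique cutsets.
-/

namespace Pool.Agent.Helper76

open SimpleGraph

variable {V : Type*} {G : SimpleGraph V}

theorem hall_avoid {r : ℕ} (hr : 5 ≤ r) {N : Finset V} (hN : N.card = r) (B : V → ℕ → Prop)
    (h1 : ∀ n ∈ N, ∃ T : Finset ℕ, T.card ≤ 2 ∧ ∀ c < r, B n c → c ∈ T)
    (h2 : ∀ c < r, ∃ T : Finset V, T.card ≤ 2 ∧ ∀ n ∈ N, B n c → n ∈ T) :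
    ∃ h : V → ℕ, (∀ n ∈ N, h n < r) ∧ (∀ n ∈ N, ∀ m ∈ N, n ≠ m → h n ≠ h m) ∧
      ∀ n ∈ N, ¬ B n (h n) := by
  classical
  let t : {x // x ∈ N} → Finset ℕ := fun n => (Finset.range r).filter fun c => ¬ B n c
  have hall : ∀ s : Finset {x // x ∈ N}, s.card ≤ (s.biUnion t).card := by
    intro s
    have hs : s.card ≤ r := by
      have := Finset.card_le_univ s
      rwa [Fintype.card_coe, hN] at this
    rcases s.eq_empty_or_nonempty with rfl | ⟨n, hn⟩
    · simp
    · by_cases hs3 : 3 ≤ s.card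
      · -- every colour is available
        have : Finset.range r ⊆ s.biUnion t := by
          intro c hc
          obtain ⟨T, hT, hT'⟩ := h2 c (Finset.mem_range.1 hc)
          obtain ⟨x, hx, hx'⟩ : ∃ x ∈ s, (x : V) ∉ T := by
            by_contra hcon
            push Not at hcon
            have h4 : (s.image Subtype.val).card ≤ T.card := by
              apply Finset.card_le_card
              intro y hy
              obtain ⟨x, hx, rfl⟩ := Finset.mem_image.1 hy
              exact hcon x hx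
            rw [Finset.card_image_of_injective _ Subtype.val_injective] at h4
            omega
          refine Finset.mem_biUnion.2 ⟨x, hx, Finset.mem_filter.2 ⟨hc, fun hB => ?_⟩⟩
          exact hx' (hT' x x.2 hB)
        have h5 := Finset.card_le_card this
        rw [Finset.card_range] at h5
        omega
      · obtain ⟨T, hT, hT'⟩ := h1 n n.2
        have : Finset.range r \ T ⊆ s.biUnion t := by
          intro c hc
          rw [Finset.mem_sdiff] at hc
          refine Finset.mem_biUnion.2 ⟨n, hn, Finset.mem_filter.2 ⟨hc.1, fun hB => ?_⟩⟩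
          exact hc.2 (hT' c (Finset.mem_range.1 hc.1) hB)
        have h5 := Finset.card_le_card this
        have h6 := Finset.le_card_sdiff T (Finset.range r)
        rw [Finset.card_range] at h6
        omega
  obtain ⟨f, hf, hft⟩ := (Finset.all_card_le_biUnion_card_iff_exists_injective t).1 hall
  refine ⟨fun v => if h : v ∈ N then f ⟨v, h⟩ else 0, ?_, ?_, ?_⟩
  · intro n hn
    simp only [hn, dif_pos]
    exact Finset.mem_range.1 (Finset.mem_filter.1 (hft ⟨n, hn⟩)).1
  · intro n hn m hm hne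
    simp only [hn, hm, dif_pos]
    intro heq
    exact hne (congrArg Subtype.val (hf heq))
  · intro n hn
    simp only [hn, dif_pos]
    exact (Finset.mem_filter.1 (hft ⟨n, hn⟩)).2

/-- the colours used on the neighbours of `v` in the clique `K` -/
theorem few_colours {r : ℕ} (hdf : DF G) (hno : NoQC G (r + 1)) {K : Finset V}
    (hK : QC G r K) (f : V → ℕ) {v : V} (hv : v ∉ K) :
    ∃ T : Finset ℕ, T.card ≤ 1 ∧ ∀ c, (∃ a ∈ K, G.Adj a v ∧ f a = c) → c ∈ T := by
  classical
  refine ⟨(nb G K v).image f, Finset.card_image_le.trans (nb_card hdf hno hK hv), ?_⟩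
  rintro c ⟨a, ha, hav, rfl⟩
  exact Finset.mem_image_of_mem _ (mem_nb.2 ⟨ha, hav.symm⟩)

theorem few_vertices {r : ℕ} (hdf : DF G) (hno : NoQC G (r + 1)) {K N : Finset V}
    (hN : QC G r N) (hd : Disjoint K N) (f : V → ℕ)
    (hf : ∀ a ∈ K, ∀ b ∈ K, a ≠ b → f a ≠ f b) (c : ℕ) :
    ∃ T : Finset V, T.card ≤ 1 ∧ ∀ n ∈ N, (∃ a ∈ K, G.Adj a n ∧ f a = c) → n ∈ T := by
  classical
  by_cases hex : ∃ a ∈ K, f a = c
  · obtain ⟨a, ha, hac⟩ := hex
    refine ⟨nb G N a, nb_card hdf hno hN (Finset.disjoint_left.1 hd ha), ?_⟩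
    rintro n hn ⟨b, hb, hbn, hbc⟩
    have hab : a = b := by
      by_contra hne
      exact hf a ha b hb hne (hac.trans hbc.symm)
    subst hab
    exact mem_nb.2 ⟨hn, hbn⟩
  · push Not at hex
    refine ⟨∅, by simp, ?_⟩
    rintro n hn ⟨b, hb, hbn, hbc⟩
    exact absurd hbc (hex b hb)

theorem colour_three {r : ℕ} (hr : 5 ≤ r) (hdf : DF G) (hno : NoQC G (r + 1))
    {K L N : Finset V} (hK : QC G r K) (hL : QC G r L) (hN : QC G r N) (hKL : Disjoint K L)
    (hKN : Disjoint K N) (hLN : Disjoint L N) (hall : ∀ v, v ∈ K ∨ v ∈ L ∨ v ∈ N) :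
    ColOn G r Set.univ := by
  classical
  obtain ⟨f, f1, f2, -⟩ := hall_avoid hr hK.1 (fun _ _ => False)
    (fun _ _ => ⟨∅, by simp, by simp⟩) (fun _ _ => ⟨∅, by simp, by simp⟩)
  obtain ⟨g, g1, g2, g3⟩ := hall_avoid hr hL.1 (fun b c => ∃ a ∈ K, G.Adj a b ∧ f a = c)
    (fun b hb => by
      obtain ⟨T, hT, hT'⟩ := few_colours hdf hno hK f
        (fun h => Finset.disjoint_left.1 hKL h hb)
      exact ⟨T, by omega, fun c _ => hT' c⟩)
    (fun c _ => by
      obtain ⟨T, hT, hT'⟩ := few_vertices hdf hno hL hKL f f2 c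
      exact ⟨T, by omega, hT'⟩)
  obtain ⟨h, h1, h2, h3⟩ := hall_avoid hr hN.1
    (fun n c => (∃ a ∈ K, G.Adj a n ∧ f a = c) ∨ (∃ b ∈ L, G.Adj b n ∧ g b = c))
    (fun n hn => by
      obtain ⟨T, hT, hT'⟩ := few_colours hdf hno hK f
        (fun h => Finset.disjoint_left.1 hKN h hn)
      obtain ⟨S, hS, hS'⟩ := few_colours hdf hno hL g
        (fun h => Finset.disjoint_left.1 hLN h hn)
      refine ⟨T ∪ S, (Finset.card_union_le _ _).trans (by omega), ?_⟩
      rintro c _ (hc | hc)
      · exact Finset.mem_union_left _ (hT' c hc)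
      · exact Finset.mem_union_right _ (hS' c hc))
    (fun c _ => by
      obtain ⟨T, hT, hT'⟩ := few_vertices hdf hno hN hKN f f2 c
      obtain ⟨S, hS, hS'⟩ := few_vertices hdf hno hN hLN g g2 c
      refine ⟨T ∪ S, (Finset.card_union_le _ _).trans (by omega), ?_⟩
      rintro n hn (hc | hc)
      · exact Finset.mem_union_left _ (hT' n hn hc)
      · exact Finset.mem_union_right _ (hS' n hn hc))
  have dKL : ∀ v ∈ L, v ∉ K := fun v hv h => Finset.disjoint_left.1 hKL h hv
  have dKN : ∀ v ∈ N, v ∉ K := fun v hv h => Finset.disjoint_left.1 hKN h hv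
  have dLN : ∀ v ∈ N, v ∉ L := fun v hv h => Finset.disjoint_left.1 hLN h hv
  let c : V → ℕ := fun v => if v ∈ K then f v else if v ∈ L then g v else h v
  have cK : ∀ v ∈ K, c v = f v := fun v hv => by simp [c, hv]
  have cL : ∀ v ∈ L, c v = g v := fun v hv => by simp [c, hv, dKL v hv]
  have cN : ∀ v ∈ N, c v = h v := fun v hv => by simp [c, dKN v hv, dLN v hv]
  refine ⟨c, ?_, ?_⟩
  · intro v _
    rcases hall v with hv | hv | hv
    · rw [cK v hv]; exact f1 v hv
    · rw [cL v hv]; exact g1 v hv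
    · rw [cN v hv]; exact h1 v hv
  · have kKL : ∀ u ∈ K, ∀ v ∈ L, G.Adj u v → c u ≠ c v := by
      intro u hu v hv huv
      rw [cK u hu, cL v hv]
      exact fun heq => g3 v hv ⟨u, hu, huv, heq⟩
    have kKN : ∀ u ∈ K, ∀ v ∈ N, G.Adj u v → c u ≠ c v := by
      intro u hu v hv huv
      rw [cK u hu, cN v hv]
      exact fun heq => h3 v hv (Or.inl ⟨u, hu, huv, heq⟩)
    have kLN : ∀ u ∈ L, ∀ v ∈ N, G.Adj u v → c u ≠ c v := by
      intro u hu v hv huv
      rw [cL u hu, cN v hv]
      exact fun heq => h3 v hv (Or.inr ⟨u, hu, huv, heq⟩)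
    intro u _ v _ huv
    rcases hall u with hu | hu | hu <;> rcases hall v with hv | hv | hv
    · rw [cK u hu, cK v hv]; exact f2 u hu v hv huv.ne
    · exact kKL u hu v hv huv
    · exact kKN u hu v hv huv
    · exact (kKL v hv u hu huv.symm).symm
    · rw [cL u hu, cL v hv]; exact g2 u hu v hv huv.ne
    · exact kLN u hu v hv huv
    · exact (kKN v hv u hu huv.symm).symm
    · exact (kLN v hv u hu huv.symm).symm
    · rw [cN u hu, cN v hv]; exact h2 u hu v hv huv.ne

/-- no clique cutset -/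
theorem Crit.cutset {k : ℕ} (h : Crit G k) (N : Finset V)
    (hN : ∀ a ∈ N, ∀ b ∈ N, a ≠ b → G.Adj a b) (C : Set V) (hne : C.Nonempty)
    (hCN : ∀ v ∈ C, v ∉ N) {w0 : V} (hw0 : w0 ∉ C) (hw0N : w0 ∉ N) :
    ∃ c ∈ C, ∃ w, w ∉ C ∧ w ∉ N ∧ G.Adj c w := by
  classical
  by_contra hcon
  push Not at hcon
  obtain ⟨c0, hc0⟩ := hne
  -- colourings of both sides
  obtain ⟨c, c1, c2⟩ := h.cr w0
  obtain ⟨d, d1, d2⟩ := h.cr c0
  have cN : ∀ a ∈ N, c a < k := fun a ha => c1 a (by rintro rfl; exact hw0N ha)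
  have dN : ∀ a ∈ N, d a < k := fun a ha => d1 a (by rintro rfl; exact hCN _ hc0 ha)
  have cinj : ∀ a ∈ N, ∀ b ∈ N, a ≠ b → c a ≠ c b := fun a ha b hb hab =>
    c2 a (by rintro rfl; exact hw0N ha) b (by rintro rfl; exact hw0N hb) (hN a ha b hb hab)
  have dinj : ∀ a ∈ N, ∀ b ∈ N, a ≠ b → d a ≠ d b := fun a ha b hb hab =>
    d2 a (by rintro rfl; exact hCN _ hc0 ha) b (by rintro rfl; exact hCN _ hc0 hb)
      (hN a ha b hb hab)
  -- a permutation of the colours matching `d` with `c` on `N`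
  obtain ⟨π, hπ⟩ : ∃ π : Equiv.Perm (Fin k), ∀ a (ha : a ∈ N),
      π ⟨d a, dN a ha⟩ = ⟨c a, cN a ha⟩ := by
    let e : {x : Fin k // ∃ a, ∃ ha : a ∈ N, x = ⟨d a, dN a ha⟩} ≃
        {x : Fin k // ∃ a, ∃ ha : a ∈ N, x = ⟨c a, cN a ha⟩} := by
      refine Equiv.ofBijective (fun x => ⟨⟨c x.2.choose, cN _ x.2.choose_spec.choose⟩,
        x.2.choose, x.2.choose_spec.choose, rfl⟩) ⟨?_, ?_⟩
      · intro x y hxy
        simp only [Subtype.mk.injEq, Fin.mk.injEq] at hxy
        have h1 : x.2.choose = y.2.choose := by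
          by_contra hne
          exact cinj _ x.2.choose_spec.choose _ y.2.choose_spec.choose hne hxy
        apply Subtype.ext
        rw [x.2.choose_spec.choose_spec, y.2.choose_spec.choose_spec]
        simp only [Fin.mk.injEq]
        rw [h1]
      · rintro ⟨y, a, ha, rfl⟩
        let x : {x : Fin k // ∃ a, ∃ ha : a ∈ N, x = ⟨d a, dN a ha⟩} :=
          ⟨⟨d a, dN a ha⟩, a, ha, rfl⟩
        refine ⟨x, ?_⟩
        have h1 : x.2.choose = a := by
          by_contra hne
          have h2 := x.2.choose_spec.choose_spec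
          have h3 : d a = d x.2.choose := congrArg Fin.val h2
          exact dinj _ ha _ x.2.choose_spec.choose (Ne.symm hne) h3
        apply Subtype.ext
        simp only [Fin.mk.injEq]
        rw [h1]
    refine ⟨e.extendSubtype, fun a ha => ?_⟩
    rw [e.extendSubtype_apply_of_mem _ ⟨a, ha, rfl⟩]
    let x : {x : Fin k // ∃ a, ∃ ha : a ∈ N, x = ⟨d a, dN a ha⟩} :=
      ⟨⟨d a, dN a ha⟩, a, ha, rfl⟩
    have h1 : x.2.choose = a := by
      by_contra hne
      have h2 := x.2.choose_spec.choose_spec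
      have h3 : d a = d x.2.choose := congrArg Fin.val h2
      exact dinj _ ha _ x.2.choose_spec.choose (Ne.symm hne) h3
    show (⟨c x.2.choose, _⟩ : Fin k) = _
    simp only [Fin.mk.injEq]
    rw [h1]
  -- the combined colouring
  let d' : V → ℕ := fun v => if hv : d v < k then π ⟨d v, hv⟩ else 0
  have hd' : ∀ v (hv : d v < k), d' v = π ⟨d v, hv⟩ := fun v hv => dif_pos hv
  have hd'N : ∀ a ∈ N, d' a = c a := by
    intro a ha
    rw [hd' a (dN a ha), hπ a ha]
  have hd'ne : ∀ u v, u ≠ c0 → v ≠ c0 → G.Adj u v → d' u ≠ d' v := by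
    intro u v hu hv huv heq
    rw [hd' u (d1 u hu), hd' v (d1 v hv)] at heq
    have h1 := π.injective (Fin.ext heq)
    exact d2 u hu v hv huv (congrArg Fin.val h1)
  refine h.nc ⟨fun v => if v ∈ C then c v else d' v, ?_, ?_⟩
  · intro v _
    by_cases hv : v ∈ C
    · simp only [hv, if_true]
      exact c1 v (by rintro rfl; exact hw0 hv)
    · simp only [hv, if_false]
      have : v ≠ c0 := by rintro rfl; exact hv hc0
      rw [hd' v (d1 v this)]
      exact (π _).2
  · have mixed : ∀ u ∈ C, ∀ v, v ∉ C → G.Adj u v → c u ≠ d' v := by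
      intro u hu v hv huv
      have hvN : v ∈ N := by
        by_contra hvN
        exact hcon u hu v hv hvN huv
      rw [hd'N v hvN]
      exact c2 u (by rintro rfl; exact hw0 hu) v (by rintro rfl; exact hw0N hvN) huv
    intro u _ v _ huv
    by_cases hu : u ∈ C <;> by_cases hv : v ∈ C
    · simp only [hu, hv, if_true]
      exact c2 u (by rintro rfl; exact hw0 hu) v (by rintro rfl; exact hw0 hv) huv
    · simp only [hu, hv, if_true, if_false]
      exact mixed u hu v hv huv
    · simp only [hu, hv, if_true, if_false]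
      exact (mixed v hv u hu huv.symm).symm
    · simp only [hu, hv, if_false]
      exact hd'ne u v (by rintro rfl; exact hu hc0) (by rintro rfl; exact hv hc0) huv

end Pool.Agent.Helper76
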