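import Pool.Agent.Helper76.Step

/-!
Colouring a graph that contains a fixed base graph: the colour of a vertex outside of the
base depends only on its neighbours in the base.
-/

namespace Pool.Agent.Helper76

open SimpleGraph

/-- bits of a new column -/
def colBits (n mask : ℕ) : ℕ → ℕ :=
  fun m => Nat.rec 0 (fun t ih => cond (tb mask t) (Nat.lor ih (2 ^ (32 * t + n))) ih) m

/-- add vertex `n` with neighbours `mask` -/
def extG (n M mask : ℕ) : ℕ :=
  Nat.lor M (Nat.lor (Nat.shiftLeft mask (32 * n)) (colBits n mask n))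

theorem tb_colBits (n mask i : ℕ) : ∀ m, tb (colBits n mask m) i = true →
    ∃ t < m, i = 32 * t + n ∧ tb mask t = true
  | 0, h => by simp [colBits, tb_zero] at h
  | m + 1, h => by
    have e : colBits n mask (m + 1) =
      cond (tb mask m) (colBits n mask m ||| (2 ^ (32 * m + n))) (colBits n mask m) := rfl
    rw [e] at h
    cases hm : tb mask m with
    | false =>
      rw [hm] at h
      obtain ⟨t, h1, h2, h3⟩ := tb_colBits n mask i m h
      exact ⟨t, by omega, h2, h3⟩
    | true =>
      rw [hm, cond_true, tb_or, tb_pow, Bool.or_eq_true] at h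
      rcases h with h | h
      · obtain ⟨t, h1, h2, h3⟩ := tb_colBits n mask i m h
        exact ⟨t, by omega, h2, h3⟩
      · simp only [decide_eq_true_eq] at h
        exact ⟨m, by omega, h.symm, hm⟩

/-- a fully known graph that contains one of the excluded graphs -/
def leafOK (F : List (ℕ × ℕ)) (n M s : ℕ) : Bool :=
  okGraph n M &&
  (match F[s % 32]? with
    | none => false
    | some p => isSome' (emb M (fullK n n) p.2 p.1 0 [] (s / 32)))

section

variable {V : Type*} {G : SimpleGraph V}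

theorem leafOK_sound {F : List (ℕ × ℕ)} {n M s : ℕ} (hF : ∀ p ∈ F, Avoid G p.1 p.2)
    (h : leafOK F n M s = true) : Avoid G n M := by
  intro σ he
  simp only [leafOK, Bool.and_eq_true] at h
  obtain ⟨h1, h2⟩ := h
  split at h2
  · simp at h2
  · rename_i p hp
    obtain ⟨s', hs'⟩ := isSome'_iff.1 h2
    exact emb_sound (hF p (List.mem_of_getElem? hp)) (he.cons h1) hs'

theorem Emb.ext {n M mask : ℕ} {σ : ℕ → V} (he : Emb G n M σ) (hok : okGraph n M = true)
    {w : V} (hw : ∀ t < n, w ≠ σ t) (hm : ∀ t < n, G.Adj w (σ t) ↔ tb mask t = true) :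
    Emb G (n + 1) (extG n M mask) (Function.update σ n w) := by
  obtain ⟨hn, hinv, -⟩ := okGraph_spec hok
  have e : extG n M mask = M ||| ((mask <<< (32 * n)) ||| colBits n mask n) := rfl
  intro a ha b hb
  have hbn : b ≠ n := by omega
  rw [Function.update_of_ne hbn, e, tb_or, tb_or]
  have hcol : tb (colBits n mask n) (32 * a + b) = false := by
    by_contra hx
    obtain ⟨t, h1, h2, -⟩ := tb_colBits n mask _ n (by simpa using hx)
    omega
  rw [hcol, Bool.or_false]
  by_cases han : a = n
  · subst han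
    rw [Function.update_self]
    refine ⟨hw b hb, ?_⟩
    have h1 : tb M (32 * a + b) = false := by
      apply hinv
      rw [tb_fullK (by omega) a le_rfl _ _ (by omega)]
      simp
    have h2 : tb (mask <<< (32 * a)) (32 * a + b) = tb mask b := by
      rw [tb_eq, Nat.testBit_shiftLeft, tb_eq]
      simp
    rw [h1, h2, hm b hb]
    simp
  · rw [Function.update_of_ne han]
    have h2 : tb (mask <<< (32 * n)) (32 * a + b) = false := by
      rw [tb_eq, Nat.testBit_shiftLeft]
      have : ¬ (32 * a + b ≥ 32 * n) := by omega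
      simp [this]
    rw [h2, Bool.or_false]
    exact he a (by omega) b hb

end

/-- a table entry: mask, colour, refutations of adjacencies to entries of the same colour -/
structure Ent where
  m : ℕ
  c : ℕ
  l : List (ℕ × ℕ)

structure TC where
  n : ℕ
  M : ℕ
  bc : List ℕ
  tbl : List Ent
  tree : ℕ

/-- the edge between vertices with masks `e` and `f` is refuted -/
def hasLeaf (F : List (ℕ × ℕ)) (n M e f : ℕ) : List (ℕ × ℕ) → Bool
  | [] => false
  | p :: l => cond (Nat.beq p.1 f)
      (leafOK F (n + 2) (extG (n + 1) (extG n M e) (Nat.lor f (2 ^ n))) p.2)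
      (hasLeaf F n M e f l)

def TC.check (k : ℕ) (F : List (ℕ × ℕ)) (T : TC) : Bool :=
  okGraph T.n T.M &&
  isSome' (run F T.n [] (T.tbl.map Ent.m) 40 T.M (fullK T.n T.n) T.tree) &&
  okCol k T.n T.M T.bc &&
  (T.tbl.all fun e => okGraph (T.n + 1) (extG T.n T.M e.m) && Nat.ble (e.c + 1) k &&
    (allLt T.n fun t => cond (tb e.m t) (!Nat.beq (T.bc.getD t 0) e.c) true) &&
    (T.tbl.all fun f => cond (Nat.beq e.c f.c && Nat.ble e.m f.m)
      (hasLeaf F T.n T.M e.m f.m e.l) true))

section

variable {V : Type*} {G : SimpleGraph V}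

theorem hasLeaf_sound {F : List (ℕ × ℕ)} {n M e f : ℕ} (hF : ∀ p ∈ F, Avoid G p.1 p.2) :
    ∀ l : List (ℕ × ℕ), hasLeaf F n M e f l = true →
      Avoid G (n + 2) (extG (n + 1) (extG n M e) (Nat.lor f (2 ^ n)))
  | [], h => by simp [hasLeaf] at h
  | p :: l, h => by
    rw [hasLeaf] at h
    cases hp : Nat.beq p.1 f with
    | true => rw [hp, cond_true] at h; exact leafOK_sound hF h
    | false => rw [hp, cond_false] at h; exact hasLeaf_sound hF l h

/-- two adjacent vertices outside of the base give an embedding of the doubly extended graph -/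
theorem Emb.ext2 {n M e f : ℕ} {σ : ℕ → V} (he : Emb G n M σ) (hok : okGraph n M = true)
    (hok1 : okGraph (n + 1) (extG n M e) = true)
    {v w : V} (hv : ∀ t < n, v ≠ σ t) (hw : ∀ t < n, w ≠ σ t)
    (hvm : ∀ t < n, G.Adj v (σ t) ↔ tb e t = true)
    (hwm : ∀ t < n, G.Adj w (σ t) ↔ tb f t = true) (hwlt : ∀ t, n ≤ t → tb f t = false)
    {x : ℕ} (hx : (x = 2 ^ n ∧ G.Adj w v) ∨ (x = 0 ∧ ¬ G.Adj w v)) (hne : w ≠ v) :
    Emb G (n + 2) (extG (n + 1) (extG n M e) (Nat.lor f x))
      (Function.update (Function.update σ n v) (n + 1) w) := by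
  have h1 := he.ext hok hv hvm
  refine h1.ext hok1 ?_ ?_
  · intro t ht
    by_cases htn : t = n
    · subst htn; rw [Function.update_self]; exact hne
    · rw [Function.update_of_ne htn]; exact hw t (by omega)
  · intro t ht
    have e1 : Nat.lor f x = f ||| x := rfl
    rw [e1, tb_or]
    by_cases htn : t = n
    · subst htn
      rw [Function.update_self, hwlt t le_rfl, Bool.false_or]
      rcases hx with ⟨rfl, hadj⟩ | ⟨rfl, hadj⟩
      · simp [hadj, tb_pow]
      · simp [hadj, tb_zero]
    · rw [Function.update_of_ne htn]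
      have hx0 : tb x t = false := by
        rcases hx with ⟨rfl, -⟩ | ⟨rfl, -⟩
        · rw [tb_pow]; simp; omega
        · exact tb_zero _
      rw [hx0, Bool.or_false]
      exact hwm t (by omega)

/-- every vertex outside of the base has one of the accepted masks -/
theorem exists_mask {F : List (ℕ × ℕ)} {n M tree : ℕ} {acc : List ℕ} {σ : ℕ → V}
    (hF : ∀ p ∈ F, Avoid G p.1 p.2) (he : Emb G n M σ) (hok : okGraph n M = true)
    (h : isSome' (run F n [] acc 40 M (fullK n n) tree) = true) (v : V)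
    (hv : ∀ t < n, v ≠ σ t) : ∃ m ∈ acc, ∀ t < n, G.Adj v (σ t) ↔ tb m t = true := by
  obtain ⟨s', hs'⟩ := isSome'_iff.1 h
  obtain ⟨hn, hinv, -⟩ := okGraph_spec hok
  obtain ⟨m, hm, h1⟩ := run_sound (σ := Function.update σ n v) hn hF (by
      intro t ht
      rw [Function.update_self, Function.update_of_ne (by omega)]
      exact hv t ht) (Or.inl rfl) _ _ _ _ _ hs' (by
      refine (he.cons hok).congr (n := n) ?_ ?_
      · intro a b hb hk
        rw [tb_fullK (by omega) _ le_rfl a b hb] at hk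
        simp only [Bool.and_eq_true, decide_eq_true_eq] at hk
        exact ⟨hk.1, hk.2.1⟩
      · intro a ha
        rw [Function.update_of_ne (by omega)]) hinv
  refine ⟨m, hm, fun t ht => ?_⟩
  have := h1 t ht
  rwa [Function.update_self, Function.update_of_ne (by omega)] at this

theorem mask_lt {n M m : ℕ} (h : okGraph (n + 1) (extG n M m) = true) (t : ℕ) (ht : n ≤ t) :
    tb m t = false := by
  obtain ⟨hn, hinv, -⟩ := okGraph_spec h
  by_contra hm
  have hm : tb m t = true := by simpa using hm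
  have e : extG n M m = M ||| ((m <<< (32 * n)) ||| colBits n m n) := rfl
  have h1 : tb (extG n M m) (32 * n + t) = true := by
    rw [e, tb_or, tb_or]
    have : tb (m <<< (32 * n)) (32 * n + t) = true := by
      rw [tb_eq, Nat.testBit_shiftLeft]
      rw [tb_eq] at hm
      simpa using hm
    rw [this]
    simp
  have h2 : tb (fullK (n + 1) (n + 1)) (32 * n + t) = false := by
    have h3 : 32 * n + t = 32 * (n + t / 32) + t % 32 := by omega
    rw [h3, tb_fullK (by omega) _ le_rfl _ _ (by omega)]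
    by_cases h4 : t < 32
    · have h5 : t / 32 = 0 := by omega
      have h6 : t % 32 = t := by omega
      rw [h5, h6]
      by_cases h7 : n = t
      · simp [h7]
      · simp; omega
    · have h5 : 0 < t / 32 := by omega
      have : ¬ (n + t / 32 < n + 1) := by omega
      simp [this]
  rw [hinv _ h2] at h1
  simp at h1

theorem TC.sound {k : ℕ} {F : List (ℕ × ℕ)} (hF : ∀ p ∈ F, Avoid G p.1 p.2) (T : TC)
    (h : T.check k F = true) {σ : ℕ → V} (he : Emb G T.n T.M σ) : ColOn G k Set.univ := by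
  classical
  simp only [TC.check, Bool.and_eq_true, List.all_eq_true] at h
  obtain ⟨⟨⟨h1, h2⟩, h3⟩, h4⟩ := h
  obtain ⟨b1, b2⟩ := okCol_spec h3
  have hent : ∀ v : V, (∀ t < T.n, v ≠ σ t) → ∃ e ∈ T.tbl,
      ∀ t < T.n, G.Adj v (σ t) ↔ tb e.m t = true := by
    intro v hv
    obtain ⟨m, hm, hmt⟩ := exists_mask hF he h1 h2 v hv
    obtain ⟨e, he', rfl⟩ := List.mem_map.1 hm
    exact ⟨e, he', hmt⟩
  choose ent hent1 hent2 using hent
  -- the colouring
  let c : V → ℕ := fun v => if hv : ∀ t < T.n, v ≠ σ t then (ent v hv).c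
    else T.bc.getD (Classical.epsilon fun t => t < T.n ∧ v = σ t) 0
  have hc1 : ∀ v (hv : ∀ t < T.n, v ≠ σ t), c v = (ent v hv).c := by
    intro v hv
    exact dif_pos hv
  have hc2 : ∀ t < T.n, c (σ t) = T.bc.getD t 0 := by
    intro t ht
    have hv : ¬ ∀ t' < T.n, σ t ≠ σ t' := by
      push Not
      exact ⟨t, ht, rfl⟩
    have e1 : c (σ t) = T.bc.getD (Classical.epsilon fun t' => t' < T.n ∧ σ t = σ t') 0 :=
      dif_neg hv
    have h5 := Classical.epsilon_spec (p := fun t' => t' < T.n ∧ σ t = σ t') ⟨t, ht, rfl⟩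
    rw [e1]
    congr 1
    by_contra hne
    exact he.inj ht h5.1 (fun h6 => hne h6.symm) h5.2
  have hbase : ∀ v, ¬ (∀ t < T.n, v ≠ σ t) → ∃ t < T.n, v = σ t := by
    intro v hv
    push Not at hv
    exact hv
  have hbv : ∀ v (hv : ∀ t < T.n, v ≠ σ t), ∀ t < T.n, G.Adj v (σ t) →
      c v ≠ c (σ t) := by
    intro v hv t ht hadj
    rw [hc1 v hv, hc2 t ht]
    obtain ⟨⟨-, h6⟩, -⟩ := h4 _ (hent1 v hv)
    have h7 := allLt_iff.1 h6 t ht
    rw [(hent2 v hv t ht).1 hadj, cond_true] at h7
    simp only [Bool.not_eq_true'] at h7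
    intro heq
    rw [heq] at h7
    simp at h7
  refine ⟨c, ?_, ?_⟩
  · intro v _
    by_cases hv : ∀ t < T.n, v ≠ σ t
    · rw [hc1 v hv]
      obtain ⟨⟨⟨-, h5⟩, -⟩, -⟩ := h4 _ (hent1 v hv)
      exact Nat.le_of_ble_eq_true h5
    · obtain ⟨t, ht, rfl⟩ := hbase v hv
      rw [hc2 t ht]
      exact b1 t ht
  · intro v _ w _ hvw
    by_cases hv : ∀ t < T.n, v ≠ σ t <;> by_cases hw : ∀ t < T.n, w ≠ σ t
    · -- both outside
      intro heq
      rw [hc1 v hv, hc1 w hw] at heq
      have key : ∀ (x y : V) (hx : ∀ t < T.n, x ≠ σ t) (hy : ∀ t < T.n, y ≠ σ t),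
          G.Adj y x → (ent x hx).c = (ent y hy).c → (ent x hx).m ≤ (ent y hy).m → False := by
        intro x y hx hy hadj hcc hmm
        obtain ⟨⟨⟨o1, -⟩, -⟩, h6⟩ := h4 _ (hent1 x hx)
        have h7 := h6 _ (hent1 y hy)
        have h8 : (Nat.beq (ent x hx).c (ent y hy).c && Nat.ble (ent x hx).m (ent y hy).m)
            = true := by
          rw [Bool.and_eq_true]
          exact ⟨by rw [hcc]; simp, Nat.ble_eq_true_of_le hmm⟩
        rw [h8, cond_true] at h7
        have h9 := hasLeaf_sound hF _ h7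
        obtain ⟨⟨⟨o2, -⟩, -⟩, -⟩ := h4 _ (hent1 y hy)
        exact h9 _ (he.ext2 h1 o1 hx hy (hent2 x hx) (hent2 y hy) (mask_lt o2)
          (Or.inl ⟨rfl, hadj⟩) hadj.ne)
      rcases le_total (ent v hv).m (ent w hw).m with hm | hm
      · exact key v w hv hw hvw.symm heq hm
      · exact key w v hw hv hvw heq.symm hm
    · obtain ⟨t, ht, rfl⟩ := hbase w hw
      exact hbv v hv t ht hvw
    · obtain ⟨t, ht, rfl⟩ := hbase v hv
      exact (hbv w hw t ht hvw.symm).symm
    · obtain ⟨t, ht, rfl⟩ := hbase v hv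
      obtain ⟨t', ht', rfl⟩ := hbase w hw
      rw [hc2 t ht, hc2 t' ht']
      have hne : t ≠ t' := by
        rintro rfl
        exact G.loopless.irrefl _ hvw
      rcases lt_or_gt_of_ne hne with h5 | h5
      · exact (b2 t' ht' t h5 ((he t' ht' t h5).2.1 hvw.symm)).symm
      · exact b2 t ht t' h5 ((he t ht t' h5).2.1 hvw)

end

end Pool.Agent.Helper76
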