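import Pool.Agent.Helper76.TypeCol

/-!
3-colouring a graph that contains a fixed base graph, with one kind of vertices outside of the
base (colour entry `3` in the table) whose colour is `1` if they have a neighbour outside of the
base with colour entry `0`, and `0` otherwise.
-/

namespace Pool.Agent.Helper76

open SimpleGraph

structure TC2 where
  n : ℕ
  M : ℕ
  bc : List ℕ
  tbl : List Ent
  tree : ℕ
  trip : List (ℕ × ℕ × ℕ × ℕ × ℕ)

/-- vertices with masks `u, l, r` and edges `u l`, `u r` are refuted, whether or not `l r` is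
an edge -/
def hasTrip (F : List (ℕ × ℕ)) (n M u l r : ℕ) : List (ℕ × ℕ × ℕ × ℕ × ℕ) → Bool
  | [] => false
  | p :: L => cond (Nat.beq p.1 u && Nat.beq p.2.1 l && Nat.beq p.2.2.1 r)
      (leafOK F (n + 3) (extG (n + 2) (extG (n + 1) (extG n M u) (Nat.lor l (2 ^ n)))
        (Nat.lor (Nat.lor r (2 ^ n)) 0)) p.2.2.2.1 &&
       leafOK F (n + 3) (extG (n + 2) (extG (n + 1) (extG n M u) (Nat.lor l (2 ^ n)))
        (Nat.lor (Nat.lor r (2 ^ n)) (2 ^ (n + 1)))) p.2.2.2.2 &&
       okGraph (n + 2) (extG (n + 1) (extG n M u) (Nat.lor l (2 ^ n))))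
      (hasTrip F n M u l r L)

def TC2.check (F : List (ℕ × ℕ)) (T : TC2) : Bool :=
  okGraph T.n T.M &&
  isSome' (run F T.n [] (T.tbl.map Ent.m) 40 T.M (fullK T.n T.n) T.tree) &&
  okCol 3 T.n T.M T.bc &&
  (T.tbl.all fun e => okGraph (T.n + 1) (extG T.n T.M e.m) && Nat.ble e.c 3 &&
    (allLt T.n fun t => cond (tb e.m t) (cond (Nat.beq e.c 3) (Nat.beq (T.bc.getD t 0) 2)
      (!Nat.beq (T.bc.getD t 0) e.c)) true) &&
    (T.tbl.all fun f => cond (Nat.beq e.c f.c && Nat.ble e.m f.m)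
      (hasLeaf F T.n T.M e.m f.m e.l) true) &&
    cond (Nat.beq e.c 3) (T.tbl.all fun f => cond (Nat.beq f.c 1)
      (T.tbl.all fun g => cond (Nat.beq g.c 0)
        (hasLeaf F T.n T.M e.m f.m e.l || hasLeaf F T.n T.M e.m g.m e.l ||
          hasTrip F T.n T.M e.m f.m g.m T.trip) true) true) true)

section

variable {V : Type*} {G : SimpleGraph V}

theorem hasTrip_sound {F : List (ℕ × ℕ)} {n M u l r : ℕ} (hF : ∀ p ∈ F, Avoid G p.1 p.2) :
    ∀ L : List (ℕ × ℕ × ℕ × ℕ × ℕ), hasTrip F n M u l r L = true →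
      Avoid G (n + 3) (extG (n + 2) (extG (n + 1) (extG n M u) (Nat.lor l (2 ^ n)))
        (Nat.lor (Nat.lor r (2 ^ n)) 0)) ∧
      Avoid G (n + 3) (extG (n + 2) (extG (n + 1) (extG n M u) (Nat.lor l (2 ^ n)))
        (Nat.lor (Nat.lor r (2 ^ n)) (2 ^ (n + 1)))) ∧
      okGraph (n + 2) (extG (n + 1) (extG n M u) (Nat.lor l (2 ^ n))) = true
  | [], h => by simp [hasTrip] at h
  | p :: L, h => by
    rw [hasTrip] at h
    cases hp : (Nat.beq p.1 u && Nat.beq p.2.1 l && Nat.beq p.2.2.1 r) with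
    | true =>
      rw [hp, cond_true, Bool.and_eq_true, Bool.and_eq_true] at h
      exact ⟨leafOK_sound hF h.1.1, leafOK_sound hF h.1.2, h.2⟩
    | false => rw [hp, cond_false] at h; exact hasTrip_sound hF L h

/-- three vertices outside of the base, the first one adjacent to the others -/
theorem Emb.ext3 {n M e f g : ℕ} {σ : ℕ → V} (he : Emb G n M σ) (hok : okGraph n M = true)
    (hok1 : okGraph (n + 1) (extG n M e) = true)
    (hok2 : okGraph (n + 2) (extG (n + 1) (extG n M e) (Nat.lor f (2 ^ n))) = true)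
    {u v w : V} (hu : ∀ t < n, u ≠ σ t) (hv : ∀ t < n, v ≠ σ t) (hw : ∀ t < n, w ≠ σ t)
    (hum : ∀ t < n, G.Adj u (σ t) ↔ tb e t = true)
    (hvm : ∀ t < n, G.Adj v (σ t) ↔ tb f t = true)
    (hwm : ∀ t < n, G.Adj w (σ t) ↔ tb g t = true)
    (hvlt : ∀ t, n ≤ t → tb f t = false) (hwlt : ∀ t, n ≤ t → tb g t = false)
    (huv : G.Adj v u) (huw : G.Adj w u) (hvw : w ≠ v)
    {x : ℕ} (hx : (x = 2 ^ (n + 1) ∧ G.Adj w v) ∨ (x = 0 ∧ ¬ G.Adj w v)) :
    Emb G (n + 3) (extG (n + 2) (extG (n + 1) (extG n M e) (Nat.lor f (2 ^ n)))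
        (Nat.lor (Nat.lor g (2 ^ n)) x))
      (Function.update (Function.update (Function.update σ n u) (n + 1) v) (n + 2) w) := by
  have h1 := he.ext2 hok hok1 hu hv hum hvm hvlt (Or.inl ⟨rfl, huv⟩) huv.ne
  refine h1.ext hok2 ?_ ?_
  · intro t ht
    by_cases ht1 : t = n + 1
    · subst ht1; rw [Function.update_self]; exact hvw
    · rw [Function.update_of_ne ht1]
      by_cases htn : t = n
      · subst htn; rw [Function.update_self]; exact huw.ne
      · rw [Function.update_of_ne htn]; exact hw t (by omega)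
  · intro t ht
    have e1 : Nat.lor (Nat.lor g (2 ^ n)) x = (g ||| 2 ^ n) ||| x := rfl
    rw [e1, tb_or, tb_or]
    by_cases ht1 : t = n + 1
    · subst ht1
      rw [Function.update_self, hwlt _ (by omega)]
      have : tb (2 ^ n) (n + 1) = false := by rw [tb_pow]; simp
      rw [this]
      rcases hx with ⟨rfl, hadj⟩ | ⟨rfl, hadj⟩
      · simp [hadj, tb_pow]
      · simp [hadj, tb_zero]
    · rw [Function.update_of_ne ht1]
      have hx0 : tb x t = false := by
        rcases hx with ⟨rfl, -⟩ | ⟨rfl, -⟩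
        · rw [tb_pow]; simp; omega
        · exact tb_zero _
      rw [hx0, Bool.or_false]
      by_cases htn : t = n
      · subst htn
        rw [Function.update_self, hwlt _ le_rfl]
        simp [huw, tb_pow]
      · rw [Function.update_of_ne htn]
        have : tb (2 ^ n) t = false := by rw [tb_pow]; simp; omega
        rw [this, Bool.or_false]
        exact hwm t (by omega)

theorem TC2.sound {F : List (ℕ × ℕ)} (hF : ∀ p ∈ F, Avoid G p.1 p.2) (T : TC2)
    (h : T.check F = true) {σ : ℕ → V} (he : Emb G T.n T.M σ) : ColOn G 3 Set.univ := by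
  classical
  simp only [TC2.check, Bool.and_eq_true, List.all_eq_true] at h
  obtain ⟨⟨⟨h1, h2⟩, h3⟩, h4⟩ := h
  obtain ⟨b1, b2⟩ := okCol_spec h3
  have hent : ∀ v : V, (∀ t < T.n, v ≠ σ t) → ∃ e ∈ T.tbl,
      ∀ t < T.n, G.Adj v (σ t) ↔ tb e.m t = true := by
    intro v hv
    obtain ⟨m, hm, hmt⟩ := exists_mask hF he h1 h2 v hv
    obtain ⟨e, he', rfl⟩ := List.mem_map.1 hm
    exact ⟨e, he', hmt⟩
  choose ent hent1 hent2 using hent
  -- the colouring
  let sp : V → Prop := fun v => ∃ r, ∃ hr : ∀ t < T.n, r ≠ σ t, (ent r hr).c = 0 ∧ G.Adj v r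
  let c : V → ℕ := fun v => if hv : ∀ t < T.n, v ≠ σ t then
      (if (ent v hv).c = 3 then (if sp v then 1 else 0) else (ent v hv).c)
    else T.bc.getD (Classical.epsilon fun t => t < T.n ∧ v = σ t) 0
  have hc1 : ∀ v (hv : ∀ t < T.n, v ≠ σ t), c v =
      if (ent v hv).c = 3 then (if sp v then 1 else 0) else (ent v hv).c := by
    intro v hv
    exact dif_pos hv
  have hc2 : ∀ t < T.n, c (σ t) = T.bc.getD t 0 := by
    intro t ht
    have hv : ¬ ∀ t' < T.n, σ t ≠ σ t' := by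
      push Not
      exact ⟨t, ht, rfl⟩
    have e1 : c (σ t) = T.bc.getD (Classical.epsilon fun t' => t' < T.n ∧ σ t = σ t') 0 :=
      dif_neg hv
    have h5 := Classical.epsilon_spec (p := fun t' => t' < T.n ∧ σ t = σ t') ⟨t, ht, rfl⟩
    rw [e1]
    congr 1
    by_contra hne
    exact he.inj ht h5.1 (fun h6 => hne h6.symm) h5.2
  have hbase : ∀ v, ¬ (∀ t < T.n, v ≠ σ t) → ∃ t < T.n, v = σ t := by
    intro v hv
    push Not at hv
    exact hv
  have hle3 : ∀ v (hv : ∀ t < T.n, v ≠ σ t), (ent v hv).c ≤ 3 := by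
    intro v hv
    obtain ⟨⟨⟨⟨-, h5⟩, -⟩, -⟩, -⟩ := h4 _ (hent1 v hv)
    exact Nat.le_of_ble_eq_true h5
  have hbv : ∀ v (hv : ∀ t < T.n, v ≠ σ t), ∀ t < T.n, G.Adj v (σ t) →
      c v ≠ c (σ t) := by
    intro v hv t ht hadj
    rw [hc1 v hv, hc2 t ht]
    obtain ⟨⟨⟨-, h6⟩, -⟩, -⟩ := h4 _ (hent1 v hv)
    have h7 := allLt_iff.1 h6 t ht
    rw [(hent2 v hv t ht).1 hadj, cond_true] at h7
    by_cases h8 : (ent v hv).c = 3
    · rw [h8] at h7
      have h9 : Nat.beq 3 3 = true := rfl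
      rw [h9, cond_true] at h7
      have h7 := Nat.eq_of_beq_eq_true h7
      rw [if_pos h8, h7]
      split <;> omega
    · have h9 : Nat.beq (ent v hv).c 3 = false := by
        by_contra hx
        exact h8 (Nat.eq_of_beq_eq_true (by simpa using hx))
      rw [h9, cond_false] at h7
      rw [if_neg h8]
      simp only [Bool.not_eq_true'] at h7
      intro heq
      rw [heq] at h7
      simp at h7
  have hpair : ∀ (x y : V) (hx : ∀ t < T.n, x ≠ σ t) (hy : ∀ t < T.n, y ≠ σ t),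
      G.Adj y x → hasLeaf F T.n T.M (ent x hx).m (ent y hy).m (ent x hx).l = true → False := by
    intro x y hx hy hadj h7
    obtain ⟨⟨⟨⟨o1, -⟩, -⟩, -⟩, -⟩ := h4 _ (hent1 x hx)
    have h9 := hasLeaf_sound hF _ h7
    obtain ⟨⟨⟨⟨o2, -⟩, -⟩, -⟩, -⟩ := h4 _ (hent1 y hy)
    exact h9 _ (he.ext2 h1 o1 hx hy (hent2 x hx) (hent2 y hy) (mask_lt o2)
      (Or.inl ⟨rfl, hadj⟩) hadj.ne)
  have hsame : ∀ (x y : V) (hx : ∀ t < T.n, x ≠ σ t) (hy : ∀ t < T.n, y ≠ σ t),
      G.Adj y x → (ent x hx).c = (ent y hy).c → False := by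
    have key : ∀ (x y : V) (hx : ∀ t < T.n, x ≠ σ t) (hy : ∀ t < T.n, y ≠ σ t),
        G.Adj y x → (ent x hx).c = (ent y hy).c → (ent x hx).m ≤ (ent y hy).m → False := by
      intro x y hx hy hadj hcc hmm
      obtain ⟨⟨-, h6⟩, -⟩ := h4 _ (hent1 x hx)
      have h7 := h6 _ (hent1 y hy)
      have h8 : (Nat.beq (ent x hx).c (ent y hy).c && Nat.ble (ent x hx).m (ent y hy).m)
          = true := by
        rw [Bool.and_eq_true]
        exact ⟨by rw [hcc]; simp, Nat.ble_eq_true_of_le hmm⟩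
      rw [h8, cond_true] at h7
      exact hpair x y hx hy hadj h7
    intro x y hx hy hadj hcc
    rcases le_total (ent x hx).m (ent y hy).m with hm | hm
    · exact key x y hx hy hadj hcc hm
    · exact key y x hy hx hadj.symm hcc.symm hm
  -- a special vertex with colour 1 and a plain vertex with colour 1
  have htri : ∀ (u l : V) (hu : ∀ t < T.n, u ≠ σ t) (hl : ∀ t < T.n, l ≠ σ t),
      (ent u hu).c = 3 → (ent l hl).c = 1 → G.Adj l u → sp u → False := by
    rintro u l hu hl hcu hcl hadj ⟨r, hr, hcr, hur⟩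
    obtain ⟨⟨⟨⟨o1, -⟩, -⟩, -⟩, h5⟩ := h4 _ (hent1 u hu)
    obtain ⟨⟨⟨⟨o2, -⟩, -⟩, -⟩, -⟩ := h4 _ (hent1 l hl)
    obtain ⟨⟨⟨⟨o3, -⟩, -⟩, -⟩, -⟩ := h4 _ (hent1 r hr)
    rw [hcu] at h5
    have e3 : Nat.beq 3 3 = true := rfl
    rw [e3, cond_true, List.all_eq_true] at h5
    have h6 := h5 _ (hent1 l hl)
    rw [hcl] at h6
    have e4 : Nat.beq 1 1 = true := rfl
    rw [e4, cond_true, List.all_eq_true] at h6
    have h7 := h6 _ (hent1 r hr)
    rw [hcr] at h7
    have e5 : Nat.beq 0 0 = true := rfl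
    rw [e5, cond_true, Bool.or_eq_true, Bool.or_eq_true] at h7
    rcases h7 with (h7 | h7) | h7
    · exact hpair u l hu hl hadj h7
    · exact hpair u r hu hr hur.symm h7
    · obtain ⟨a1, a2, a3⟩ := hasTrip_sound hF _ h7
      have hne : r ≠ l := by
        rintro rfl
        rw [hcl] at hcr
        omega
      by_cases hrl : G.Adj r l
      · exact a2 _ (he.ext3 h1 o1 a3 hu hl hr (hent2 u hu) (hent2 l hl) (hent2 r hr)
          (mask_lt o2) (mask_lt o3) hadj hur.symm hne (Or.inl ⟨rfl, hrl⟩))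
      · exact a1 _ (he.ext3 h1 o1 a3 hu hl hr (hent2 u hu) (hent2 l hl) (hent2 r hr)
          (mask_lt o2) (mask_lt o3) hadj hur.symm hne (Or.inr ⟨rfl, hrl⟩))
  refine ⟨c, ?_, ?_⟩
  · intro v _
    by_cases hv : ∀ t < T.n, v ≠ σ t
    · rw [hc1 v hv]
      have := hle3 v hv
      split
      · split <;> omega
      · omega
    · obtain ⟨t, ht, rfl⟩ := hbase v hv
      rw [hc2 t ht]
      exact b1 t ht
  · intro v _ w _ hvw
    by_cases hv : ∀ t < T.n, v ≠ σ t <;> by_cases hw : ∀ t < T.n, w ≠ σ t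
    · -- both outside
      have key : ∀ (x y : V) (hx : ∀ t < T.n, x ≠ σ t) (hy : ∀ t < T.n, y ≠ σ t),
          G.Adj y x → (ent x hx).c = 3 → c x ≠ c y := by
        intro x y hx hy hadj hcx
        have hcy : (ent y hy).c ≠ 3 := by
          intro hcy
          exact hsame x y hx hy hadj (by rw [hcx, hcy])
        rw [hc1 x hx, hc1 y hy, if_pos hcx, if_neg hcy]
        by_cases hs : sp x
        · rw [if_pos hs]
          intro heq
          exact htri x y hx hy hcx heq.symm hadj hs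
        · rw [if_neg hs]
          intro heq
          exact hs ⟨y, hy, heq.symm, hadj.symm⟩
      by_cases h5 : (ent v hv).c = 3
      · exact key v w hv hw hvw.symm h5
      · by_cases h6 : (ent w hw).c = 3
        · exact (key w v hw hv hvw h6).symm
        · rw [hc1 v hv, hc1 w hw, if_neg h5, if_neg h6]
          intro heq
          exact hsame v w hv hw hvw.symm heq
    · obtain ⟨t, ht, rfl⟩ := hbase w hw
      exact hbv v hv t ht hvw
    · obtain ⟨t, ht, rfl⟩ := hbase v hv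
      exact (hbv w hw t ht hvw.symm).symm
    · obtain ⟨t, ht, rfl⟩ := hbase v hv
      obtain ⟨t', ht', rfl⟩ := hbase w hw
      rw [hc2 t ht, hc2 t' ht']
      have hne : t ≠ t' := by
        rintro rfl
        exact G.loopless.irrefl _ hvw
      rcases lt_or_gt_of_ne hne with h5 | h5
      · exact (b2 t' ht' t h5 ((he t' ht' t h5).2.1 hvw.symm)).symm
      · exact b2 t ht t' h5 ((he t ht t' h5).2.1 hvw)

end

end Pool.Agent.Helper76
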